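import Pool.Agent.Helper95_Entire.System

set_option autoImplicit false

/-!
# Completeness: integer solutions give solutions in the periodic ring
-/

open Complex Filter Topology Set

noncomputable section

namespace Pool.Agent.Helper95_Entire

/-- The `s`-periods of the standard solutions. -/
def lam (v : ℕ → ℤ) : ℕ → ℤ × ℤ
  | 0 => (1, 0)
  | 1 => (0, 1)
  | k + 2 => (v k, 0)

/-- The `t`-displacements of the standard solutions. -/
def dis (v : ℕ → ℤ) : ℕ → ℤ × ℤ
  | 0 => (0, 0)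
  | 1 => (0, -1)
  | 2 => (1, 0)
  | k + 3 => (0, -v k)

lemma bez_lam (v : ℕ → ℤ) (i : ℕ) : Bez (lam v i).1 (lam v i).2 := by
  match i with
  | 0 => exact bez_real 1
  | 1 => exact bez_I
  | k + 2 => exact bez_real (v k)

theorem sys_complete {M : ℕ} {R : List BRel} {p a : ℕ} {v : ℕ → ℤ} (hR : ∀ r ∈ R, r.Holds v)
    (hp : v p = a) : SolvP (sys0 M R ++ chain p a) := by
  set l := lam v with hl
  set m := dis v with hm
  set P : ℕ → ℕ → ℤ := fun i j => pair (l i) (m j) with hP
  have b1 : ∀ i j, ∃ A C, PP A ∧ PP C ∧ ∀ t s,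
      A t s * FX (l i) (m j) t s + C t s * FZ (l i) (m j) t s = 1 := fun i j =>
    F_bezout (l i) (m j) (bez_lam v i)
  choose A C hA hC hAC using b1
  have hz : ∀ i j s, FX (l i) (m j) 0 s = FX (l i) (m 0) 0 s ∧
      FY (l i) (m j) 0 s = FY (l i) (m 0) 0 s ∧ FZ (l i) (m j) 0 s = FZ (l i) (m 0) 0 s :=
    fun i j s => F_zero_t (l i) (m j) s
  have q7 : ∀ i j, ∃ g, PP g ∧ ∀ t s, FX (l i) (m j) t s - FX (l i) (m 0) t s = (t - 0) * g t s :=
    fun i j => ((PP_FX (l i) (m j)).sub (PP_FX (l i) (m 0))).div_t 0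
      (fun s => sub_eq_zero.2 (hz i j s).1)
  have q8 : ∀ i j, ∃ g, PP g ∧ ∀ t s, FY (l i) (m j) t s - FY (l i) (m 0) t s = (t - 0) * g t s :=
    fun i j => ((PP_FY (l i) (m j)).sub (PP_FY (l i) (m 0))).div_t 0
      (fun s => sub_eq_zero.2 (hz i j s).2.1)
  have q9 : ∀ i j, ∃ g, PP g ∧ ∀ t s, FZ (l i) (m j) t s - FZ (l i) (m 0) t s = (t - 0) * g t s :=
    fun i j => ((PP_FZ (l i) (m j)).sub (PP_FZ (l i) (m 0))).div_t 0
      (fun s => sub_eq_zero.2 (hz i j s).2.2)
  choose G7 hG7 e7 using q7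
  choose G8 hG8 e8 using q8
  choose G9 hG9 e9 using q9
  have ho : ∀ i j s, FX (l i) (m j) 1 s = ex (P i j * s) ^ 2 * FX (l i) (m 0) 1 s ∧
      FY (l i) (m j) 1 s = ex (P i j * s) ^ 3 * FY (l i) (m 0) 1 s ∧
      FZ (l i) (m j) 1 s = ex (P i j * s) * FZ (l i) (m 0) 1 s :=
    fun i j s => F_one (l i) (m j) s
  have q10 : ∀ i j, ∃ g, PP g ∧ ∀ t s, FX (l i) (m j) t s - ex (P i j * s) ^ 2 * FX (l i) (m 0) t s
      = (t - 1) * g t s :=
    fun i j => ((PP_FX (l i) (m j)).sub (((PP_ex (P i j)).pow 2).mul (PP_FX (l i) (m 0)))).div_t 1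
      (fun s => sub_eq_zero.2 (ho i j s).1)
  have q11 : ∀ i j, ∃ g, PP g ∧ ∀ t s, FY (l i) (m j) t s - ex (P i j * s) ^ 3 * FY (l i) (m 0) t s
      = (t - 1) * g t s :=
    fun i j => ((PP_FY (l i) (m j)).sub (((PP_ex (P i j)).pow 3).mul (PP_FY (l i) (m 0)))).div_t 1
      (fun s => sub_eq_zero.2 (ho i j s).2.1)
  have q12 : ∀ i j, ∃ g, PP g ∧ ∀ t s, FZ (l i) (m j) t s - ex (P i j * s) * FZ (l i) (m 0) t s
      = (t - 1) * g t s :=
    fun i j => ((PP_FZ (l i) (m j)).sub ((PP_ex (P i j)).mul (PP_FZ (l i) (m 0)))).div_t 1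
      (fun s => sub_eq_zero.2 (ho i j s).2.2)
  choose G10 hG10 e10 using q10
  choose G11 hG11 e11 using q11
  choose G12 hG12 e12 using q12
  have hb : ∀ i t, FX (l i) (m 0) t 0 = 0 ∧ FY (l i) (m 0) t 0 = 0 ∧ FZ (l i) (m 0) t 0 = 1 :=
    fun i t => F_base (l i) t
  have q13 : ∀ i, ∃ g, PP g ∧ ∀ t s, FX (l i) (m 0) t s = (ex s - 1) * g t s :=
    fun i => (PP_FX (l i) (m 0)).div_x (fun t => (hb i t).1)
  have q14 : ∀ i, ∃ g, PP g ∧ ∀ t s, FY (l i) (m 0) t s = (ex s - 1) * g t s :=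
    fun i => (PP_FY (l i) (m 0)).div_x (fun t => (hb i t).2.1)
  have q15 : ∀ i, ∃ g, PP g ∧ ∀ t s, FZ (l i) (m 0) t s - 1 = (ex s - 1) * g t s :=
    fun i => ((PP_FZ (l i) (m 0)).sub (PP.const 1)).div_x (fun t => sub_eq_zero.2 (hb i t).2.2)
  choose G13 hG13 e13 using q13
  choose G14 hG14 e14 using q14
  choose G15 hG15 e15 using q15
  have hs : ∀ i j t, FX (l i) (m j) t 0 = FX (l 0) (m j) t 0 ∧
      FY (l i) (m j) t 0 = FY (l 0) (m j) t 0 ∧ FZ (l i) (m j) t 0 = FZ (l 0) (m j) t 0 :=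
    fun i j t => F_zero_s (l i) (l 0) (m j) t
  have q16 : ∀ i j, ∃ g, PP g ∧ ∀ t s, FX (l i) (m j) t s - FX (l 0) (m j) t s = (ex s - 1) * g t s :=
    fun i j => ((PP_FX (l i) (m j)).sub (PP_FX (l 0) (m j))).div_x
      (fun t => sub_eq_zero.2 (hs i j t).1)
  have q17 : ∀ i j, ∃ g, PP g ∧ ∀ t s, FY (l i) (m j) t s - FY (l 0) (m j) t s = (ex s - 1) * g t s :=
    fun i j => ((PP_FY (l i) (m j)).sub (PP_FY (l 0) (m j))).div_x
      (fun t => sub_eq_zero.2 (hs i j t).2.1)
  have q18 : ∀ i j, ∃ g, PP g ∧ ∀ t s, FZ (l i) (m j) t s - FZ (l 0) (m j) t s = (ex s - 1) * g t s :=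
    fun i j => ((PP_FZ (l i) (m j)).sub (PP_FZ (l 0) (m j))).div_x
      (fun t => sub_eq_zero.2 (hs i j t).2.2)
  choose G16 hG16 e16 using q16
  choose G17 hG17 e17 using q17
  choose G18 hG18 e18 using q18
  -- the solution
  set main : ℕ → ℕ → ℕ → ℂ → ℂ → ℂ := fun tag i j =>
    match tag with
    | 0 => FX (l i) (m j)
    | 1 => FY (l i) (m j)
    | 2 => FZ (l i) (m j)
    | 3 => A i j
    | 4 => C i j
    | 5 => fun _ s => ex (P i j * s)
    | 6 => fun _ s => ex ((-P i j : ℤ) * s)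
    | 7 => G7 i j
    | 8 => G8 i j
    | 9 => G9 i j
    | 10 => G10 i j
    | 11 => G11 i j
    | 12 => G12 i j
    | 13 => G13 i
    | 14 => G14 i
    | 15 => G15 i
    | 16 => G16 i j
    | 17 => G17 i j
    | 18 => G18 i j
    | _ => fun _ _ => 0 with hmain
  have hmainPP : ∀ tag i j, PP (main tag i j) := by
    intro tag i j
    match tag with
    | 0 => exact PP_FX _ _
    | 1 => exact PP_FY _ _
    | 2 => exact PP_FZ _ _
    | 3 => exact hA i j
    | 4 => exact hC i j
    | 5 => exact PP_ex (P i j)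
    | 6 => exact PP_ex (-P i j)
    | 7 => exact hG7 i j
    | 8 => exact hG8 i j
    | 9 => exact hG9 i j
    | 10 => exact hG10 i j
    | 11 => exact hG11 i j
    | 12 => exact hG12 i j
    | 13 => exact hG13 i
    | 14 => exact hG14 i
    | 15 => exact hG15 i
    | 16 => exact hG16 i j
    | 17 => exact hG17 i j
    | 18 => exact hG18 i j
    | k + 19 => exact PP.const 0
  set F : ℕ → ℂ → ℂ → ℂ := fun k =>
    if k % 2 = 0 then fun _ s => ex (((k / 2 : ℕ) : ℤ) * s)
    else main (Nat.unpair (k / 2)).1 (Nat.unpair (Nat.unpair (k / 2)).2).1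
      (Nat.unpair (Nat.unpair (k / 2)).2).2 with hF
  have hFPP : ∀ k, PP (F k) := by
    intro k
    simp only [hF]
    split_ifs
    · exact PP_ex _
    · exact hmainPP _ _ _
  have hFnm : ∀ tag i j, F (nm tag i j) = main tag i j := by
    intro tag i j
    have h1 : ¬ (nm tag i j) % 2 = 0 := by rw [nm]; omega
    have h2 : (nm tag i j) / 2 = Nat.pair tag (Nat.pair i j) := by rw [nm]; omega
    simp only [hF]
    rw [if_neg h1, h2, Nat.unpair_pair, Nat.unpair_pair]
  have hFch : ∀ k, F (2 * k) = fun _ s => ex ((k : ℤ) * s) := by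
    intro k
    have h1 : (2 * k) % 2 = 0 := by omega
    have h2 : (2 * k) / 2 = k := by omega
    simp only [hF]
    rw [if_pos h1, h2]
  have hFch0 : F 0 = fun _ s => ex ((0 : ℕ) * s) := by
    have := hFch 0
    rw [mul_zero] at this
    rw [this]
    simp
  have m0 : ∀ i j, main 0 i j = FX (l i) (m j) := fun _ _ => rfl
  have m1 : ∀ i j, main 1 i j = FY (l i) (m j) := fun _ _ => rfl
  have m2 : ∀ i j, main 2 i j = FZ (l i) (m j) := fun _ _ => rfl
  have m3 : ∀ i j, main 3 i j = A i j := fun _ _ => rfl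
  have m4 : ∀ i j, main 4 i j = C i j := fun _ _ => rfl
  have m5 : ∀ i j, main 5 i j = fun _ s => ex (P i j * s) := fun _ _ => rfl
  have m6 : ∀ i j, main 6 i j = fun _ s => ex ((-P i j : ℤ) * s) := fun _ _ => rfl
  have m7 : ∀ i j, main 7 i j = G7 i j := fun _ _ => rfl
  have m8 : ∀ i j, main 8 i j = G8 i j := fun _ _ => rfl
  have m9 : ∀ i j, main 9 i j = G9 i j := fun _ _ => rfl
  have m10 : ∀ i j, main 10 i j = G10 i j := fun _ _ => rfl
  have m11 : ∀ i j, main 11 i j = G11 i j := fun _ _ => rfl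
  have m12 : ∀ i j, main 12 i j = G12 i j := fun _ _ => rfl
  have m13 : ∀ i j, main 13 i j = G13 i := fun _ _ => rfl
  have m14 : ∀ i j, main 14 i j = G14 i := fun _ _ => rfl
  have m15 : ∀ i j, main 15 i j = G15 i := fun _ _ => rfl
  have m16 : ∀ i j, main 16 i j = G16 i j := fun _ _ => rfl
  have m17 : ∀ i j, main 17 i j = G17 i j := fun _ _ => rfl
  have m18 : ∀ i j, main 18 i j = G18 i j := fun _ _ => rfl
  -- the pairing
  have hP01 : P 0 1 = 1 := by simp [hP, hl, hm, pair, lam, dis]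
  have hP02 : P 0 2 = 0 := by simp [hP, hl, hm, pair, lam, dis]
  have hP11 : P 1 1 = 0 := by simp [hP, hl, hm, pair, lam, dis]
  have hP12 : P 1 2 = 1 := by simp [hP, hl, hm, pair, lam, dis]
  have hPk2 : ∀ k, P (k + 2) 2 = 0 := by
    intro k; simp [hP, hl, hm, pair, lam, dis]
  have hPk1 : ∀ k, P (k + 2) 1 = v k := by
    intro k; simp [hP, hl, hm, pair, lam, dis]
  have hP0k : ∀ k, P 0 (k + 3) = v k := by
    intro k; simp [hP, hl, hm, pair, lam, dis]
  have hPkl : ∀ k j, P (k + 2) (j + 3) = v k * v j := by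
    intro k j
    simp [hP, hl, hm, pair, lam, dis, mul_comm]
  have hex1 : ∀ s, ex (((1 : ℤ) : ℂ) * s) = ex s := fun s => by simp
  have hex0 : ∀ s, ex (((0 : ℤ) : ℂ) * s) = 1 := fun s => by simp [ex_zero]
  refine ⟨F, hFPP, ?_⟩
  intro e he t s
  simp only [sys0, List.mem_append, List.mem_flatMap, List.mem_range] at he
  rcases he with (⟨i, hi, j, hj, he⟩ | ⟨i, hi, j, hj, he⟩ | ⟨i, hi, he⟩ | he | he) | he
  · simp only [eqF, List.mem_cons, List.not_mem_nil, or_false] at he
    rcases he with rfl | rfl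
    · simp only [Ex.ev, mu, hFnm, m0, m1, m2]
      linear_combination F_curve (l i) (m j) t s
    · simp only [Ex.ev, mu, hFnm, m0, m2, m3, m4]
      push_cast
      linear_combination hAC i j t s
  · simp only [eqG, List.mem_cons, List.not_mem_nil, or_false] at he
    rcases he with rfl | rfl | rfl | rfl | rfl | rfl | rfl | rfl | rfl | rfl
    · simp only [Ex.ev, mu, hFnm, m5, m6]
      rw [← ex_add]
      push_cast
      rw [show (P i (j + 1) : ℂ) * s + -(P i (j + 1) : ℂ) * s = 0 by ring, ex_zero, sub_self]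
    · simp only [Ex.ev, mu, hFnm, m0, m7]
      linear_combination e7 i (j + 1) t s
    · simp only [Ex.ev, mu, hFnm, m1, m8]
      linear_combination e8 i (j + 1) t s
    · simp only [Ex.ev, mu, hFnm, m2, m9]
      linear_combination e9 i (j + 1) t s
    · simp only [Ex.ev, mu, hFnm, m0, m5, m10]
      push_cast
      linear_combination e10 i (j + 1) t s
    · simp only [Ex.ev, mu, hFnm, m1, m5, m11]
      push_cast
      linear_combination e11 i (j + 1) t s
    · simp only [Ex.ev, mu, hFnm, m2, m5, m12]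
      push_cast
      linear_combination e12 i (j + 1) t s
    · simp only [Ex.ev, mu, hFnm, m0, m16]
      push_cast
      linear_combination e16 i (j + 1) t s
    · simp only [Ex.ev, mu, hFnm, m1, m17]
      push_cast
      linear_combination e17 i (j + 1) t s
    · simp only [Ex.ev, mu, hFnm, m2, m18]
      push_cast
      linear_combination e18 i (j + 1) t s
  · simp only [eqB, List.mem_cons, List.not_mem_nil, or_false] at he
    rcases he with rfl | rfl | rfl
    · simp only [Ex.ev, mu, hFnm, m0, m13]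
      push_cast
      linear_combination e13 i t s
    · simp only [Ex.ev, mu, hFnm, m1, m14]
      push_cast
      linear_combination e14 i t s
    · simp only [Ex.ev, mu, hFnm, m2, m15]
      push_cast
      linear_combination e15 i t s
  · simp only [eqU, List.mem_append, List.mem_flatMap, List.mem_range, List.mem_cons,
      List.not_mem_nil, or_false] at he
    rcases he with (rfl | rfl | rfl | rfl) | ⟨k, hk, rfl | rfl⟩
    · simp only [Ex.ev, mu, hFnm, m5, hP01, hex1]; ring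
    · simp only [Ex.ev, mu, hFnm, m5, hP02, hex0]; push_cast; ring
    · simp only [Ex.ev, mu, hFnm, m5, hP11, hex0]; push_cast; ring
    · simp only [Ex.ev, mu, hFnm, m5, hP12, hex1]; ring
    · simp only [Ex.ev, mu, hFnm, m5, hPk2, hex0]; push_cast; ring
    · simp only [Ex.ev, mu, hFnm, m5, hPk1, hP0k]; ring
  · simp only [List.mem_map] at he
    obtain ⟨r, hr, rfl⟩ := he
    have h := hR r hr
    rcases r with a | ⟨a, b, c⟩ | ⟨a, b, c⟩
    · have h' : v a = 1 := h
      simp only [eqR, Ex.ev, mu, hFnm, m5, hPk1, h', hex1]; ring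
    · have h' : v a + v b = v c := h
      simp only [eqR, Ex.ev, mu, hFnm, m5, hPk1]
      rw [← ex_add, ← h', ← add_mul]
      push_cast
      ring
    · have h' : v a * v b = v c := h
      simp only [eqR, Ex.ev, mu, hFnm, m5, hPk1, hPkl, h']; ring
  · simp only [chain, List.mem_cons, List.mem_map, List.mem_range] at he
    rcases he with rfl | rfl | ⟨i, hi, rfl⟩
    · simp only [Ex.ev, hFch0, Nat.cast_zero, zero_mul, ex_zero]
      push_cast
      ring
    · simp only [Ex.ev, mu, hFnm, hFch, m5, hPk1, hp]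
      push_cast
      ring
    · simp only [Ex.ev, hFch]
      rw [← ex_add]
      push_cast
      rw [show ((i : ℂ) + 1) * s = s + i * s by ring, sub_self]

end Pool.Agent.Helper95_Entire
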