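import Pool.Agent.Helper95_Entire.Theta

set_option autoImplicit false

/-!
# The cone over the elliptic curve and its uniformisation

`Y = {(x, y, z) : y² = x³ - x z⁴, (x, z) ≠ 0}` with the weighted action
`c • (x, y, z) = (c² x, c³ y, c z)`; `Θ = (℘ ϑ², ½ ℘' ϑ³, κ ϑ)`.
-/

open Complex Filter Topology Set

noncomputable section

namespace Pool.Agent.Helper95_Entire

lemma exists_kap : ∃ k : ℂ, k ^ 4 = Lat.g₂ / 4 := by
  obtain ⟨k, hk⟩ := IsAlgClosed.exists_pow_nat_eq (Lat.g₂ / 4) (n := 4) (by norm_num)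
  exact ⟨k, hk⟩

/-- `κ⁴ = g₂ / 4`. -/
def kap : ℂ := exists_kap.choose

lemma kap_pow : kap ^ 4 = Lat.g₂ / 4 := exists_kap.choose_spec

lemma kap_ne : kap ≠ 0 := by
  intro h
  have := kap_pow
  rw [h] at this
  apply g₂_ne
  linear_combination -4 * this

open Classical in
/-- `℘ ϑ²`, extended to the lattice. -/
def Th1 (ξ : ℂ) : ℂ := if ξ ∈ Lat.lattice then (deriv theta ξ) ^ 2 else wp ξ * theta ξ ^ 2

open Classical in
/-- `½ ℘' ϑ³`, extended to the lattice. -/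
def Th2 (ξ : ℂ) : ℂ :=
  if ξ ∈ Lat.lattice then -(deriv theta ξ) ^ 3 else 1 / 2 * wpd ξ * theta ξ ^ 3

/-- `κ ϑ`. -/
def Th3 (ξ : ℂ) : ℂ := kap * theta ξ

lemma Th1_of_notMem {ξ : ℂ} (h : ξ ∉ Lat.lattice) : Th1 ξ = wp ξ * theta ξ ^ 2 := if_neg h

lemma Th2_of_notMem {ξ : ℂ} (h : ξ ∉ Lat.lattice) : Th2 ξ = 1 / 2 * wpd ξ * theta ξ ^ 3 := if_neg h

lemma Th1_of_mem {ξ : ℂ} (h : ξ ∈ Lat.lattice) : Th1 ξ = (deriv theta ξ) ^ 2 := if_pos h

lemma Th2_of_mem {ξ : ℂ} (h : ξ ∈ Lat.lattice) : Th2 ξ = -(deriv theta ξ) ^ 3 := if_pos h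

lemma punctured_notMem (l : ℂ) : ∀ᶠ z in 𝓝[≠] l, z ∉ Lat.lattice := by
  have := Lat.compl_lattice_sdiff_singleton_mem_nhds l
  filter_upwards [mem_nhdsWithin_of_mem_nhds this, self_mem_nhdsWithin] with z hz hz0 hzL
  exact hz ⟨hzL, hz0⟩

lemma theta_dslope {l : ℂ} (hl : l ∈ Lat.lattice) (z : ℂ) :
    theta z = (z - l) * dslope theta l z := by
  have h := sub_smul_dslope theta l z
  rw [smul_eq_mul, (theta_eq_zero_iff l).2 hl, sub_zero] at h
  exact h.symm

lemma differentiable_dslope_theta (l : ℂ) : Differentiable ℂ (dslope theta l) := by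
  rw [← differentiableOn_univ]
  exact (Complex.differentiableOn_dslope univ_mem).2 differentiable_theta.differentiableOn

@[fun_prop]
lemma differentiable_Th1 : Differentiable ℂ Th1 := by
  intro l
  by_cases hl : l ∈ Lat.lattice
  · have e : Th1 =ᶠ[𝓝 l] fun z => (z - l) ^ 2 * (dslope theta l z) ^ 2 *
        (Lat.weierstrassPExcept l z - 1 / l ^ 2) + (dslope theta l z) ^ 2 := by
      have h := punctured_notMem l
      rw [eventually_nhdsWithin_iff] at h
      filter_upwards [h] with z hz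
      by_cases hzl : z = l
      · subst hzl
        rw [Th1_of_mem hl, dslope_same]
        ring
      · have hz' := hz hzl
        rw [Th1_of_notMem hz', theta_dslope hl z]
        have h1 : wp z = Lat.weierstrassPExcept l z + (1 / (z - l) ^ 2 - 1 / l ^ 2) :=
          (Lat.weierstrassPExcept_add ⟨l, hl⟩ z).symm
        rw [h1]
        have h2 : z - l ≠ 0 := sub_ne_zero.2 hzl
        field_simp
        ring
    refine DifferentiableAt.congr_of_eventuallyEq ?_ e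
    have h1 := (Lat.analyticAt_weierstrassPExcept l).differentiableAt
    have h2 := differentiable_dslope_theta l l
    fun_prop
  · have e : Th1 =ᶠ[𝓝 l] fun z => wp z * theta z ^ 2 := by
      filter_upwards [isOpen_compl_Lat.mem_nhds hl] with z hz
      exact Th1_of_notMem hz
    refine DifferentiableAt.congr_of_eventuallyEq ?_ e
    have h1 := (analyticAt_wp hl).differentiableAt
    have h2 := differentiable_theta l
    fun_prop

@[fun_prop]
lemma differentiable_Th2 : Differentiable ℂ Th2 := by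
  intro l
  by_cases hl : l ∈ Lat.lattice
  · have e : Th2 =ᶠ[𝓝 l] fun z => 1 / 2 * (z - l) ^ 3 * (dslope theta l z) ^ 3 *
        (Lat.derivWeierstrassPExcept l z) - (dslope theta l z) ^ 3 := by
      have h := punctured_notMem l
      rw [eventually_nhdsWithin_iff] at h
      filter_upwards [h] with z hz
      by_cases hzl : z = l
      · subst hzl
        rw [Th2_of_mem hl, dslope_same]
        ring
      · have hz' := hz hzl
        rw [Th2_of_notMem hz', theta_dslope hl z]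
        have h1 : wpd z = Lat.derivWeierstrassPExcept l z - 2 / (z - l) ^ 3 :=
          (Lat.derivWeierstrassPExcept_sub ⟨l, hl⟩ z).symm
        rw [h1]
        have h2 : z - l ≠ 0 := sub_ne_zero.2 hzl
        field_simp
    refine DifferentiableAt.congr_of_eventuallyEq ?_ e
    have h1 := (Lat.analyticAt_derivWeierstrassPExcept l).differentiableAt
    have h2 := differentiable_dslope_theta l l
    fun_prop
  · have e : Th2 =ᶠ[𝓝 l] fun z => 1 / 2 * wpd z * theta z ^ 3 := by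
      filter_upwards [isOpen_compl_Lat.mem_nhds hl] with z hz
      exact Th2_of_notMem hz
    refine DifferentiableAt.congr_of_eventuallyEq ?_ e
    have h1 := (analyticAt_wpd hl).differentiableAt
    have h2 := differentiable_theta l
    fun_prop

@[fun_prop]
lemma differentiable_Th3 : Differentiable ℂ Th3 := by
  unfold Th3
  fun_prop

lemma dense_compl_Lat : Dense ((Lat.lattice : Set ℂ)ᶜ) := countable_Lat.dense_compl ℂ

lemma add_mem_Lat_iff {z l : ℂ} (hl : l ∈ Lat.lattice) : z + l ∈ Lat.lattice ↔ z ∈ Lat.lattice :=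
  Lat.lattice.toAddSubgroup.add_mem_cancel_right (y := z) hl

lemma Th1_add (ξ : ℂ) (m n : ℤ) : Th1 (ξ + (m + n * I)) = exp (Xe n ξ) ^ 2 * Th1 ξ := by
  have hl := mem_Lat_mk m n
  have h : (fun ξ => Th1 (ξ + (m + n * I))) = fun ξ => exp (Xe n ξ) ^ 2 * Th1 ξ := by
    apply Continuous.ext_on dense_compl_Lat
    · exact (differentiable_Th1.continuous).comp (by fun_prop)
    · have := (differentiable_Xe n).continuous
      have := differentiable_Th1.continuous
      fun_prop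
    · intro ξ hξ
      have h1 : ξ + (m + n * I) ∉ Lat.lattice := fun h => hξ ((add_mem_Lat_iff hl).1 h)
      show Th1 (ξ + (m + n * I)) = exp (Xe n ξ) ^ 2 * Th1 ξ
      rw [Th1_of_notMem h1, Th1_of_notMem hξ, wp_add hl, theta_add]
      ring
  exact congrFun h ξ

lemma Th2_add (ξ : ℂ) (m n : ℤ) : Th2 (ξ + (m + n * I)) = exp (Xe n ξ) ^ 3 * Th2 ξ := by
  have hl := mem_Lat_mk m n
  have h : (fun ξ => Th2 (ξ + (m + n * I))) = fun ξ => exp (Xe n ξ) ^ 3 * Th2 ξ := by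
    apply Continuous.ext_on dense_compl_Lat
    · exact (differentiable_Th2.continuous).comp (by fun_prop)
    · have := (differentiable_Xe n).continuous
      have := differentiable_Th2.continuous
      fun_prop
    · intro ξ hξ
      have h1 : ξ + (m + n * I) ∉ Lat.lattice := fun h => hξ ((add_mem_Lat_iff hl).1 h)
      show Th2 (ξ + (m + n * I)) = exp (Xe n ξ) ^ 3 * Th2 ξ
      rw [Th2_of_notMem h1, Th2_of_notMem hξ, wpd_add hl, theta_add]
      ring
  exact congrFun h ξ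

lemma Th3_add (ξ : ℂ) (m n : ℤ) : Th3 (ξ + (m + n * I)) = exp (Xe n ξ) * Th3 ξ := by
  rw [Th3, Th3, theta_add]; ring

lemma Th_eq (ξ : ℂ) : Th2 ξ ^ 2 = Th1 ξ ^ 3 - Th1 ξ * Th3 ξ ^ 4 := by
  have h : (fun ξ => Th2 ξ ^ 2) = fun ξ => Th1 ξ ^ 3 - Th1 ξ * Th3 ξ ^ 4 := by
    apply Continuous.ext_on dense_compl_Lat
    · have := differentiable_Th2.continuous
      fun_prop
    · have := differentiable_Th1.continuous
      have := differentiable_Th3.continuous
      fun_prop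
    · intro ξ hξ
      show Th2 ξ ^ 2 = Th1 ξ ^ 3 - Th1 ξ * Th3 ξ ^ 4
      rw [Th1_of_notMem hξ, Th2_of_notMem hξ, Th3]
      have h1 := wpd_sq' (z := ξ) hξ
      have h2 := kap_pow
      linear_combination (theta ξ ^ 6 / 4) * h1 + (wp ξ * theta ξ ^ 6) * h2
  exact congrFun h ξ

lemma Th3_eq_zero_iff (ξ : ℂ) : Th3 ξ = 0 ↔ ξ ∈ Lat.lattice := by
  rw [Th3, mul_eq_zero, theta_eq_zero_iff]
  simp [kap_ne]

lemma Th1_ne_of_mem {ξ : ℂ} (h : ξ ∈ Lat.lattice) : Th1 ξ ≠ 0 := by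
  rw [Th1_of_mem h]
  exact pow_ne_zero _ (deriv_theta_ne h)

lemma Th2_ne_of_mem {ξ : ℂ} (h : ξ ∈ Lat.lattice) : Th2 ξ ≠ 0 := by
  rw [Th2_of_mem h]
  exact neg_ne_zero.2 (pow_ne_zero _ (deriv_theta_ne h))

/-- The punctured cone. -/
def OnCone (x y z : ℂ) : Prop := y ^ 2 = x ^ 3 - x * z ^ 4 ∧ (x ≠ 0 ∨ z ≠ 0)

/-- `(x, y, z) = c • Θ(ξ)`. -/
def Rep (c ξ x y z : ℂ) : Prop := x = c ^ 2 * Th1 ξ ∧ y = c ^ 3 * Th2 ξ ∧ z = c * Th3 ξ

lemma onCone_Th (ξ : ℂ) : OnCone (Th1 ξ) (Th2 ξ) (Th3 ξ) := by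
  refine ⟨Th_eq ξ, ?_⟩
  by_cases h : ξ ∈ Lat.lattice
  · exact Or.inl (Th1_ne_of_mem h)
  · exact Or.inr (fun h' => h ((Th3_eq_zero_iff ξ).1 h'))

/-- The relation `(x, y, z) ∼ Θ(ξ)`. -/
def Rel (ξ x y z : ℂ) : Prop := x * Th3 ξ ^ 2 = Th1 ξ * z ^ 2 ∧ y * Th3 ξ ^ 3 = Th2 ξ * z ^ 3

lemma Rep.rel {c ξ x y z : ℂ} (h : Rep c ξ x y z) : Rel ξ x y z := by
  obtain ⟨h1, h2, h3⟩ := h
  rw [Rel, h1, h2, h3]
  constructor <;> ring

lemma Rel.rep {ξ x y z : ℂ} (hc : OnCone x y z) (h : Rel ξ x y z) :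
    ∃ c, c ≠ 0 ∧ Rep c ξ x y z := by
  obtain ⟨h1, h2⟩ := h
  obtain ⟨he, hne⟩ := hc
  by_cases hξ : ξ ∈ Lat.lattice
  · have h3 : Th3 ξ = 0 := (Th3_eq_zero_iff ξ).2 hξ
    have hT1 := Th1_ne_of_mem hξ
    have hT2 := Th2_ne_of_mem hξ
    have hTe := Th_eq ξ
    rw [h3] at h1 hTe
    have hz : z = 0 := by
      have : Th1 ξ * z ^ 2 = 0 := by rw [← h1]; ring
      rcases mul_eq_zero.1 this with h | h
      · exact absurd h hT1
      · exact pow_eq_zero_iff (n := 2) (by norm_num) |>.1 h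
    have hx : x ≠ 0 := by
      rcases hne with h | h
      · exact h
      · exact absurd hz h
    have hye : y ^ 2 = x ^ 3 := by rw [he, hz]; ring
    have hTe' : Th2 ξ ^ 2 = Th1 ξ ^ 3 := by rw [hTe]; ring
    have hy : y ≠ 0 := by
      intro h
      rw [h] at hye
      apply hx
      have : x ^ 3 = 0 := by rw [← hye]; ring
      exact pow_eq_zero_iff (n := 3) (by norm_num) |>.1 this
    have hc2 : (y * Th1 ξ / (x * Th2 ξ)) ^ 2 * Th1 ξ = x := by
      rw [div_pow, mul_pow, mul_pow, hye, hTe']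
      field_simp
    refine ⟨y * Th1 ξ / (x * Th2 ξ), by positivity, hc2.symm, ?_, ?_⟩
    · have : (y * Th1 ξ / (x * Th2 ξ)) ^ 3 * Th2 ξ =
          ((y * Th1 ξ / (x * Th2 ξ)) ^ 2 * Th1 ξ) * (y * Th1 ξ / (x * Th2 ξ)) * Th2 ξ / Th1 ξ := by
        field_simp
      rw [this, hc2]
      field_simp
    · rw [hz, h3, mul_zero]
  · have h3 : Th3 ξ ≠ 0 := fun h' => hξ ((Th3_eq_zero_iff ξ).1 h')
    have hz : z ≠ 0 := by
      intro hz
      rw [hz] at h1
      have : x = 0 := by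
        have : x * Th3 ξ ^ 2 = 0 := by rw [h1]; ring
        rcases mul_eq_zero.1 this with h | h
        · exact h
        · exact absurd (pow_eq_zero_iff (n := 2) (by norm_num) |>.1 h) h3
      rcases hne with h | h
      · exact h this
      · exact h hz
    refine ⟨z / Th3 ξ, div_ne_zero hz h3, ?_, ?_, ?_⟩
    · field_simp
      linear_combination h1
    · field_simp
      linear_combination h2
    · field_simp

/-- Every point of the cone is of the form `c • Θ(ξ)`. -/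
theorem exists_rel {x y z : ℂ} (hc : OnCone x y z) : ∃ ξ, Rel ξ x y z := by
  obtain ⟨he, hne⟩ := hc
  by_cases hz : z = 0
  · refine ⟨0, ?_, ?_⟩
    · rw [hz, (Th3_eq_zero_iff 0).2 (Submodule.zero_mem _)]; ring
    · rw [hz, (Th3_eq_zero_iff 0).2 (Submodule.zero_mem _)]; ring
  · obtain ⟨ξ, hξ, hv⟩ := wp_surj (kap ^ 2 * x / z ^ 2)
    have h1 := wpd_sq' hξ
    have hk := kap_pow
    have hg : Lat.g₂ = 4 * kap ^ 4 := by linear_combination -4 * hk
    have h2 : (wpd ξ) ^ 2 = (2 * kap ^ 3 * y / z ^ 3) ^ 2 := by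
      rw [h1, hv, hg]
      field_simp
      linear_combination -4 * kap ^ 6 * he
    have hx1 : ∀ w : ℂ, w ∉ Lat.lattice → wp w = kap ^ 2 * x / z ^ 2 →
        wpd w = 2 * kap ^ 3 * y / z ^ 3 → Rel w x y z := by
      intro w hw hw1 hw2
      constructor
      · rw [Th1_of_notMem hw, Th3, hw1]
        field_simp
      · rw [Th2_of_notMem hw, Th3, hw2]
        field_simp
    rcases sq_eq_sq_iff_eq_or_eq_neg.1 h2 with h | h
    · exact ⟨ξ, hx1 ξ hξ hv h⟩
    · refine ⟨-ξ, hx1 (-ξ) (fun h' => hξ (by simpa using Submodule.neg_mem _ h')) ?_ ?_⟩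
      · rw [wp_neg, hv]
      · rw [wpd_neg, h, neg_neg]

/-- Uniqueness modulo the lattice. -/
theorem rel_unique {ξ ξ' x y z : ℂ} (hc : OnCone x y z) (h : Rel ξ x y z) (h' : Rel ξ' x y z) :
    ξ - ξ' ∈ Lat.lattice := by
  obtain ⟨c, hc0, h1, h2, h3⟩ := h.rep hc
  obtain ⟨c', hc0', h1', h2', h3'⟩ := h'.rep hc
  by_cases hξ : ξ ∈ Lat.lattice
  · have hz : z = 0 := by rw [h3, (Th3_eq_zero_iff ξ).2 hξ, mul_zero]
    have : Th3 ξ' = 0 := by
      rw [h3'] at hz
      exact (mul_eq_zero.1 hz).resolve_left hc0'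
    exact Submodule.sub_mem _ hξ ((Th3_eq_zero_iff ξ').1 this)
  · have hT : Th3 ξ ≠ 0 := fun h => hξ ((Th3_eq_zero_iff ξ).1 h)
    have hz : z ≠ 0 := by rw [h3]; exact mul_ne_zero hc0 hT
    have hT' : Th3 ξ' ≠ 0 := by
      intro h
      rw [h3', h, mul_zero] at hz
      exact hz rfl
    have hξ' : ξ' ∉ Lat.lattice := fun h => hT' ((Th3_eq_zero_iff ξ').2 h)
    have ht : theta ξ ≠ 0 := fun h => hξ ((theta_eq_zero_iff ξ).1 h)
    have ht' : theta ξ' ≠ 0 := fun h => hξ' ((theta_eq_zero_iff ξ').1 h)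
    have hk := kap_ne
    have e1 : ∀ w d, w ∉ Lat.lattice → theta w ≠ 0 → x = d ^ 2 * Th1 w → z = d * Th3 w →
        wp w = kap ^ 2 * x / z ^ 2 := by
      intro w d hw hw0 hx hzz
      have hd : d ≠ 0 := by
        intro hd
        rw [hd, zero_mul] at hzz
        exact hz hzz
      rw [hx, hzz, Th1_of_notMem hw, Th3]
      field_simp
    have e2 : ∀ w d, w ∉ Lat.lattice → theta w ≠ 0 → y = d ^ 3 * Th2 w → z = d * Th3 w →
        wpd w = 2 * kap ^ 3 * y / z ^ 3 := by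
      intro w d hw hw0 hy hzz
      have hd : d ≠ 0 := by
        intro hd
        rw [hd, zero_mul] at hzz
        exact hz hzz
      rw [hy, hzz, Th2_of_notMem hw, Th3]
      field_simp
    apply wp_inj hξ hξ'
    · rw [e1 ξ c hξ ht h1 h3, e1 ξ' c' hξ' ht' h1' h3']
    · rw [e2 ξ c hξ ht h2 h3, e2 ξ' c' hξ' ht' h2' h3']

lemma rep_scalar_unique {c c' ξ x y z : ℂ} (hc : c ≠ 0) (h : Rep c ξ x y z)
    (h' : Rep c' ξ x y z) : c = c' := by
  obtain ⟨h1, h2, h3⟩ := h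
  obtain ⟨h1', h2', h3'⟩ := h'
  by_cases hξ : ξ ∈ Lat.lattice
  · have hT1 := Th1_ne_of_mem hξ
    have hT2 := Th2_ne_of_mem hξ
    have e1 : c ^ 2 = c' ^ 2 := mul_right_cancel₀ hT1 (by rw [← h1, ← h1'])
    have e2 : c ^ 3 = c' ^ 3 := mul_right_cancel₀ hT2 (by rw [← h2, ← h2'])
    have e3 : c ^ 2 * c = c ^ 2 * c' := by
      calc c ^ 2 * c = c ^ 3 := by ring
        _ = c' ^ 3 := e2
        _ = c' ^ 2 * c' := by ring
        _ = c ^ 2 * c' := by rw [e1]
    exact mul_left_cancel₀ (pow_ne_zero 2 hc) e3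
  · have hT : Th3 ξ ≠ 0 := fun h => hξ ((Th3_eq_zero_iff ξ).1 h)
    exact mul_right_cancel₀ hT (by rw [← h3, ← h3'])

lemma Rep.shift {c ξ x y z : ℂ} (h : Rep c ξ x y z) (m n : ℤ) :
    Rep (c * (exp (Xe n ξ))⁻¹) (ξ + (m + n * I)) x y z := by
  obtain ⟨h1, h2, h3⟩ := h
  have hne := exp_ne_zero (Xe n ξ)
  refine ⟨?_, ?_, ?_⟩
  · rw [Th1_add, h1]; field_simp
  · rw [Th2_add, h2]; field_simp
  · rw [Th3_add, h3]; field_simp

lemma Rep.onCone {c ξ x y z : ℂ} (hc : c ≠ 0) (h : Rep c ξ x y z) : OnCone x y z := by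
  obtain ⟨h1, h2, h3⟩ := h
  obtain ⟨he, hne⟩ := onCone_Th ξ
  refine ⟨?_, ?_⟩
  · rw [h1, h2, h3]
    linear_combination c ^ 6 * he
  · rcases hne with h | h
    · exact Or.inl (by rw [h1]; exact mul_ne_zero (pow_ne_zero 2 hc) h)
    · exact Or.inr (by rw [h3]; exact mul_ne_zero hc h)

/-- Uniqueness of the representation modulo the deck group. -/
theorem rep_unique {c c' ξ ξ' x y z : ℂ} (hc : c ≠ 0) (hc' : c' ≠ 0) (h : Rep c ξ x y z)
    (h' : Rep c' ξ' x y z) :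
    ∃ m n : ℤ, ξ' = ξ + (m + n * I) ∧ c = c' * exp (Xe n ξ) := by
  have hl := rel_unique (h.onCone hc) h'.rel h.rel
  obtain ⟨m, n, hmn⟩ := mem_Lat.1 hl
  have hξ : ξ' = ξ + (m + n * I) := by linear_combination hmn
  refine ⟨m, n, hξ, ?_⟩
  have h2 := h.shift m n
  rw [← hξ] at h2
  have h3 := rep_scalar_unique hc' h' h2
  rw [h3, mul_assoc, inv_mul_cancel₀ (exp_ne_zero _), mul_one]

end Pool.Agent.Helper95_Entire
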