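import Mathlib

set_option autoImplicit false

/-!
# Systems of polynomial equations over the ring of entire functions on `ℂⁿ`
-/

noncomputable section

namespace Pool.Agent.Helper95_Entire

/-- Polynomials with integer coefficients in the variables `z_i` (`Sum.inl i`, `i : Fin n`) and in
the unknowns `x_j` (`Sum.inr j`, `j : ℕ`), given as lists of monomials: a monomial is an integer
coefficient together with the list of its variables. -/
abbrev Poly (n : ℕ) : Type := List (ℤ × List (Fin n ⊕ ℕ))

/-- Value of a polynomial at the point `z` when the unknowns take the values `v`. -/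
def evalPoly {n : ℕ} (P : Poly n) (z : Fin n → ℂ) (v : ℕ → ℂ) : ℂ :=
  (P.map fun m => (m.1 : ℂ) * (m.2.map (Sum.elim z v)).prod).sum

/-- The finite system `S` of polynomial equations has a solution in the ring of entire functions
on `ℂⁿ`: there are entire functions `f j` such that every `P` in `S` vanishes identically on `ℂⁿ`
when the unknowns `x_j` are replaced by `f j`. -/
def Solvable (n : ℕ) (S : List (Poly n)) : Prop :=
  ∃ f : ℕ → (Fin n → ℂ) → ℂ, (∀ j, Differentiable ℂ (f j)) ∧
    ∀ P ∈ S, ∀ z, evalPoly P z (fun j => f j z) = 0

end Pool.Agent.Helper95_Entire
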