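import Pool.Agent.Helper95_Entire.Lift

set_option autoImplicit false

/-!
# The degree relation
-/

open Complex Filter Topology Set

noncomputable section

namespace Pool.Agent.Helper95_Entire

variable {T : Type} [TopologicalSpace T]

lemma int_valued_const [PreconnectedSpace T] {f : T → ℝ} (hf : Continuous f)
    (h : ∀ p, ∃ k : ℤ, f p = k) (p q : T) : f p = f q := by
  choose g hg using h
  have hfg : f = fun p => ((g p : ℤ) : ℝ) := funext hg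
  have hgc : Continuous g := by
    rw [Int.isClosedEmbedding_coe_real.isEmbedding.continuous_iff]
    rw [hfg] at hf
    exact hf
  have := PreconnectedSpace.constant ‹_› hgc (x := p) (y := q)
  rw [hg, hg, this]

lemma two_pi_I_const [PreconnectedSpace T] {f : T → ℂ} (hf : Continuous f)
    (h : ∀ p, exp (f p) = 1) (p q : T) : f p = f q := by
  have h2 : (2 * Real.pi * I : ℂ) ≠ 0 := Complex.two_pi_I_ne_zero
  have h1 : ∀ p, ∃ k : ℤ, f p = k * (2 * Real.pi * I) := fun p => Complex.exp_eq_one_iff.1 (h p)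
  have h3 : ∀ p, ∃ k : ℤ, (f p / (2 * Real.pi * I)).re = k := by
    intro p
    obtain ⟨k, hk⟩ := h1 p
    refine ⟨k, ?_⟩
    rw [hk, mul_div_assoc, div_self h2, mul_one, Complex.intCast_re]
  have h4 := int_valued_const (f := fun p => (f p / (2 * Real.pi * I)).re) (by fun_prop) h3 p q
  obtain ⟨k, hk⟩ := h1 p
  obtain ⟨l, hl⟩ := h1 q
  simp only [hk, hl, mul_div_assoc, div_self h2, mul_one, Complex.intCast_re] at h4
  rw [hk, hl]
  have : k = l := by exact_mod_cast h4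
  rw [this]

lemma lat_const [PreconnectedSpace T] {f : T → ℂ} (hf : Continuous f)
    (h : ∀ p, f p ∈ Lat.lattice) (p q : T) : f p = f q := by
  have h1 : ∀ p, ∃ m n : ℤ, f p = m + n * I := fun p => mem_Lat.1 (h p)
  have hre := int_valued_const (f := fun p => (f p).re) (by fun_prop) (fun p => by
    obtain ⟨m, n, h⟩ := h1 p
    exact ⟨m, by rw [h]; simp⟩) p q
  have him := int_valued_const (f := fun p => (f p).im) (by fun_prop) (fun p => by
    obtain ⟨m, n, h⟩ := h1 p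
    exact ⟨n, by rw [h]; simp⟩) p q
  exact Complex.ext hre him

/-- `u : ℝ → ℂ` has degree `d` on `[0, 1]`. -/
def HasDeg (u : ℝ → ℂ) (d : ℤ) : Prop :=
  ∃ η : ℝ → ℂ, Continuous η ∧ (∀ s, exp (η s) = u s) ∧ η 1 - η 0 = 2 * Real.pi * I * d

lemma HasDeg.unique {u : ℝ → ℂ} {d e : ℤ} (h : HasDeg u d) (h' : HasDeg u e) : d = e := by
  obtain ⟨η, hη, h1, h2⟩ := h
  obtain ⟨η', hη', h1', h2'⟩ := h'
  have h3 := two_pi_I_const (f := fun s => η s - η' s) (by fun_prop)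
    (fun s => by rw [exp_sub, h1, h1', div_self (by rw [← h1]; exact exp_ne_zero _)]) 1 0
  have h4 : (2 * Real.pi * I : ℂ) * d = 2 * Real.pi * I * e := by
    linear_combination -h2 + h2' + h3
  have := mul_left_cancel₀ Complex.two_pi_I_ne_zero h4
  exact_mod_cast this

lemma HasDeg.mul {u v : ℝ → ℂ} {d e : ℤ} (h : HasDeg u d) (h' : HasDeg v e) :
    HasDeg (fun s => u s * v s) (d + e) := by
  obtain ⟨η, hη, h1, h2⟩ := h
  obtain ⟨η', hη', h1', h2'⟩ := h'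
  refine ⟨fun s => η s + η' s, by fun_prop, fun s => by rw [exp_add, h1, h1'], ?_⟩
  push_cast
  linear_combination h2 + h2'

lemma hasDeg_ex (d : ℤ) : HasDeg (fun s => ex (d * s)) d := by
  refine ⟨fun s => 2 * Real.pi * I * (d * s), by fun_prop, fun s => rfl, ?_⟩
  push_cast
  ring

lemma hasDeg_one : HasDeg (fun _ => 1) 0 :=
  ⟨fun _ => 0, continuous_const, fun _ => exp_zero, by simp⟩

lemma exists_hasDeg {u : ℝ → ℂ} (hu : Continuous u) (h0 : ∀ s, u s ≠ 0) (h1 : u 1 = u 0) :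
    ∃ d, HasDeg u d := by
  obtain ⟨η, hη, h⟩ := exists_log hu h0 0
  have h2 : exp (η 1) = exp (η 0) := by rw [h, h, h1]
  obtain ⟨k, hk⟩ := Complex.exp_eq_exp_iff_exists_int.1 h2
  exact ⟨k, η, hη, h, by rw [hk]; ring⟩

lemma lift_unique [PreconnectedSpace T] {x y z ξ ζ ξ' ζ' : T → ℂ} (hξ : Continuous ξ)
    (hζ : Continuous ζ) (hξ' : Continuous ξ') (hζ' : Continuous ζ')
    (h : ∀ p, Rep (exp (ζ p)) (ξ p) (x p) (y p) (z p))
    (h' : ∀ p, Rep (exp (ζ' p)) (ξ' p) (x p) (y p) (z p)) (p₀ : T) (e1 : ξ p₀ = ξ' p₀)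
    (e2 : ζ p₀ = ζ' p₀) : ξ = ξ' ∧ ζ = ζ' := by
  have h1 : ∀ p, ξ p = ξ' p := by
    intro p
    have := lat_const (f := fun p => ξ p - ξ' p) (by fun_prop)
      (fun p => rel_unique ((h p).onCone (exp_ne_zero _)) (h p).rel (h' p).rel) p p₀
    simp only [e1, sub_self] at this
    exact sub_eq_zero.1 this
  have h2 : ∀ p, exp (ζ p) = exp (ζ' p) := by
    intro p
    have h3 := h' p
    rw [← h1 p] at h3
    exact rep_scalar_unique (exp_ne_zero _) (h p) h3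
  refine ⟨funext h1, funext fun p => ?_⟩
  have := two_pi_I_const (f := fun p => ζ p - ζ' p) (by fun_prop)
    (fun s => by rw [exp_sub, h2, div_self (exp_ne_zero _)]) p p₀
  simp only [e2, sub_self] at this
  exact sub_eq_zero.1 this

/-- The path `(x, y, z)` starting at `e^{ζ₀} Θ(ξ₀)` has displacement `m + n i`. -/
def Disp (ξ₀ ζ₀ : ℂ) (x y z : ℝ → ℂ) (m n : ℤ) : Prop :=
  ∃ ξ ζ : ℝ → ℂ, Continuous ξ ∧ Continuous ζ ∧
    (∀ s, Rep (exp (ζ s)) (ξ s) (x s) (y s) (z s)) ∧ ξ 0 = ξ₀ ∧ ζ 0 = ζ₀ ∧ ξ 1 = ξ₀ + (m + n * I)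

/-- Paths from the base point to a multiple of the base point have a displacement. -/
lemma exists_disp {ξ₀ ζ₀ c : ℂ} {x y z : ℝ → ℂ} (hx : Continuous x) (hy : Continuous y)
    (hz : Continuous z) (hc : ∀ s, OnCone (x s) (y s) (z s))
    (h0 : Rep (exp ζ₀) ξ₀ (x 0) (y 0) (z 0)) (hc0 : c ≠ 0) (h1 : Rep c ξ₀ (x 1) (y 1) (z 1)) :
    ∃ m n : ℤ, Disp ξ₀ ζ₀ x y z m n := by
  obtain ⟨ξ, ζ, hξ, hζ, e1, e2, hrep⟩ := exists_lift hx hy hz hc 0 ξ₀ ζ₀ h0
  obtain ⟨m, n, hmn, -⟩ := rep_unique hc0 (exp_ne_zero _) h1 (hrep 1)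
  exact ⟨m, n, ξ, ζ, hξ, hζ, hrep, e1, e2, hmn⟩

lemma Disp.unique {ξ₀ ζ₀ : ℂ} {x y z : ℝ → ℂ} {m n m' n' : ℤ} (h : Disp ξ₀ ζ₀ x y z m n)
    (h' : Disp ξ₀ ζ₀ x y z m' n') : m = m' ∧ n = n' := by
  obtain ⟨ξ, ζ, hξ, hζ, hrep, e1, e2, e3⟩ := h
  obtain ⟨ξ', ζ', hξ', hζ', hrep', e1', e2', e3'⟩ := h'
  obtain ⟨h1, -⟩ := lift_unique hξ hζ hξ' hζ' hrep hrep' 0 (by rw [e1, e1']) (by rw [e2, e2'])
  rw [h1, e3'] at e3
  have := add_left_cancel e3
  obtain ⟨h2, h3⟩ := eq_of_int_add_int_mul_I this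
  exact ⟨h2.symm, h3.symm⟩

lemma exp_eq_of_mul {a b c : ℂ} (h : exp a = exp b * exp c) : exp (a - b - c) = 1 := by
  rw [exp_sub, exp_sub, h]
  field_simp

/-- The degree relation. -/
theorem degree_relation {ξ₀ ζ₀ : ℂ} {x y z x' y' z' : ℝ × ℝ → ℂ} (hx : Continuous x)
    (hy : Continuous y) (hz : Continuous z) (hx' : Continuous x') (hy' : Continuous y')
    (hz' : Continuous z') (hc : ∀ p, OnCone (x p) (y p) (z p))
    (hc' : ∀ p, OnCone (x' p) (y' p) (z' p))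
    (hbase : ∀ t, Rep (exp ζ₀) ξ₀ (x' (t, 0)) (y' (t, 0)) (z' (t, 0)))
    (hper : ∀ t, x (t, 1) = x (t, 0) ∧ y (t, 1) = y (t, 0) ∧ z (t, 1) = z (t, 0))
    (hper' : ∀ t, x' (t, 1) = x' (t, 0) ∧ y' (t, 1) = y' (t, 0) ∧ z' (t, 1) = z' (t, 0))
    (h0 : ∀ s, x (0, s) = x' (0, s) ∧ y (0, s) = y' (0, s) ∧ z (0, s) = z' (0, s))
    {u : ℝ → ℂ} (hu : ∀ s, u s ≠ 0)
    (h1 : ∀ s, x (1, s) = u s ^ 2 * x' (1, s) ∧ y (1, s) = u s ^ 3 * y' (1, s) ∧
      z (1, s) = u s * z' (1, s))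
    {ml nl mm nm : ℤ}
    (hl : Disp ξ₀ ζ₀ (fun s => x' (0, s)) (fun s => y' (0, s)) (fun s => z' (0, s)) ml nl)
    (hm : Disp ξ₀ ζ₀ (fun t => x (t, 0)) (fun t => y (t, 0)) (fun t => z (t, 0)) mm nm) :
    HasDeg u (nl * mm - nm * ml) := by
  have hb00 : Rep (exp ζ₀) ξ₀ (x (0, 0)) (y (0, 0)) (z (0, 0)) := by
    rw [(h0 0).1, (h0 0).2.1, (h0 0).2.2]; exact hbase 0
  obtain ⟨ξ, ζ, hξ, hζ, e1, e2, hrep⟩ := exists_lift hx hy hz hc (0, 0) ξ₀ ζ₀ hb00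
  obtain ⟨ξ', ζ', hξ', hζ', e1', e2', hrep'⟩ := exists_lift hx' hy' hz' hc' (0, 0) ξ₀ ζ₀ (hbase 0)
  -- at `t = 0` the lifts agree
  have hT0 : (fun s : ℝ => ξ (0, s)) = (fun s : ℝ => ξ' (0, s)) ∧
      (fun s : ℝ => ζ (0, s)) = (fun s : ℝ => ζ' (0, s)) := by
    refine lift_unique (x := fun s => x (0, s)) (y := fun s => y (0, s)) (z := fun s => z (0, s))
      (by fun_prop) (by fun_prop) (by fun_prop) (by fun_prop) (fun s => hrep (0, s)) ?_ (0 : ℝ)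
      (by rw [e1, e1']) (by rw [e2, e2'])
    intro s
    rw [(h0 s).1, (h0 s).2.1, (h0 s).2.2]
    exact hrep' (0, s)
  have hξ0 : ∀ s, ξ (0, s) = ξ' (0, s) := fun s => congrFun hT0.1 s
  have hζ0 : ∀ s, ζ (0, s) = ζ' (0, s) := fun s => congrFun hT0.2 s
  -- at `s = 0` the lift of `G` is constant
  have hS0 : (fun t : ℝ => ξ' (t, 0)) = (fun t : ℝ => ξ₀) ∧
      (fun t : ℝ => ζ' (t, 0)) = (fun t : ℝ => ζ₀) := by
    exact lift_unique (x := fun t => x' (t, 0)) (y := fun t => y' (t, 0)) (z := fun t => z' (t, 0))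
      (by fun_prop) (by fun_prop) (by fun_prop) (by fun_prop) (fun t => hrep' (t, 0)) hbase (0 : ℝ)
      e1' e2'
  have hξs : ∀ t, ξ' (t, 0) = ξ₀ := fun t => congrFun hS0.1 t
  have hζs : ∀ t, ζ' (t, 0) = ζ₀ := fun t => congrFun hS0.2 t
  -- the period of `G` in `s`
  have hlam0 : ξ' (0, 1) = ξ₀ + (ml + nl * I) := by
    obtain ⟨a, b, ha, hb, hr, f1, f2, f3⟩ := hl
    obtain ⟨g1, -⟩ := lift_unique (ξ := fun s => ξ' (0, s)) (ζ := fun s => ζ' (0, s))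
      (by fun_prop) (by fun_prop) ha hb (fun s => hrep' (0, s)) hr (0 : ℝ)
      (by rw [f1]; exact e1') (by rw [f2]; exact e2')
    have : ξ' (0, 1) = a 1 := congrFun g1 1
    rw [this, f3]
  -- the displacement of `F` in `t`
  have hmu0 : ξ (1, 0) = ξ₀ + (mm + nm * I) := by
    obtain ⟨a, b, ha, hb, hr, f1, f2, f3⟩ := hm
    obtain ⟨g1, -⟩ := lift_unique (ξ := fun t => ξ (t, 0)) (ζ := fun t => ζ (t, 0))
      (by fun_prop) (by fun_prop) ha hb (fun t => hrep (t, 0)) hr (0 : ℝ)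
      (by rw [f1]; exact e1) (by rw [f2]; exact e2)
    have : ξ (1, 0) = a 1 := congrFun g1 1
    rw [this, f3]
  -- periodicity of the lifts
  have hperF : ∀ t, ∃ m n : ℤ, ξ (t, 1) = ξ (t, 0) + (m + n * I) ∧
      exp (ζ (t, 0)) = exp (ζ (t, 1)) * exp (Xe n (ξ (t, 0))) := by
    intro t
    have hr := hrep (t, 1)
    rw [(hper t).1, (hper t).2.1, (hper t).2.2] at hr
    exact rep_unique (exp_ne_zero _) (exp_ne_zero _) (hrep (t, 0)) hr
  have hperG : ∀ t, ∃ m n : ℤ, ξ' (t, 1) = ξ' (t, 0) + (m + n * I) ∧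
      exp (ζ' (t, 0)) = exp (ζ' (t, 1)) * exp (Xe n (ξ' (t, 0))) := by
    intro t
    have hr := hrep' (t, 1)
    rw [(hper' t).1, (hper' t).2.1, (hper' t).2.2] at hr
    exact rep_unique (exp_ne_zero _) (exp_ne_zero _) (hrep' (t, 0)) hr
  have hlamF : ∀ t, ξ (t, 1) - ξ (t, 0) = ml + nl * I := by
    intro t
    have := lat_const (f := fun t : ℝ => ξ (t, 1) - ξ (t, 0)) (by fun_prop) (fun t => by
      obtain ⟨m, n, h, -⟩ := hperF t
      exact mem_Lat.2 ⟨m, n, by simp only [h]; ring⟩) t 0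
    rw [this, hξ0, hξ0, hlam0, hξs]
    ring
  have hlamG : ∀ t, ξ' (t, 1) - ξ' (t, 0) = ml + nl * I := by
    intro t
    have := lat_const (f := fun t : ℝ => ξ' (t, 1) - ξ' (t, 0)) (by fun_prop) (fun t => by
      obtain ⟨m, n, h, -⟩ := hperG t
      exact mem_Lat.2 ⟨m, n, by simp only [h]; ring⟩) t 0
    rw [this, hlam0, hξs]
    ring
  have hXc : ∀ n : ℤ, Continuous (Xe n) := fun n => (differentiable_Xe n).continuous
  -- constancy of the multiplier exponents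
  have hconstF : ζ (1, 0) - ζ (1, 1) - Xe nl (ξ (1, 0)) = ζ (0, 0) - ζ (0, 1) - Xe nl (ξ (0, 0)) := by
    have hX := hXc nl
    refine two_pi_I_const (f := fun t : ℝ => ζ (t, 0) - ζ (t, 1) - Xe nl (ξ (t, 0))) (by fun_prop)
      (fun t => ?_) 1 0
    obtain ⟨m, n, h, h2⟩ := hperF t
    have h3 := hlamF t
    rw [h, add_sub_cancel_left] at h3
    obtain ⟨-, hn⟩ := eq_of_int_add_int_mul_I h3
    rw [hn] at h2
    exact exp_eq_of_mul h2
  have hconstG : ζ' (1, 0) - ζ' (1, 1) - Xe nl (ξ' (1, 0)) =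
      ζ' (0, 0) - ζ' (0, 1) - Xe nl (ξ' (0, 0)) := by
    have hX := hXc nl
    refine two_pi_I_const (f := fun t : ℝ => ζ' (t, 0) - ζ' (t, 1) - Xe nl (ξ' (t, 0)))
      (by fun_prop) (fun t => ?_) 1 0
    obtain ⟨m, n, h, h2⟩ := hperG t
    have h3 := hlamG t
    rw [h, add_sub_cancel_left] at h3
    obtain ⟨-, hn⟩ := eq_of_int_add_int_mul_I h3
    rw [hn] at h2
    exact exp_eq_of_mul h2
  -- at `t = 1`
  have hT1 : ∀ s, ∃ m n : ℤ, ξ (1, s) = ξ' (1, s) + (m + n * I) ∧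
      u s * exp (ζ' (1, s)) = exp (ζ (1, s)) * exp (Xe n (ξ' (1, s))) := by
    intro s
    have hr : Rep (u s * exp (ζ' (1, s))) (ξ' (1, s)) (x (1, s)) (y (1, s)) (z (1, s)) := by
      obtain ⟨a1, a2, a3⟩ := hrep' (1, s)
      refine ⟨?_, ?_, ?_⟩
      · rw [(h1 s).1, a1]; ring
      · rw [(h1 s).2.1, a2]; ring
      · rw [(h1 s).2.2, a3]; ring
    exact rep_unique (mul_ne_zero (hu s) (exp_ne_zero _)) (exp_ne_zero _) hr (hrep (1, s))
  have hmu : ∀ s, ξ (1, s) - ξ' (1, s) = mm + nm * I := by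
    intro s
    have := lat_const (f := fun s : ℝ => ξ (1, s) - ξ' (1, s)) (by fun_prop) (fun s => by
      obtain ⟨m, n, h, -⟩ := hT1 s
      exact mem_Lat.2 ⟨m, n, by simp only [h]; ring⟩) s 0
    rw [this, hmu0, hξs]
    ring
  refine ⟨fun s => ζ (1, s) + Xe nm (ξ' (1, s)) - ζ' (1, s), ?_, fun s => ?_, ?_⟩
  · have hX := hXc nm
    fun_prop
  · obtain ⟨m, n, h, h2⟩ := hT1 s
    have h3 := hmu s
    rw [h, add_sub_cancel_left] at h3
    obtain ⟨-, hn⟩ := eq_of_int_add_int_mul_I h3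
    rw [hn] at h2
    rw [exp_sub, exp_add, ← h2]
    field_simp
  · have hG11 : ξ' (1, 1) = ξ₀ + (ml + nl * I) := by
      have := hlamG 1
      rw [hξs] at this
      linear_combination this
    have hζ00 : ζ (0, 0) = ζ' (0, 0) := hζ0 0
    have hζ01 : ζ (0, 1) = ζ' (0, 1) := hζ0 1
    have hξ00 : ξ (0, 0) = ξ₀ := e1
    simp only [hG11, hξs] at hconstG ⊢
    rw [hmu0, hξ00, hζ00, hζ01] at hconstF
    simp only [Xe] at hconstF hconstG ⊢
    push_cast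
    linear_combination hconstG - hconstF

end Pool.Agent.Helper95_Entire
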