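import Pool.Agent.Helper95_Entire.Complete

set_option autoImplicit false

/-!
# Polynomial equations over `ℤ` as basic relations
-/

noncomputable section

namespace Pool.Agent.Helper95_Entire

lemma BRel.Holds.congr {M : ℕ} {v v' : ℕ → ℤ} {r : BRel} (hb : r.Bdd M)
    (h : ∀ i < M, v' i = v i) (hr : r.Holds v) : r.Holds v' := by
  rcases r with a | ⟨a, b, c⟩ | ⟨a, b, c⟩
  · have ha : a < M := hb
    show v' a = 1
    rw [h a ha]; exact hr
  · obtain ⟨ha, hb, hc⟩ : a < M ∧ b < M ∧ c < M := hb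
    show v' a + v' b = v' c
    rw [h a ha, h b hb, h c hc]; exact hr
  · obtain ⟨ha, hb, hc⟩ : a < M ∧ b < M ∧ c < M := hb
    show v' a * v' b = v' c
    rw [h a ha, h b hb, h c hc]; exact hr

lemma BRel.Bdd.mono {M M' : ℕ} (h : M ≤ M') {r : BRel} (hb : r.Bdd M) : r.Bdd M' := by
  rcases r with a | ⟨a, b, c⟩ | ⟨a, b, c⟩
  · have ha : a < M := hb
    exact lt_of_lt_of_le ha h
  · obtain ⟨ha, hb, hc⟩ : a < M ∧ b < M ∧ c < M := hb
    exact ⟨by omega, by omega, by omega⟩
  · obtain ⟨ha, hb, hc⟩ : a < M ∧ b < M ∧ c < M := hb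
    exact ⟨by omega, by omega, by omega⟩

/-- `f` can be computed by basic relations. -/
def Enc (m : ℕ) (f : (Fin m → ℤ) → ℤ) : Prop :=
  ∀ N, m ≤ N → ∃ (R : List BRel) (N' out : ℕ), N ≤ N' ∧ out < N' ∧ (∀ r ∈ R, r.Bdd N') ∧
    (∀ v : ℕ → ℤ, (∀ r ∈ R, r.Holds v) → v out = f (fun i => v i)) ∧
    (∀ v : ℕ → ℤ, ∃ v' : ℕ → ℤ, (∀ i < N, v' i = v i) ∧ ∀ r ∈ R, r.Holds v')

lemma enc_var (m : ℕ) (i : Fin m) : Enc m (fun x => x i) := by
  intro N hN
  have hi := i.2
  exact ⟨[], N, i, le_rfl, by omega, by simp, fun v _ => rfl, fun v => ⟨v, fun _ _ => rfl, by simp⟩⟩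

lemma enc_one (m : ℕ) : Enc m (fun _ => 1) := by
  intro N hN
  refine ⟨[.one N], N + 1, N, by omega, by omega, ?_, ?_, ?_⟩
  · intro r hr
    rw [List.mem_singleton.1 hr]
    show N < N + 1
    omega
  · intro v h
    exact h _ (List.mem_singleton.2 rfl)
  · intro v
    refine ⟨Function.update v N 1, fun i hi => Function.update_of_ne (by omega) _ _, ?_⟩
    intro r hr
    rw [List.mem_singleton.1 hr]
    show Function.update v N 1 N = 1
    rw [Function.update_self]

lemma enc_zero (m : ℕ) : Enc m (fun _ => 0) := by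
  intro N hN
  refine ⟨[.add N N N], N + 1, N, by omega, by omega, ?_, ?_, ?_⟩
  · intro r hr
    rw [List.mem_singleton.1 hr]
    exact ⟨by omega, by omega, by omega⟩
  · intro v h
    have h1 : v N + v N = v N := h _ (List.mem_singleton.2 rfl)
    show v N = 0
    omega
  · intro v
    refine ⟨Function.update v N 0, fun i hi => Function.update_of_ne (by omega) _ _, ?_⟩
    intro r hr
    rw [List.mem_singleton.1 hr]
    show Function.update v N 0 N + Function.update v N 0 N = Function.update v N 0 N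
    rw [Function.update_self]
    rfl

lemma enc_bin (m : ℕ) {f g h : (Fin m → ℤ) → ℤ} (hf : Enc m f) (hg : Enc m g)
    (rel : ℕ → ℕ → ℕ → BRel) (op : ℤ → ℤ → ℤ)
    (hb : ∀ a b c M, a < M → b < M → c < M → (rel a b c).Bdd M)
    (hrel : ∀ a b c v, (rel a b c).Holds v ↔ v c = op (v a) (v b))
    (hh : ∀ x, h x = op (f x) (g x)) : Enc m h := by
  intro N hN
  obtain ⟨R1, N1, o1, h1, h2, h3, h4, h5⟩ := hf N hN
  obtain ⟨R2, N2, o2, k1, k2, k3, k4, k5⟩ := hg N1 (by omega)
  refine ⟨rel o1 o2 N2 :: (R1 ++ R2), N2 + 1, N2, by omega, by omega, ?_, ?_, ?_⟩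
  · intro r hr
    simp only [List.mem_cons, List.mem_append] at hr
    rcases hr with rfl | hr | hr
    · exact hb _ _ _ _ (by omega) (by omega) (by omega)
    · exact (h3 r hr).mono (by omega)
    · exact (k3 r hr).mono (by omega)
  · intro v hv
    have e1 := h4 v (fun r hr => hv r (by simp [hr]))
    have e2 := k4 v (fun r hr => hv r (by simp [hr]))
    have e3 := (hrel o1 o2 N2 v).1 (hv _ (by simp))
    rw [e3, e1, e2, hh]
  · intro v
    obtain ⟨v1, a1, a2⟩ := h5 v
    obtain ⟨v2, b1, b2⟩ := k5 v1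
    refine ⟨Function.update v2 N2 (op (v2 o1) (v2 o2)), ?_, ?_⟩
    · intro i hi
      rw [Function.update_of_ne (by omega), b1 i (by omega), a1 i hi]
    · intro r hr
      simp only [List.mem_cons, List.mem_append] at hr
      rcases hr with rfl | hr | hr
      · rw [hrel, Function.update_self, Function.update_of_ne (by omega),
          Function.update_of_ne (by omega)]
      · refine (a2 r hr).congr (h3 r hr) (fun i hi => ?_)
        rw [Function.update_of_ne (by omega), b1 i hi]
      · refine (b2 r hr).congr (k3 r hr) (fun i hi => ?_)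
        rw [Function.update_of_ne (by omega)]

lemma enc_add (m : ℕ) {f g : (Fin m → ℤ) → ℤ} (hf : Enc m f) (hg : Enc m g) :
    Enc m (fun x => f x + g x) :=
  enc_bin m hf hg .add (· + ·) (fun _ _ _ _ h1 h2 h3 => ⟨h1, h2, h3⟩)
    (fun _ _ _ _ => by rw [BRel.Holds]; exact eq_comm) (fun _ => rfl)

lemma enc_mul (m : ℕ) {f g : (Fin m → ℤ) → ℤ} (hf : Enc m f) (hg : Enc m g) :
    Enc m (fun x => f x * g x) :=
  enc_bin m hf hg .mul (· * ·) (fun _ _ _ _ h1 h2 h3 => ⟨h1, h2, h3⟩)
    (fun _ _ _ _ => by rw [BRel.Holds]; exact eq_comm) (fun _ => rfl)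

/-- Subtraction: `h + g = f`. -/
lemma enc_sub (m : ℕ) {f g : (Fin m → ℤ) → ℤ} (hf : Enc m f) (hg : Enc m g) :
    Enc m (fun x => f x - g x) :=
  enc_bin m hf hg (fun a b c => .add c b a) (· - ·) (fun _ _ _ _ h1 h2 h3 => ⟨h3, h2, h1⟩)
    (fun a b c v => by rw [BRel.Holds]; exact eq_sub_iff_add_eq.symm) (fun _ => rfl)

lemma enc_int (m : ℕ) (c : ℤ) : Enc m (fun _ => c) := by
  induction c using Int.induction_on with
  | zero => exact enc_zero m
  | succ n ih => exact enc_add m ih (enc_one m)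
  | pred n ih => exact enc_sub m ih (enc_one m)

lemma enc_poly (m : ℕ) (P : MvPolynomial (Fin m) ℤ) : Enc m (fun x => MvPolynomial.eval x P) := by
  induction P using MvPolynomial.induction_on with
  | C a =>
    simp only [MvPolynomial.eval_C]
    exact enc_int m a
  | add p q hp hq =>
    simp only [map_add]
    exact enc_add m hp hq
  | mul_X p i hp =>
    simp only [map_mul, MvPolynomial.eval_X]
    exact enc_mul m hp (enc_var m i)

theorem exists_basic (k : ℕ) (P : MvPolynomial (Fin (k + 1)) ℤ) :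
    ∃ (M : ℕ) (R : List BRel), 0 < M ∧ (∀ r ∈ R, r.Bdd M) ∧ ∀ a : ℤ,
      ((∃ x : Fin k → ℤ, MvPolynomial.eval (Fin.cons a x : Fin (k + 1) → ℤ) P = 0) ↔
        ∃ v : ℕ → ℤ, (∀ r ∈ R, r.Holds v) ∧ v 0 = a) := by
  obtain ⟨R, M, out, h1, h2, h3, h4, h5⟩ := enc_poly (k + 1) P (k + 1) le_rfl
  refine ⟨M, .add out out out :: R, by omega, ?_, ?_⟩
  · intro r hr
    rcases List.mem_cons.1 hr with rfl | hr
    · exact ⟨h2, h2, h2⟩
    · exact h3 r hr
  · intro a
    constructor
    · rintro ⟨x, hx⟩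
      set w : ℕ → ℤ := fun i => if h : i < k + 1 then (Fin.cons a x : Fin (k + 1) → ℤ) ⟨i, h⟩ else 0
        with hw
      obtain ⟨v, hv1, hv2⟩ := h5 w
      have hvx : (fun i : Fin (k + 1) => v i) = (Fin.cons a x : Fin (k + 1) → ℤ) := by
        funext i
        rw [hv1 i i.2, hw]
        simp only [i.2, dif_pos]
      have hout : v out = MvPolynomial.eval (fun i : Fin (k + 1) => v i) P := h4 v hv2
      rw [hvx, hx] at hout
      refine ⟨v, ?_, ?_⟩
      · intro r hr
        rcases List.mem_cons.1 hr with rfl | hr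
        · show v out + v out = v out
          rw [hout]; rfl
        · exact hv2 r hr
      · have := congrFun hvx 0
        simpa using this
    · rintro ⟨v, hv, hv0⟩
      have hout : v out = MvPolynomial.eval (fun i : Fin (k + 1) => v i) P :=
        h4 v (fun r hr => hv r (List.mem_cons_of_mem _ hr))
      have h6 : v out + v out = v out := hv _ List.mem_cons_self
      have h7 : v out = 0 := by omega
      refine ⟨fun i => v (i + 1), ?_⟩
      have hvx : (Fin.cons a (fun i : Fin k => v (i + 1)) : Fin (k + 1) → ℤ) =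
          fun i : Fin (k + 1) => v i := by
        funext i
        refine Fin.cases ?_ (fun j => ?_) i
        · simp [hv0]
        · simp
      rw [hvx, ← h7, hout]

end Pool.Agent.Helper95_Entire
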