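import Mathlib

set_option autoImplicit false

/-!
# Entire functions of two variables: Osgood's lemma and division
-/

open Complex Filter Topology Set

noncomputable section

namespace Pool.Agent.Helper95_Entire

/-- The first partial derivative of a continuous function that is entire in the first variable is
continuous. -/
lemma continuous_deriv_fst {f : ℂ → ℂ → ℂ} (hc : Continuous (Function.uncurry f))
    (h1 : ∀ w, Differentiable ℂ fun t => f t w) :
    Continuous (Function.uncurry fun t w => deriv (fun z => f z w) t) := by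
  have hformula : ∀ t w, deriv (fun z => f z w) t = (2 * Real.pi * I : ℂ)⁻¹ •
      ∫ θ in (0 : ℝ)..2 * Real.pi, deriv (circleMap t 1) θ •
        (((circleMap t 1 θ - t) ^ 2)⁻¹ • f (circleMap t 1 θ) w) := by
    intro t w
    have := two_pi_I_inv_smul_circleIntegral_sub_sq_inv_smul_of_differentiable (U := univ)
      isOpen_univ (c := t) (w₀ := t) (R := 1) (f := fun z => f z w) (subset_univ _)
      (h1 w).differentiableOn (Metric.mem_ball_self one_pos)
    rw [← this, circleIntegral]
  have e : (Function.uncurry fun t w => deriv (fun z => f z w) t) = fun p : ℂ × ℂ =>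
      (2 * Real.pi * I : ℂ)⁻¹ • ∫ θ in (0 : ℝ)..2 * Real.pi, (circleMap 0 1 θ * I) •
        (((circleMap 0 1 θ) ^ 2)⁻¹ • f (p.1 + circleMap 0 1 θ) p.2) := by
    funext p
    obtain ⟨t, w⟩ := p
    rw [Function.uncurry_apply_pair, hformula]
    congr 1
    apply intervalIntegral.integral_congr
    intro θ _
    simp only [deriv_circleMap]
    have h : circleMap t 1 θ = t + circleMap 0 1 θ := by simp [circleMap]
    rw [h, add_sub_cancel_left]
  rw [e]
  suffices hkey : Continuous fun p : ℂ × ℂ => ∫ θ in (0 : ℝ)..2 * Real.pi,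
      (circleMap 0 1 θ * I) • (((circleMap 0 1 θ) ^ 2)⁻¹ • f (p.1 + circleMap 0 1 θ) p.2) from
    (continuous_const (y := (2 * Real.pi * I : ℂ)⁻¹)).smul hkey
  apply intervalIntegral.continuous_parametric_intervalIntegral_of_continuous'
  have hne : ∀ θ : ℝ, circleMap 0 1 θ ≠ 0 := fun θ => by
    simp [circleMap]
  have hcm : Continuous (circleMap 0 1) := continuous_circleMap 0 1
  have h2 : Continuous fun q : (ℂ × ℂ) × ℝ => ((circleMap 0 1 q.2) ^ 2)⁻¹ :=
    ((hcm.comp continuous_snd).pow 2).inv₀ (fun q => pow_ne_zero 2 (hne q.2))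
  have h3 : Continuous fun q : (ℂ × ℂ) × ℝ => f (q.1.1 + circleMap 0 1 q.2) q.1.2 :=
    hc.comp (f := fun q : (ℂ × ℂ) × ℝ => (q.1.1 + circleMap 0 1 q.2, q.1.2)) (by fun_prop)
  show Continuous fun q : (ℂ × ℂ) × ℝ => (circleMap 0 1 q.2 * I) •
        (((circleMap 0 1 q.2) ^ 2)⁻¹ • f (q.1.1 + circleMap 0 1 q.2) q.1.2)
  exact ((hcm.comp continuous_snd).mul continuous_const).smul (h2.smul h3)

/-- Osgood's lemma. -/
theorem osgood {f : ℂ → ℂ → ℂ} (hc : Continuous (Function.uncurry f))
    (h1 : ∀ w, Differentiable ℂ fun t => f t w) (h2 : ∀ t, Differentiable ℂ fun w => f t w) :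
    Differentiable ℂ (Function.uncurry f) := by
  have c1 := continuous_deriv_fst hc h1
  have c2' := continuous_deriv_fst (f := fun w t => f t w)
    (hc.comp (f := fun p : ℂ × ℂ => (p.2, p.1)) (by fun_prop)) h2
  have c2 : Continuous (Function.uncurry fun t w => deriv (fun z => f t z) w) :=
    c2'.comp (f := fun p : ℂ × ℂ => (p.2, p.1)) (by fun_prop)
  intro u
  have := hasStrictFDerivAt_uncurry_coprod (𝕜 := ℂ) (u := u) (f := f)
    (f₁ := fun t w => ContinuousLinearMap.toSpanSingleton ℂ (deriv (fun z => f z w) t))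
    (f₂ := fun t w => ContinuousLinearMap.toSpanSingleton ℂ (deriv (fun z => f t z) w))
    (Eventually.of_forall fun v => (h1 v.2 v.1).hasDerivAt.hasFDerivAt)
    (Eventually.of_forall fun v => (h2 v.1 v.2).hasDerivAt.hasFDerivAt)
    (by
      apply Continuous.continuousAt
      exact (ContinuousLinearMap.toSpanSingletonCLE (𝕜 := ℂ) (E := ℂ)).continuous.comp c1)
    (by
      apply Continuous.continuousAt
      exact (ContinuousLinearMap.toSpanSingletonCLE (𝕜 := ℂ) (E := ℂ)).continuous.comp c2)
  exact this.hasFDerivAt.differentiableAt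

/-- A jointly continuous function whose slices are entire for `t ≠ c` has an entire slice at
`t = c`. -/
lemma slice_differentiable {g : ℂ → ℂ → ℂ} (hc : Continuous (Function.uncurry g)) (c : ℂ)
    (h : ∀ t, t ≠ c → Differentiable ℂ fun w => g t w) : Differentiable ℂ fun w => g c w := by
  let G : C(ℂ × ℂ, ℂ) := ⟨Function.uncurry g, hc⟩
  have h1 : Tendsto (fun t => G.curry t) (𝓝[≠] c) (𝓝 (G.curry c)) :=
    (G.curry.continuous.tendsto c).mono_left nhdsWithin_le_nhds
  rw [ContinuousMap.tendsto_iff_tendstoLocallyUniformly] at h1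
  have h2 := (tendstoLocallyUniformlyOn_univ.2 h1).differentiableOn (U := univ) ?_ isOpen_univ
  · rw [differentiableOn_univ] at h2
    exact h2
  · filter_upwards [self_mem_nhdsWithin] with t ht
    exact (h t ht).differentiableOn

/-- Division by `t - c`. -/
theorem div_fst {f : ℂ → ℂ → ℂ} (hf : Differentiable ℂ (Function.uncurry f)) (c : ℂ)
    (h0 : ∀ w, f c w = 0) :
    ∃ g : ℂ → ℂ → ℂ, Differentiable ℂ (Function.uncurry g) ∧ ∀ t w, f t w = (t - c) * g t w := by
  have h1 : ∀ w, Differentiable ℂ fun t => f t w := fun w =>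
    hf.comp (f := fun t : ℂ => (t, w)) (by fun_prop)
  have h2 : ∀ t, Differentiable ℂ fun w => f t w := fun t =>
    hf.comp (f := fun w : ℂ => (t, w)) (by fun_prop)
  have c1 := continuous_deriv_fst hf.continuous h1
  set g : ℂ → ℂ → ℂ := fun t w => ∫ r in (0 : ℝ)..1, deriv (fun z => f z w) (c + r * (t - c))
    with hg
  have hgc : Continuous (Function.uncurry g) := by
    have e : Function.uncurry g = fun p : ℂ × ℂ => ∫ r in (0 : ℝ)..1,
        deriv (fun z => f z p.2) (c + r * (p.1 - c)) := by
      funext p; rfl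
    rw [e]
    apply intervalIntegral.continuous_parametric_intervalIntegral_of_continuous'
    exact c1.comp (f := fun q : (ℂ × ℂ) × ℝ => (c + q.2 * (q.1.1 - c), q.1.2)) (by fun_prop)
  have hgm : ∀ t w, f t w = (t - c) * g t w := by
    intro t w
    have hd : ∀ r : ℝ, HasDerivAt (fun r : ℝ => f (c + r * (t - c)) w)
        ((t - c) * deriv (fun z => f z w) (c + r * (t - c))) r := by
      intro r
      have e1 : HasDerivAt (fun r : ℝ => c + (r : ℂ) * (t - c)) (t - c) r := by
        have := ((Complex.ofRealCLM.hasDerivAt (x := r)).mul_const (t - c)).const_add c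
        simpa using this
      have e2 := ((h1 w) (c + r * (t - c))).hasDerivAt
      have e3 := e2.comp r e1
      rw [mul_comm]
      exact e3
    have hcont : Continuous fun r : ℝ => (t - c) * deriv (fun z => f z w) (c + r * (t - c)) := by
      refine continuous_const.mul ?_
      exact c1.comp (f := fun r : ℝ => ((c + r * (t - c) : ℂ), w)) (by fun_prop)
    have hint := intervalIntegral.integral_eq_sub_of_hasDerivAt (a := 0) (b := 1)
      (fun r _ => hd r) (hcont.intervalIntegrable 0 1)
    rw [intervalIntegral.integral_const_mul] at hint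
    simp only [Complex.ofReal_one, one_mul, Complex.ofReal_zero, zero_mul, add_zero, h0, sub_zero,
      add_sub_cancel] at hint
    exact hint.symm
  refine ⟨g, ?_, hgm⟩
  apply osgood hgc
  · intro w
    have hds : Differentiable ℂ (dslope (fun z => f z w) c) := by
      rw [← differentiableOn_univ]
      exact (Complex.differentiableOn_dslope univ_mem).2 (h1 w).differentiableOn
    have e : (fun t => g t w) = dslope (fun z => f z w) c := by
      apply Continuous.ext_on (dense_compl_singleton c)
      · exact hgc.comp (f := fun t : ℂ => (t, w)) (by fun_prop)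
      · exact hds.continuous
      · intro t ht
        have h3 : t - c ≠ 0 := sub_ne_zero.2 ht
        apply mul_left_cancel₀ h3
        have h4 := sub_smul_dslope (fun z => f z w) c t
        simp only [smul_eq_mul, h0, sub_zero] at h4
        rw [h4]
        exact (hgm t w).symm
    rw [e]
    exact hds
  · have h5 : ∀ t, t ≠ c → Differentiable ℂ fun w => g t w := by
      intro t ht
      have h3 : t - c ≠ 0 := sub_ne_zero.2 ht
      have e : (fun w => g t w) = fun w => (t - c)⁻¹ * f t w := by
        funext w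
        rw [hgm t w, ← mul_assoc, inv_mul_cancel₀ h3, one_mul]
      rw [e]
      exact (h2 t).const_mul _
    intro t
    by_cases ht : t = c
    · rw [ht]
      exact slice_differentiable hgc c h5
    · exact h5 t ht

/-- Division by `w - c`. -/
theorem div_snd {f : ℂ → ℂ → ℂ} (hf : Differentiable ℂ (Function.uncurry f)) (c : ℂ)
    (h0 : ∀ t, f t c = 0) :
    ∃ g : ℂ → ℂ → ℂ, Differentiable ℂ (Function.uncurry g) ∧ ∀ t w, f t w = (w - c) * g t w := by
  obtain ⟨g, hg, h⟩ := div_fst (f := fun w t => f t w)
    (hf.comp (f := fun p : ℂ × ℂ => (p.2, p.1)) (by fun_prop)) c h0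
  exact ⟨fun t w => g w t, hg.comp (f := fun p : ℂ × ℂ => (p.2, p.1)) (by fun_prop),
    fun t w => h w t⟩

/-- Division by a function of the second variable with simple zeros. -/
theorem div_simple {f : ℂ → ℂ → ℂ} (hf : Differentiable ℂ (Function.uncurry f)) {D : ℂ → ℂ}
    (hD : Differentiable ℂ D) (hD1 : ∀ s, D s = 0 → deriv D s ≠ 0)
    (h0 : ∀ t s, D s = 0 → f t s = 0) :
    ∃ g : ℂ → ℂ → ℂ, Differentiable ℂ (Function.uncurry g) ∧ ∀ t s, f t s = D s * g t s := by
  classical
  set g : ℂ → ℂ → ℂ := fun t s => if D s = 0 then deriv (fun z => f t z) s / deriv D s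
    else f t s / D s with hg
  refine ⟨g, ?_, ?_⟩
  · rintro ⟨t₀, s₀⟩
    by_cases hs : D s₀ = 0
    · obtain ⟨f₁, hf₁, hff⟩ := div_snd hf s₀ (fun t => h0 t s₀ hs)
      have hds : Differentiable ℂ (dslope D s₀) := by
        rw [← differentiableOn_univ]
        exact (Complex.differentiableOn_dslope univ_mem).2 hD.differentiableOn
      have hDs : ∀ s, D s = (s - s₀) * dslope D s₀ s := by
        intro s
        have h := sub_smul_dslope D s₀ s
        rw [smul_eq_mul, hs, sub_zero] at h
        exact h.symm
      have hne0 : dslope D s₀ s₀ ≠ 0 := by rw [dslope_same]; exact hD1 s₀ hs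
      have hev : ∀ᶠ s in 𝓝 s₀, dslope D s₀ s ≠ 0 := hds.continuous.continuousAt.eventually_ne hne0
      have e : Function.uncurry g =ᶠ[𝓝 (t₀, s₀)] fun p => f₁ p.1 p.2 / dslope D s₀ p.2 := by
        have h3 : ∀ᶠ p : ℂ × ℂ in 𝓝 (t₀, s₀), dslope D s₀ p.2 ≠ 0 :=
          (continuous_snd.continuousAt (x := (t₀, s₀))).eventually hev
        filter_upwards [h3] with p hp
        obtain ⟨t, s⟩ := p
        simp only [Function.uncurry_apply_pair] at hp ⊢
        by_cases hss : s = s₀
        · subst hss
          have h4 : HasDerivAt (fun z => f t z) (f₁ t s) s := by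
            have e1 : (fun z => f t z) = fun z => (z - s) * f₁ t z := funext fun z => hff t z
            rw [e1]
            have e2 : HasDerivAt (fun z => f₁ t z) (deriv (fun z => f₁ t z) s) s :=
              ((hf₁.comp (f := fun z : ℂ => (t, z)) (by fun_prop)) s).hasDerivAt
            have e3 := ((hasDerivAt_id' s).sub_const s).mul e2
            simp only [one_mul, sub_self, zero_mul, add_zero] at e3
            exact e3
          simp only [hg]
          rw [if_pos hs, h4.deriv, dslope_same]
        · have h5 : s - s₀ ≠ 0 := sub_ne_zero.2 hss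
          have h6 : D s ≠ 0 := by rw [hDs]; exact mul_ne_zero h5 hp
          simp only [hg]
          rw [if_neg h6, hff, hDs, mul_div_mul_left _ _ h5]
      refine DifferentiableAt.congr_of_eventuallyEq ?_ e
      have e5 : DifferentiableAt ℂ (fun p : ℂ × ℂ => dslope D s₀ p.2) (t₀, s₀) :=
        (hds s₀).comp (f := fun p : ℂ × ℂ => p.2) (t₀, s₀) differentiableAt_snd
      have e6 := (hf₁ (t₀, s₀)).mul (e5.inv hne0)
      exact e6
    · have e : Function.uncurry g =ᶠ[𝓝 (t₀, s₀)] fun p => f p.1 p.2 / D p.2 := by
        have h3 : ∀ᶠ p : ℂ × ℂ in 𝓝 (t₀, s₀), D p.2 ≠ 0 :=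
          (continuous_snd.continuousAt (x := (t₀, s₀))).eventually
            (hD.continuous.continuousAt.eventually_ne hs)
        filter_upwards [h3] with p hp
        exact if_neg hp
      refine DifferentiableAt.congr_of_eventuallyEq ?_ e
      have e5 : DifferentiableAt ℂ (fun p : ℂ × ℂ => D p.2) (t₀, s₀) :=
        (hD s₀).comp (f := fun p : ℂ × ℂ => p.2) (t₀, s₀) differentiableAt_snd
      have e6 := (hf (t₀, s₀)).mul (e5.inv hs)
      exact e6
  · intro t s
    by_cases hs : D s = 0
    · rw [h0 t s hs, hs, zero_mul]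
    · simp only [hg]
      rw [if_neg hs]
      field_simp

end Pool.Agent.Helper95_Entire
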