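import Pool.Agent.Helper95_Entire.Theta
import Pool.Agent.Helper95_Entire.TwoVar

set_option autoImplicit false

/-!
# Periodic functions as pairs

Every entire `f(t, s)` with period `1` in `s` is `A(t, w) + B(t, w) x` with `x = e^{2πis}`,
`w = x + 1/x` and `A, B` entire.
-/

open Complex Filter Topology Set

noncomputable section

namespace Pool.Agent.Helper95_Entire

/-- `w = 2 cos 2πs`. -/
def Wc (s : ℂ) : ℂ := ex s + ex (-s)

@[fun_prop]
lemma differentiable_Wc : Differentiable ℂ Wc := by
  unfold Wc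
  fun_prop

lemma ex_mul_neg (s : ℂ) : ex s * ex (-s) = 1 := by
  rw [ex_neg, mul_inv_cancel₀ (ex_ne s)]

lemma ex_surj {v : ℂ} (hv : v ≠ 0) : ∃ s, ex s = v := by
  refine ⟨log v / (2 * Real.pi * I), ?_⟩
  rw [ex, mul_div_cancel₀ _ Complex.two_pi_I_ne_zero, exp_log hv]

lemma ex_eq_ex_iff (a b : ℂ) : ex a = ex b ↔ ∃ n : ℤ, a = b + n := by
  constructor
  · intro h
    have h1 : ex (a - b) = 1 := by
      rw [sub_eq_add_neg, ex_add, h, ex_mul_neg]
    obtain ⟨n, hn⟩ := (ex_eq_one_iff _).1 h1
    exact ⟨n, by linear_combination hn⟩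
  · rintro ⟨n, rfl⟩
    rw [ex_add, ex_int, mul_one]

lemma Wc_surj (w : ℂ) : ∃ s, Wc s = w := by
  -- solve `v² - w v + 1 = 0`
  obtain ⟨r, hr⟩ := IsAlgClosed.exists_pow_nat_eq (w ^ 2 - 4) (n := 2) (by norm_num)
  set v := (w + r) / 2 with hv
  have hv1 : v * v - w * v + 1 = 0 := by
    rw [hv]; linear_combination hr / 4
  have hv0 : v ≠ 0 := by
    intro h
    rw [h] at hv1
    simp at hv1
  obtain ⟨s, hs⟩ := ex_surj hv0
  refine ⟨s, ?_⟩
  rw [Wc, ex_neg, hs]
  field_simp
  linear_combination hv1

lemma Wc_eq_iff (a b : ℂ) : Wc a = Wc b ↔ (∃ n : ℤ, a = b + n) ∨ (∃ n : ℤ, a = -b + n) := by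
  constructor
  · intro h
    have h1 : (ex a - ex b) * (ex a - ex (-b)) = 0 := by
      have e1 := ex_mul_neg a
      have e2 := ex_mul_neg b
      rw [Wc, Wc] at h
      linear_combination e2 - e1 + ex a * h
    rcases mul_eq_zero.1 h1 with h | h
    · exact Or.inl ((ex_eq_ex_iff _ _).1 (sub_eq_zero.1 h))
    · exact Or.inr ((ex_eq_ex_iff _ _).1 (sub_eq_zero.1 h))
  · rintro (⟨n, rfl⟩ | ⟨n, rfl⟩)
    · rw [Wc, Wc, neg_add, ex_add, ex_add, ex_int, ← Int.cast_neg, ex_int, mul_one, mul_one]
    · rw [Wc, Wc, neg_add, ex_add, ex_add, ex_int, ← Int.cast_neg, ex_int, mul_one, mul_one,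
        neg_neg, add_comm]

/-- `x - 1/x`. -/
def Dc (s : ℂ) : ℂ := ex s - ex (-s)

@[fun_prop]
lemma differentiable_Dc : Differentiable ℂ Dc := by
  unfold Dc
  fun_prop

lemma hasDerivAt_ex_neg (s : ℂ) : HasDerivAt (fun s => ex (-s)) (-(2 * Real.pi * I * ex (-s))) s := by
  have := (hasDerivAt_ex (-s)).comp s (hasDerivAt_neg' s)
  simp only [mul_neg, mul_one] at this
  exact this

lemma hasDerivAt_Wc (s : ℂ) : HasDerivAt Wc (2 * Real.pi * I * Dc s) s := by
  have := (hasDerivAt_ex s).add (hasDerivAt_ex_neg s)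
  exact HasDerivAt.congr_deriv (f := Wc) this (by rw [Dc]; ring)

lemma hasDerivAt_Dc (s : ℂ) : HasDerivAt Dc (2 * Real.pi * I * Wc s) s := by
  have := (hasDerivAt_ex s).sub (hasDerivAt_ex_neg s)
  exact HasDerivAt.congr_deriv (f := Dc) this (by rw [Wc]; ring)

lemma Dc_sq (s : ℂ) : Dc s ^ 2 = Wc s ^ 2 - 4 := by
  have := ex_mul_neg s
  rw [Dc, Wc]
  linear_combination -4 * this

lemma Dc_simple (s : ℂ) (h : Dc s = 0) : deriv Dc s ≠ 0 := by
  rw [(hasDerivAt_Dc s).deriv]
  refine mul_ne_zero Complex.two_pi_I_ne_zero ?_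
  intro hW
  have := Dc_sq s
  rw [h, hW] at this
  norm_num at this

lemma Dc_zero_iff (s : ℂ) : Dc s = 0 ↔ ∃ n : ℤ, s = -s + n := by
  rw [Dc, sub_eq_zero, ex_eq_ex_iff]

lemma isOpenMap_Wc : IsOpenMap Wc := by
  have h : AnalyticOnNhd ℂ Wc univ := fun z _ => differentiable_Wc.analyticAt z
  rcases h.is_constant_or_isOpenMap with ⟨w, hw⟩ | h
  · exfalso
    obtain ⟨s, hs⟩ := Wc_surj (w + 1)
    rw [hw s] at hs
    simp at hs
  · exact h

/-- Descent of even periodic functions. -/
theorem descent {k : ℂ → ℂ → ℂ} (hk : Differentiable ℂ (Function.uncurry k))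
    (hper : ∀ t s, k t (s + 1) = k t s) (heven : ∀ t s, k t (-s) = k t s) :
    ∃ K : ℂ → ℂ → ℂ, Differentiable ℂ (Function.uncurry K) ∧ ∀ t s, k t s = K t (Wc s) := by
  choose σ hσ using Wc_surj
  have hperi : ∀ t s (n : ℤ), k t (s + n) = k t s := by
    intro t s n
    have h : Function.Periodic (k t) 1 := hper t
    have := h.int_mul n s
    simpa using this
  have hW : ∀ t s s', Wc s = Wc s' → k t s = k t s' := by
    intro t s s' h
    rcases (Wc_eq_iff s s').1 h with ⟨n, rfl⟩ | ⟨n, rfl⟩
    · exact hperi t s' n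
    · rw [hperi, heven]
  set K : ℂ → ℂ → ℂ := fun t w => k t (σ w) with hK
  have hKW : ∀ t s, k t s = K t (Wc s) := fun t s => hW t s _ (hσ (Wc s)).symm
  refine ⟨K, ?_, hKW⟩
  have hcont : Continuous (Function.uncurry K) := by
    have hq : IsOpenQuotientMap (Prod.map (id : ℂ → ℂ) Wc) :=
      IsOpenQuotientMap.id.prodMap ⟨Wc_surj, differentiable_Wc.continuous, isOpenMap_Wc⟩
    rw [hq.isQuotientMap.continuous_iff]
    have e : Function.uncurry K ∘ Prod.map (id : ℂ → ℂ) Wc = Function.uncurry k := by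
      funext p
      exact (hKW p.1 p.2).symm
    rw [e]
    exact hk.continuous
  apply osgood hcont
  · intro w
    exact hk.comp (f := fun t : ℂ => (t, σ w)) (by fun_prop)
  · intro t
    have hcw : Continuous fun w => K t w := hcont.comp (f := fun w : ℂ => (t, w)) (by fun_prop)
    have hd : ∀ w, w ^ 2 - 4 ≠ 0 → DifferentiableAt ℂ (fun w => K t w) w := by
      intro w hw
      set a := σ w with ha
      have hwa : Wc a = w := hσ w
      have hstrict : HasStrictDerivAt Wc (2 * Real.pi * I * Dc a) a := by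
        have := (differentiable_Wc.analyticAt a).hasStrictDerivAt
        rwa [(hasDerivAt_Wc a).deriv] at this
      have hne : (2 * Real.pi * I * Dc a : ℂ) ≠ 0 := by
        refine mul_ne_zero Complex.two_pi_I_ne_zero ?_
        intro h
        apply hw
        rw [← hwa, ← Dc_sq, h]
        ring
      have h1 := hstrict.to_localInverse hne
      have h2 := hstrict.eventually_right_inverse hne
      have e : (fun w => K t w) =ᶠ[𝓝 (Wc a)] fun w => k t (hstrict.localInverse Wc _ a hne w) := by
        filter_upwards [h2] with y hy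
        rw [hKW, hy]
      rw [← hwa]
      refine DifferentiableAt.congr_of_eventuallyEq ?_ e
      have h3 : Differentiable ℂ fun s => k t s := hk.comp (f := fun s : ℂ => (t, s)) (by fun_prop)
      exact (h3 _).comp (Wc a) h1.hasDerivAt.differentiableAt
    intro w
    by_cases hw : w ^ 2 - 4 = 0
    · refine (analyticAt_of_differentiable_on_punctured_nhds_of_continuousAt ?_
        hcw.continuousAt).differentiableAt
      have h4 : ∀ᶠ z in 𝓝[≠] w, z ^ 2 - 4 ≠ 0 := by
        have h5 : w ≠ -w := by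
          intro h
          have : w = 0 := by linear_combination h / 2
          rw [this] at hw
          norm_num at hw
        have h6 : ∀ᶠ z in 𝓝 w, z ≠ -w := continuous_id.continuousAt.eventually_ne h5
        filter_upwards [self_mem_nhdsWithin, mem_nhdsWithin_of_mem_nhds h6] with z hz hz2 hz3
        have h7 : (z - w) * (z + w) = 0 := by linear_combination hz3 - hw
        rcases mul_eq_zero.1 h7 with h | h
        · exact hz (sub_eq_zero.1 h)
        · exact hz2 (eq_neg_of_add_eq_zero_left h)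
      filter_upwards [h4] with z hz
      exact hd z hz
    · exact hd w hw

/-- Decomposition of periodic functions. -/
theorem pair_decomp {f : ℂ → ℂ → ℂ} (hf : Differentiable ℂ (Function.uncurry f))
    (hper : ∀ t s, f t (s + 1) = f t s) :
    ∃ A B : ℂ → ℂ → ℂ, Differentiable ℂ (Function.uncurry A) ∧ Differentiable ℂ (Function.uncurry B) ∧
      ∀ t s, f t s = A t (Wc s) + B t (Wc s) * ex s := by
  have hneg : Differentiable ℂ (Function.uncurry fun t s => f t (-s)) :=
    hf.comp (f := fun p : ℂ × ℂ => (p.1, -p.2)) (by fun_prop)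
  have hpern : ∀ t s, f t (-(s + 1)) = f t (-s) := by
    intro t s
    have := hper t (-(s + 1))
    rw [← this]
    congr 1
    ring
  have hperi : ∀ t s (n : ℤ), f t (s + n) = f t s := by
    intro t s n
    have h : Function.Periodic (f t) 1 := hper t
    have := h.int_mul n s
    simpa using this
  obtain ⟨k, hk, hkD⟩ := div_simple (f := fun t s => f t s - f t (-s)) (hf.sub hneg)
    differentiable_Dc Dc_simple (by
      intro t s hs
      obtain ⟨n, hn⟩ := (Dc_zero_iff s).1 hs
      show f t s - f t (-s) = 0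
      conv_lhs => rw [show f t s = f t (-s + n) by rw [← hn]]
      rw [hperi, sub_self])
  -- density of the set where `Dc ≠ 0`
  have hdense : Dense {s : ℂ | Dc s ≠ 0} := by
    have h1 : ({s : ℂ | Dc s ≠ 0}) = (range fun n : ℤ => (n : ℂ) / 2)ᶜ := by
      ext s
      rw [mem_ofPred_eq, mem_compl_iff, mem_range, not_iff_not, Dc_zero_iff]
      constructor
      · rintro ⟨n, hn⟩
        exact ⟨n, by linear_combination -hn / 2⟩
      · rintro ⟨n, hn⟩
        exact ⟨n, by linear_combination -2 * hn⟩
    rw [h1]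
    exact (countable_range _).dense_compl ℂ
  have hDper : ∀ s, Dc (s + 1) = Dc s := by
    intro s
    have e1 : ex (s + 1) = ex s := (ex_eq_ex_iff _ _).2 ⟨1, by simp⟩
    have e2 : ex (-(s + 1)) = ex (-s) := (ex_eq_ex_iff _ _).2 ⟨-1, by push_cast; ring⟩
    rw [Dc, Dc, e1, e2]
  have hDneg : ∀ s, Dc (-s) = -Dc s := by
    intro s
    rw [Dc, Dc, neg_neg]; ring
  have hks : ∀ t, Continuous fun s => k t s := fun t =>
    hk.continuous.comp (f := fun s : ℂ => (t, s)) (by fun_prop)
  have hkper : ∀ t s, k t (s + 1) = k t s := by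
    intro t
    have e : (fun s => k t (s + 1)) = fun s => k t s := by
      apply Continuous.ext_on hdense ((hks t).comp (by fun_prop)) (hks t)
      intro s hs
      have hs' : Dc s ≠ 0 := hs
      apply mul_left_cancel₀ hs'
      show Dc s * k t (s + 1) = Dc s * k t s
      rw [← hkD t s]
      conv_lhs => rw [← hDper, ← hkD]
      rw [hper, hpern]
    exact fun s => congrFun e s
  have hkeven : ∀ t s, k t (-s) = k t s := by
    intro t
    have e : (fun s => k t (-s)) = fun s => k t s := by
      apply Continuous.ext_on hdense ((hks t).comp (by fun_prop)) (hks t)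
      intro s hs
      have hs' : Dc s ≠ 0 := hs
      apply mul_left_cancel₀ hs'
      show Dc s * k t (-s) = Dc s * k t s
      have h1 := hkD t (-s)
      have h2 := hkD t s
      simp only [neg_neg, hDneg] at h1
      linear_combination h1 + h2
    exact fun s => congrFun e s
  obtain ⟨B, hB, hkB⟩ := descent hk hkper hkeven
  obtain ⟨G, hG, hgG⟩ := descent (k := fun t s => f t s + f t (-s)) (hf.add hneg)
    (fun t s => by simp only [hper, hpern]) (fun t s => by simp only [neg_neg]; ring)
  refine ⟨fun t w => (G t w - B t w * w) / 2, B, ?_, hB, ?_⟩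
  · have h1 : Differentiable ℂ fun p : ℂ × ℂ => (Function.uncurry G p - Function.uncurry B p * p.2) / 2 := by
      fun_prop
    exact h1
  · intro t s
    have h1 := hkD t s
    have h2 := hgG t s
    show f t s = (G t (Wc s) - B t (Wc s) * Wc s) / 2 + B t (Wc s) * ex s
    rw [← hkB, ← h2]
    rw [Wc]
    rw [Dc] at h1
    linear_combination h1 / 2

/-- Uniqueness of the decomposition. -/
theorem pair_unique {A B : ℂ → ℂ → ℂ} (hB : Continuous (Function.uncurry B)) (t : ℂ)
    (h : ∀ s, A t (Wc s) + B t (Wc s) * ex s = 0) : (∀ w, A t w = 0) ∧ ∀ w, B t w = 0 := by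
  have hBt : Continuous fun w => B t w := hB.comp (f := fun w : ℂ => (t, w)) (by fun_prop)
  have hB0 : (fun w => B t w) = fun _ => 0 := by
    have hd : Dense ({2, -2} : Set ℂ)ᶜ := (Set.toFinite _).countable.dense_compl ℂ
    apply Continuous.ext_on hd hBt continuous_const
    intro w hw
    obtain ⟨s, rfl⟩ := Wc_surj w
    have h1 := h s
    have h2 := h (-s)
    have h3 : Wc (-s) = Wc s := by rw [Wc, Wc, neg_neg, add_comm]
    rw [h3] at h2
    have h4 : B t (Wc s) * Dc s = 0 := by rw [Dc]; linear_combination h1 - h2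
    rcases mul_eq_zero.1 h4 with h5 | h5
    · exact h5
    · exfalso
      have h6 := Dc_sq s
      rw [h5] at h6
      apply hw
      have h7 : (Wc s - 2) * (Wc s + 2) = 0 := by linear_combination -h6
      rcases mul_eq_zero.1 h7 with h | h
      · left; linear_combination h
      · right
        show Wc s = -2
        linear_combination h
  have hB1 : ∀ w, B t w = 0 := fun w => congrFun hB0 w
  refine ⟨fun w => ?_, hB1⟩
  obtain ⟨s, rfl⟩ := Wc_surj w
  have := h s
  rw [hB1, zero_mul, add_zero] at this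
  exact this

end Pool.Agent.Helper95_Entire
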