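import Pool.Agent.Helper95_Entire.Interp
import Pool.Agent.Helper95_Entire.Pairs

set_option autoImplicit false

/-!
# The ring of functions entire in `(t, s)` and `1`-periodic in `s`; standard solutions
-/

open Complex Filter Topology Set

noncomputable section

namespace Pool.Agent.Helper95_Entire

/-- Entire and `1`-periodic in the second variable. -/
def PP (f : ℂ → ℂ → ℂ) : Prop :=
  Differentiable ℂ (Function.uncurry f) ∧ ∀ t s, f t (s + 1) = f t s

lemma PP.add {f g : ℂ → ℂ → ℂ} (hf : PP f) (hg : PP g) : PP fun t s => f t s + g t s :=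
  ⟨hf.1.add hg.1, fun t s => by simp only [hf.2, hg.2]⟩

lemma PP.sub {f g : ℂ → ℂ → ℂ} (hf : PP f) (hg : PP g) : PP fun t s => f t s - g t s :=
  ⟨hf.1.sub hg.1, fun t s => by simp only [hf.2, hg.2]⟩

lemma PP.mul {f g : ℂ → ℂ → ℂ} (hf : PP f) (hg : PP g) : PP fun t s => f t s * g t s :=
  ⟨hf.1.mul hg.1, fun t s => by simp only [hf.2, hg.2]⟩

lemma PP.pow {f : ℂ → ℂ → ℂ} (hf : PP f) (n : ℕ) : PP fun t s => f t s ^ n :=
  ⟨hf.1.pow n, fun t s => by simp only [hf.2]⟩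

lemma PP.const (c : ℂ) : PP fun _ _ => c := ⟨differentiable_const c, fun _ _ => rfl⟩

lemma PP_ex (d : ℤ) : PP fun _ s => ex (d * s) := by
  refine ⟨differentiable_ex.comp (f := fun p : ℂ × ℂ => (d : ℂ) * p.2) (by fun_prop), ?_⟩
  intro t s
  simp only [mul_add, mul_one, ex_add, ex_int]

/-- Division by a periodic function of `s` with simple zeros. -/
lemma PP.div_simple {f : ℂ → ℂ → ℂ} (hf : PP f) {D : ℂ → ℂ} (hD : Differentiable ℂ D)
    (hDper : ∀ s, D (s + 1) = D s) (hDd : Dense {s | D s ≠ 0})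
    (hD1 : ∀ s, D s = 0 → deriv D s ≠ 0) (h0 : ∀ t s, D s = 0 → f t s = 0) :
    ∃ g, PP g ∧ ∀ t s, f t s = D s * g t s := by
  obtain ⟨g, hg, h⟩ := Helper95_Entire.div_simple hf.1 hD hD1 h0
  refine ⟨g, ⟨hg, fun t => ?_⟩, h⟩
  have hgs : Continuous fun s => g t s := hg.continuous.comp (f := fun s : ℂ => (t, s)) (by fun_prop)
  have e : (fun s => g t (s + 1)) = fun s => g t s := by
    apply Continuous.ext_on hDd (hgs.comp (by fun_prop)) hgs
    intro s hs
    have hs' : D s ≠ 0 := hs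
    apply mul_left_cancel₀ hs'
    show D s * g t (s + 1) = D s * g t s
    rw [← h t s]
    conv_lhs => rw [← hDper, ← h]
    exact hf.2 t s
  exact fun s => congrFun e s

/-- Division by `x - 1`. -/
lemma PP.div_x {f : ℂ → ℂ → ℂ} (hf : PP f) (h0 : ∀ t, f t 0 = 0) :
    ∃ g, PP g ∧ ∀ t s, f t s = (ex s - 1) * g t s := by
  have hz : ∀ s : ℂ, ex s - 1 = 0 ↔ ∃ n : ℤ, s = n := fun s => by
    rw [sub_eq_zero, ex_eq_one_iff]
  apply hf.div_simple (D := fun s => ex s - 1) (by fun_prop)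
  · intro s
    rw [show ex (s + 1) = ex s from (ex_eq_ex_iff _ _).2 ⟨1, by simp⟩]
  · have h1 : ({s : ℂ | ex s - 1 ≠ 0}) = (range fun n : ℤ => (n : ℂ))ᶜ := by
      ext s
      rw [mem_ofPred_eq, mem_compl_iff, mem_range, not_iff_not, hz]
      constructor
      · rintro ⟨n, hn⟩; exact ⟨n, hn.symm⟩
      · rintro ⟨n, hn⟩; exact ⟨n, hn.symm⟩
    rw [h1]
    exact (countable_range _).dense_compl ℂ
  · intro s _
    have := (hasDerivAt_ex s).sub_const 1
    rw [this.deriv]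
    exact mul_ne_zero Complex.two_pi_I_ne_zero (ex_ne s)
  · intro t s hs
    obtain ⟨n, rfl⟩ := (hz s).1 hs
    have h : Function.Periodic (f t) 1 := hf.2 t
    have := h.int_mul n 0
    simp only [zero_add, mul_one] at this
    rw [this, h0]

/-- Division by `t - c`. -/
lemma PP.div_t {f : ℂ → ℂ → ℂ} (hf : PP f) (c : ℂ) (h0 : ∀ s, f c s = 0) :
    ∃ g, PP g ∧ ∀ t s, f t s = (t - c) * g t s := by
  obtain ⟨g, hg, h⟩ := div_fst hf.1 c h0
  refine ⟨g, ⟨hg, fun t s => ?_⟩, h⟩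
  have hgs : ∀ s, Continuous fun t => g t s := fun s =>
    hg.continuous.comp (f := fun t : ℂ => (t, s)) (by fun_prop)
  have e : (fun t => g t (s + 1)) = fun t => g t s := by
    apply Continuous.ext_on (dense_compl_singleton c) (hgs _) (hgs _)
    intro t ht
    have ht' : t - c ≠ 0 := sub_ne_zero.2 ht
    apply mul_left_cancel₀ ht'
    show (t - c) * g t (s + 1) = (t - c) * g t s
    rw [← h, ← h]
    exact hf.2 t s
  exact congrFun e t

/-! ## The base point -/

lemma exists_base : ∃ ξ₀ ζ₀ : ℂ, Rep (exp ζ₀) ξ₀ 0 0 1 := by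
  have hc : OnCone 0 0 1 := ⟨by norm_num, Or.inr one_ne_zero⟩
  obtain ⟨ξ₀, h⟩ := exists_rel hc
  obtain ⟨c, hc0, hrep⟩ := h.rep hc
  exact ⟨ξ₀, log c, by rw [exp_log hc0]; exact hrep⟩

/-- The base point in the torus coordinate. -/
def xi0 : ℂ := exists_base.choose

/-- The base point in the fibre coordinate. -/
def ze0 : ℂ := exists_base.choose_spec.choose

lemma rep_base : Rep (exp ze0) xi0 0 0 1 := exists_base.choose_spec.choose_spec

/-! ## Standard solutions -/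

/-- The torus coordinate of the standard solution. -/
def xis (l m : ℤ × ℤ) (t s : ℂ) : ℂ := (l.1 + l.2 * I) * s + (m.1 + m.2 * I) * t + xi0

/-- The fibre coordinate of the standard solution. -/
def zes (l m : ℤ × ℤ) (t s : ℂ) : ℂ :=
  ze0 - t * Xe m.2 xi0 +
    (s * (-(Real.pi * I * l.2) + 2 * Real.pi * I * l.2 * ((m.1 + m.2 * I) * t + xi0)
      - Real.pi * l.2 * (l.2 - 1)) + 2 * Real.pi * I * l.2 * (l.1 + l.2 * I) * ((s ^ 2 - s) / 2))

/-- First coordinate of the standard solution. -/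
def FX (l m : ℤ × ℤ) (t s : ℂ) : ℂ := exp (zes l m t s) ^ 2 * Th1 (xis l m t s)
/-- Second coordinate of the standard solution. -/
def FY (l m : ℤ × ℤ) (t s : ℂ) : ℂ := exp (zes l m t s) ^ 3 * Th2 (xis l m t s)
/-- Third coordinate of the standard solution. -/
def FZ (l m : ℤ × ℤ) (t s : ℂ) : ℂ := exp (zes l m t s) * Th3 (xis l m t s)

lemma xis_add_one (l m : ℤ × ℤ) (t s : ℂ) :
    xis l m t (s + 1) = xis l m t s + (l.1 + l.2 * I) := by
  simp only [xis]; ring

lemma zes_add_one (l m : ℤ × ℤ) (t s : ℂ) :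
    zes l m t (s + 1) = zes l m t s - Xe l.2 (xis l m t s) := by
  simp only [zes, xis, Xe]; ring

lemma exp_zes_add_one (l m : ℤ × ℤ) (t s : ℂ) :
    exp (zes l m t (s + 1)) = exp (zes l m t s) * (exp (Xe l.2 (xis l m t s)))⁻¹ := by
  rw [zes_add_one, exp_sub, div_eq_mul_inv]

lemma differentiable_zes (l m : ℤ × ℤ) : Differentiable ℂ (Function.uncurry (zes l m)) := by
  have e : Function.uncurry (zes l m) = fun p : ℂ × ℂ => zes l m p.1 p.2 := rfl
  rw [e]
  unfold zes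
  fun_prop

lemma differentiable_xis (l m : ℤ × ℤ) : Differentiable ℂ (Function.uncurry (xis l m)) := by
  have e : Function.uncurry (xis l m) = fun p : ℂ × ℂ => xis l m p.1 p.2 := rfl
  rw [e]
  unfold xis
  fun_prop

lemma PP_FX (l m : ℤ × ℤ) : PP (FX l m) := by
  refine ⟨?_, fun t s => ?_⟩
  · exact ((differentiable_zes l m).cexp.pow 2).mul (differentiable_Th1.comp (differentiable_xis l m))
  · have hne := exp_ne_zero (Xe l.2 (xis l m t s))
    rw [FX, FX, exp_zes_add_one, xis_add_one, Th1_add]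
    field_simp

lemma PP_FY (l m : ℤ × ℤ) : PP (FY l m) := by
  refine ⟨?_, fun t s => ?_⟩
  · exact ((differentiable_zes l m).cexp.pow 3).mul (differentiable_Th2.comp (differentiable_xis l m))
  · have hne := exp_ne_zero (Xe l.2 (xis l m t s))
    rw [FY, FY, exp_zes_add_one, xis_add_one, Th2_add]
    field_simp

lemma PP_FZ (l m : ℤ × ℤ) : PP (FZ l m) := by
  refine ⟨?_, fun t s => ?_⟩
  · exact ((differentiable_zes l m).cexp).mul (differentiable_Th3.comp (differentiable_xis l m))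
  · have hne := exp_ne_zero (Xe l.2 (xis l m t s))
    rw [FZ, FZ, exp_zes_add_one, xis_add_one, Th3_add]
    field_simp

lemma F_curve (l m : ℤ × ℤ) (t s : ℂ) :
    FY l m t s ^ 2 = FX l m t s ^ 3 - FX l m t s * FZ l m t s ^ 4 := by
  rw [FX, FY, FZ]
  linear_combination exp (zes l m t s) ^ 6 * Th_eq (xis l m t s)

lemma F_bezout (l m : ℤ × ℤ) (hB : Bez l.1 l.2) :
    ∃ a c, PP a ∧ PP c ∧ ∀ t s, a t s * FX l m t s + c t s * FZ l m t s = 1 := by
  obtain ⟨a, c, ha, hc, hac, hqa, hqc⟩ := hB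
  refine ⟨fun t s => exp (-(2 * zes l m t s)) * a (xis l m t s),
    fun t s => exp (-(zes l m t s)) * c (xis l m t s), ⟨?_, ?_⟩, ⟨?_, ?_⟩, ?_⟩
  · have h1 : Differentiable ℂ fun p : ℂ × ℂ => exp (-(2 * Function.uncurry (zes l m) p)) :=
      ((differentiable_zes l m).const_mul 2).neg.cexp
    exact h1.mul (ha.comp (differentiable_xis l m))
  · intro t s
    simp only
    rw [xis_add_one, hqa, zes_add_one]
    have e : exp (-(2 * (zes l m t s - Xe l.2 (xis l m t s)))) =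
        exp (-(2 * zes l m t s)) * exp (Xe l.2 (xis l m t s)) ^ 2 := by
      rw [← exp_nat_mul, ← exp_add]
      congr 1
      push_cast; ring
    rw [e]
    have hne := exp_ne_zero (Xe l.2 (xis l m t s))
    field_simp
  · have h1 : Differentiable ℂ fun p : ℂ × ℂ => exp (-(Function.uncurry (zes l m) p)) :=
      (differentiable_zes l m).neg.cexp
    exact h1.mul (hc.comp (differentiable_xis l m))
  · intro t s
    simp only
    rw [xis_add_one, hqc, zes_add_one]
    have e : exp (-(zes l m t s - Xe l.2 (xis l m t s))) =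
        exp (-(zes l m t s)) * exp (Xe l.2 (xis l m t s)) := by
      rw [← exp_add]
      congr 1
      ring
    rw [e]
    have hne := exp_ne_zero (Xe l.2 (xis l m t s))
    field_simp
  · intro t s
    simp only [FX, FZ]
    have e1 : exp (-(2 * zes l m t s)) * exp (zes l m t s) ^ 2 = 1 := by
      rw [← exp_nat_mul, ← exp_add]
      push_cast
      rw [neg_add_cancel, exp_zero]
    have e2 : exp (-(zes l m t s)) * exp (zes l m t s) = 1 := by
      rw [← exp_add, neg_add_cancel, exp_zero]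
    linear_combination hac (xis l m t s) + (a (xis l m t s) * Th1 (xis l m t s)) * e1 +
      (c (xis l m t s) * Th3 (xis l m t s)) * e2

lemma zes_zero_t (l m : ℤ × ℤ) (s : ℂ) : zes l m 0 s = zes l (0, 0) 0 s := by
  simp [zes]

lemma xis_zero_t (l m : ℤ × ℤ) (s : ℂ) : xis l m 0 s = xis l (0, 0) 0 s := by
  simp [xis]

lemma zes_zero_s (l l' m : ℤ × ℤ) (t : ℂ) : zes l m t 0 = zes l' m t 0 := by
  simp [zes]

lemma xis_zero_s (l l' m : ℤ × ℤ) (t : ℂ) : xis l m t 0 = xis l' m t 0 := by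
  simp [xis]

lemma zes_base (l : ℤ × ℤ) (t : ℂ) : zes l (0, 0) t 0 = ze0 := by
  simp [zes, Xe]

lemma xis_base (l : ℤ × ℤ) (t : ℂ) : xis l (0, 0) t 0 = xi0 := by
  simp [xis]

lemma F_zero_t (l m : ℤ × ℤ) (s : ℂ) : FX l m 0 s = FX l (0, 0) 0 s ∧
    FY l m 0 s = FY l (0, 0) 0 s ∧ FZ l m 0 s = FZ l (0, 0) 0 s := by
  simp only [FX, FY, FZ, zes_zero_t l m, xis_zero_t l m, and_self]

lemma F_zero_s (l l' m : ℤ × ℤ) (t : ℂ) : FX l m t 0 = FX l' m t 0 ∧
    FY l m t 0 = FY l' m t 0 ∧ FZ l m t 0 = FZ l' m t 0 := by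
  simp only [FX, FY, FZ, zes_zero_s l l' m, xis_zero_s l l' m, and_self]

lemma F_base (l : ℤ × ℤ) (t : ℂ) : FX l (0, 0) t 0 = 0 ∧ FY l (0, 0) t 0 = 0 ∧
    FZ l (0, 0) t 0 = 1 := by
  obtain ⟨h1, h2, h3⟩ := rep_base
  simp only [FX, FY, FZ, zes_base, xis_base]
  exact ⟨h1.symm, h2.symm, h3.symm⟩

/-- The pairing. -/
def pair (l m : ℤ × ℤ) : ℤ := l.2 * m.1 - m.2 * l.1

lemma xis_one (l m : ℤ × ℤ) (s : ℂ) : xis l m 1 s = xis l (0, 0) 1 s + (m.1 + m.2 * I) := by
  simp [xis]; ring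

lemma exp_zes_one (l m : ℤ × ℤ) (s : ℂ) :
    exp (zes l m 1 s) * exp (Xe m.2 (xis l (0, 0) 1 s)) =
      ex (pair l m * s) * exp (zes l (0, 0) 1 s) := by
  rw [ex, ← exp_add, ← exp_add]
  congr 1
  simp only [zes, xis, Xe, pair]
  push_cast
  ring

lemma F_one (l m : ℤ × ℤ) (s : ℂ) : FX l m 1 s = ex (pair l m * s) ^ 2 * FX l (0, 0) 1 s ∧
    FY l m 1 s = ex (pair l m * s) ^ 3 * FY l (0, 0) 1 s ∧
    FZ l m 1 s = ex (pair l m * s) * FZ l (0, 0) 1 s := by
  have h := exp_zes_one l m s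
  simp only [FX, FY, FZ]
  rw [xis_one, Th1_add, Th2_add, Th3_add]
  refine ⟨?_, ?_, ?_⟩
  · rw [← mul_assoc, ← mul_assoc, ← mul_pow, ← mul_pow, h]
  · rw [← mul_assoc, ← mul_assoc, ← mul_pow, ← mul_pow, h]
  · rw [← mul_assoc, ← mul_assoc, h]

end Pool.Agent.Helper95_Entire
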