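import Pool.Agent.Helper95_Entire.Defs
import Pool.Agent.Helper95_Entire.Standard

set_option autoImplicit false

/-!
# Systems of equations over the periodic ring and over the ring of entire functions
-/

open Complex Filter Topology Set

noncomputable section

namespace Pool.Agent.Helper95_Entire

/-- Negation. -/
def pNeg {n : ℕ} (P : Poly n) : Poly n := P.map fun m => (-m.1, m.2)

/-- Multiplication. -/
def pMul {n : ℕ} (P Q : Poly n) : Poly n :=
  P.flatMap fun m => Q.map fun m' => (m.1 * m'.1, m.2 ++ m'.2)

section eval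

variable {n : ℕ} (z : Fin n → ℂ) (v : ℕ → ℂ)

@[simp] lemma evalPoly_nil : evalPoly ([] : Poly n) z v = 0 := rfl

lemma evalPoly_cons (m : ℤ × List (Fin n ⊕ ℕ)) (P : Poly n) :
    evalPoly (m :: P) z v = (m.1 : ℂ) * (m.2.map (Sum.elim z v)).prod + evalPoly P z v := by
  simp [evalPoly]

lemma evalPoly_append (P Q : Poly n) : evalPoly (P ++ Q) z v = evalPoly P z v + evalPoly Q z v := by
  simp [evalPoly]

lemma evalPoly_neg (P : Poly n) : evalPoly (pNeg P) z v = -evalPoly P z v := by
  induction P with
  | nil => simp [pNeg]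
  | cons m P ih =>
    have : pNeg (m :: P) = (-m.1, m.2) :: pNeg P := rfl
    rw [this, evalPoly_cons, evalPoly_cons, ih]
    push_cast
    ring

lemma evalPoly_mul (P Q : Poly n) : evalPoly (pMul P Q) z v = evalPoly P z v * evalPoly Q z v := by
  induction P with
  | nil => simp [pMul]
  | cons m P ih =>
    have h1 : pMul (m :: P) Q = (Q.map fun m' => (m.1 * m'.1, m.2 ++ m'.2)) ++ pMul P Q := by
      simp [pMul]
    rw [h1, evalPoly_append, ih, evalPoly_cons, add_mul]
    congr 1
    clear h1 ih
    induction Q with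
    | nil => simp
    | cons m' Q ih =>
      rw [List.map_cons, evalPoly_cons, ih, evalPoly_cons]
      simp only [List.map_append, List.prod_append]
      push_cast
      ring

end eval

lemma continuous_evalPoly {n : ℕ} (P : Poly n) {g : ℂ → Fin n → ℂ} {h : ℂ → ℕ → ℂ}
    (hg : ∀ i, Continuous fun w => g w i) (hh : ∀ j, Continuous fun w => h w j) :
    Continuous fun w => evalPoly P (g w) (h w) := by
  have hmon : ∀ l : List (Fin n ⊕ ℕ), Continuous fun w => (l.map (Sum.elim (g w) (h w))).prod := by
    intro l
    induction l with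
    | nil => simpa using continuous_const
    | cons a l ih =>
      simp only [List.map_cons, List.prod_cons]
      refine Continuous.mul ?_ ih
      rcases a with i | j
      · exact hg i
      · exact hh j
  induction P with
  | nil => simpa using continuous_const
  | cons m P ih =>
    simp only [evalPoly_cons]
    exact ((hmon m.2).const_smul (m.1 : ℂ)).add ih

/-- Expressions over the periodic ring. -/
inductive Ex
  | con (c : ℤ)
  | t
  | x
  | unk (k : ℕ)
  | add (a b : Ex)
  | sub (a b : Ex)
  | mul (a b : Ex)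

/-- Value of an expression. -/
def Ex.ev (t s : ℂ) (v : ℕ → ℂ) : Ex → ℂ
  | .con c => c
  | .t => t
  | .x => ex s
  | .unk k => v k
  | .add a b => a.ev t s v + b.ev t s v
  | .sub a b => a.ev t s v - b.ev t s v
  | .mul a b => a.ev t s v * b.ev t s v

/-- The system has a solution in the periodic ring. -/
def SolvP (S : List Ex) : Prop :=
  ∃ F : ℕ → ℂ → ℂ → ℂ, (∀ k, PP (F k)) ∧ ∀ e ∈ S, ∀ t s, e.ev t s (fun k => F k t s) = 0

/-- Compilation to pairs. -/
def Ex.comp {n : ℕ} (i0 i1 : Fin n) : Ex → Poly n × Poly n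
  | .con c => ([(c, [])], [])
  | .t => ([(1, [Sum.inl i0])], [])
  | .x => ([], [(1, [])])
  | .unk k => ([(1, [Sum.inr (2 * k)])], [(1, [Sum.inr (2 * k + 1)])])
  | .add a b => ((a.comp i0 i1).1 ++ (b.comp i0 i1).1, (a.comp i0 i1).2 ++ (b.comp i0 i1).2)
  | .sub a b => ((a.comp i0 i1).1 ++ pNeg (b.comp i0 i1).1, (a.comp i0 i1).2 ++ pNeg (b.comp i0 i1).2)
  | .mul a b => (pMul (a.comp i0 i1).1 (b.comp i0 i1).1 ++
        pNeg (pMul (a.comp i0 i1).2 (b.comp i0 i1).2),
      pMul (a.comp i0 i1).1 (b.comp i0 i1).2 ++ (pMul (a.comp i0 i1).2 (b.comp i0 i1).1 ++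
        pMul [(1, [Sum.inl i1])] (pMul (a.comp i0 i1).2 (b.comp i0 i1).2)))

lemma ex_sq (s : ℂ) : ex s * ex s = Wc s * ex s - 1 := by
  have := ex_mul_neg s
  rw [Wc]; linear_combination -this

lemma Ex.comp_ev {n : ℕ} (i0 i1 : Fin n) (t s : ℂ) (z : Fin n → ℂ) (v v' : ℕ → ℂ)
    (h0 : z i0 = t) (h1 : z i1 = Wc s) (hv : ∀ k, v k = v' (2 * k) + v' (2 * k + 1) * ex s)
    (e : Ex) : e.ev t s v =
      evalPoly (e.comp i0 i1).1 z v' + evalPoly (e.comp i0 i1).2 z v' * ex s := by
  induction e with
  | con c => simp [Ex.ev, Ex.comp, evalPoly]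
  | t => simp [Ex.ev, Ex.comp, evalPoly, h0]
  | x => simp [Ex.ev, Ex.comp, evalPoly]
  | unk k => simp [Ex.ev, Ex.comp, evalPoly, hv]
  | add a b iha ihb =>
    simp only [Ex.ev, Ex.comp, evalPoly_append, iha, ihb]
    ring
  | sub a b iha ihb =>
    simp only [Ex.ev, Ex.comp, evalPoly_append, evalPoly_neg, iha, ihb]
    ring
  | mul a b iha ihb =>
    simp only [Ex.ev, Ex.comp, evalPoly_append, evalPoly_neg, evalPoly_mul, iha, ihb]
    have hw : evalPoly ([(1, [Sum.inl i1])] : Poly n) z v' = Wc s := by simp [evalPoly, h1]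
    rw [hw]
    linear_combination (evalPoly (a.comp i0 i1).2 z v' * evalPoly (b.comp i0 i1).2 z v') * ex_sq s

/-- The low-level system attached to a system over the periodic ring. -/
def compS {n : ℕ} (i0 i1 : Fin n) (S : List Ex) : List (Poly n) :=
  S.flatMap fun e => [(e.comp i0 i1).1, (e.comp i0 i1).2]

lemma pair_unique' {A B : ℂ → ℂ} (hB : Continuous B)
    (h : ∀ s, A (Wc s) + B (Wc s) * ex s = 0) : (∀ w, A w = 0) ∧ ∀ w, B w = 0 :=
  pair_unique (A := fun _ w => A w) (B := fun _ w => B w)
    (hB.comp (f := fun p : ℂ × ℂ => p.2) continuous_snd) 0 h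

theorem solv_iff {n : ℕ} {i0 i1 : Fin n} (hne : i0 ≠ i1) (S : List Ex) :
    SolvP S ↔ Solvable n (compS i0 i1 S) := by
  constructor
  · rintro ⟨F, hF, hS⟩
    choose A B hA hB hAB using fun k => pair_decomp (hF k).1 (hF k).2
    set f : ℕ → (Fin n → ℂ) → ℂ := fun j z =>
      if j % 2 = 0 then A (j / 2) (z i0) (z i1) else B (j / 2) (z i0) (z i1) with hf
    have hf0 : ∀ k z, f (2 * k) z = A k (z i0) (z i1) := by
      intro k z
      simp [hf]
    have hf1 : ∀ k z, f (2 * k + 1) z = B k (z i0) (z i1) := by
      intro k z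
      have h1 : (2 * k + 1) % 2 = 1 := by omega
      have h2 : (2 * k + 1) / 2 = k := by omega
      simp only [hf, h1, h2]
      simp
    have hfd : ∀ j, Differentiable ℂ (f j) := by
      intro j
      have hpr : Differentiable ℂ fun z : Fin n → ℂ => (z i0, z i1) := by fun_prop
      by_cases hj : j % 2 = 0
      · have : f j = fun z => Function.uncurry (A (j / 2)) (z i0, z i1) := by
          funext z; simp [hf, hj]
        rw [this]
        exact (hA _).comp hpr
      · have : f j = fun z => Function.uncurry (B (j / 2)) (z i0, z i1) := by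
          funext z; simp [hf, hj]
        rw [this]
        exact (hB _).comp hpr
    refine ⟨f, hfd, ?_⟩
    intro P hP z
    rw [compS, List.mem_flatMap] at hP
    obtain ⟨e, he, hPe⟩ := hP
    have hkey : ∀ s, evalPoly (e.comp i0 i1).1 (Function.update z i1 (Wc s))
        (fun j => f j (Function.update z i1 (Wc s))) +
        evalPoly (e.comp i0 i1).2 (Function.update z i1 (Wc s))
        (fun j => f j (Function.update z i1 (Wc s))) * ex s = 0 := by
      intro s
      rw [← Ex.comp_ev i0 i1 (z i0) s (Function.update z i1 (Wc s))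
        (fun k => F k (z i0) s)]
      · exact hS e he (z i0) s
      · rw [Function.update_of_ne hne]
      · rw [Function.update_self]
      · intro k
        simp only [hf0, hf1, Function.update_of_ne hne, Function.update_self]
        exact hAB k (z i0) s
    have hcu : ∀ i, Continuous fun w : ℂ => Function.update z i1 w i := by
      intro i
      by_cases hi : i = i1
      · subst hi
        simp only [Function.update_self]
        exact continuous_id
      · simp only [Function.update_of_ne hi]
        exact continuous_const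
    have huniq := pair_unique' (A := fun w => evalPoly (e.comp i0 i1).1 (Function.update z i1 w)
        (fun j => f j (Function.update z i1 w)))
        (B := fun w => evalPoly (e.comp i0 i1).2 (Function.update z i1 w)
        (fun j => f j (Function.update z i1 w)))
        (continuous_evalPoly _ hcu (fun j => (hfd j).continuous.comp (continuous_pi hcu))) hkey
    have h1 := huniq.1 (z i1)
    have h2 := huniq.2 (z i1)
    simp only [Function.update_eq_self] at h1 h2
    simp only [List.mem_cons, List.not_mem_nil, or_false] at hPe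
    rcases hPe with rfl | rfl
    · exact h1
    · exact h2
  · rintro ⟨f, hf, hS⟩
    set zz : ℂ → ℂ → Fin n → ℂ := fun t s i => if i = i0 then t else if i = i1 then Wc s else 0
      with hzz
    have hzz0 : ∀ t s, zz t s i0 = t := fun t s => by simp [hzz]
    have hzz1 : ∀ t s, zz t s i1 = Wc s := fun t s => by simp [hzz, hne.symm]
    have hzd : Differentiable ℂ fun p : ℂ × ℂ => zz p.1 p.2 := by
      rw [differentiable_pi]
      intro i
      simp only [hzz]
      by_cases h1 : i = i0
      · simp only [h1, if_true]; fun_prop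
      · by_cases h2 : i = i1
        · simp only [h2, if_true, hne.symm, if_false]
          exact differentiable_Wc.comp (f := fun p : ℂ × ℂ => p.2) (by fun_prop)
        · simp only [h1, h2, if_false]
          fun_prop
    have hex1 : ∀ s, ex (s + 1) = ex s := fun s => (ex_eq_ex_iff _ _).2 ⟨1, by simp⟩
    have hW1 : ∀ s, Wc (s + 1) = Wc s := fun s => (Wc_eq_iff _ _).2 (Or.inl ⟨1, by simp⟩)
    have hzper : ∀ t s, zz t (s + 1) = zz t s := by
      intro t s
      funext i
      simp only [hzz, hW1]
    refine ⟨fun k t s => f (2 * k) (zz t s) + f (2 * k + 1) (zz t s) * ex s, fun k => ⟨?_, ?_⟩, ?_⟩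
    · have hes : Differentiable ℂ fun p : ℂ × ℂ => ex p.2 :=
        differentiable_ex.comp (f := fun p : ℂ × ℂ => p.2) (by fun_prop)
      exact ((hf _).comp hzd).add (((hf _).comp hzd).mul hes)
    · intro t s
      simp only [hzper, hex1]
    · intro e he t s
      rw [Ex.comp_ev i0 i1 t s (zz t s) _ (fun j => f j (zz t s)) (hzz0 t s) (hzz1 t s)
        (fun k => rfl)]
      have h1 := hS (e.comp i0 i1).1 (by
        rw [compS, List.mem_flatMap]; exact ⟨e, he, by simp⟩) (zz t s)
      have h2 := hS (e.comp i0 i1).2 (by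
        rw [compS, List.mem_flatMap]; exact ⟨e, he, by simp⟩) (zz t s)
      rw [h1, h2]
      ring

end Pool.Agent.Helper95_Entire
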