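import Pool.Agent.Helper95_Entire.Encode
import Pool.Agent.Common_MRDP.MRDP

set_option autoImplicit false

/-!
# Undecidability
-/

noncomputable section

namespace Pool.Agent.Helper95_Entire

lemma compS_append {n : ℕ} (i0 i1 : Fin n) (S T : List Ex) :
    compS i0 i1 (S ++ T) = compS i0 i1 S ++ compS i0 i1 T := by
  simp [compS]

/-- Explicit form of the compiled chain equations. -/
def stepPoly {n : ℕ} (i1 : Fin n) (i : ℕ) : List (Poly n) :=
  [[(1, [Sum.inr (4 * i + 4)]), (1, [Sum.inr (4 * i + 1)])],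
   [(1, [Sum.inr (4 * i + 5)]), (-1, [Sum.inr (4 * i)]), (-1, [Sum.inl i1, Sum.inr (4 * i + 1)])]]

lemma comp_step {n : ℕ} (i0 i1 : Fin n) (i : ℕ) :
    [((Ex.sub (.unk (2 * (i + 1))) (.mul .x (.unk (2 * i)))).comp i0 i1).1,
      ((Ex.sub (.unk (2 * (i + 1))) (.mul .x (.unk (2 * i)))).comp i0 i1).2] = stepPoly i1 i := by
  simp [Ex.comp, pMul, pNeg, stepPoly]
  omega

/-- Explicit form of the compiled end equation. -/
def endPoly {n : ℕ} (c a : ℕ) : List (Poly n) :=
  [[(1, [Sum.inr (2 * c)]), (-1, [Sum.inr (4 * a)])],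
   [(1, [Sum.inr (2 * c + 1)]), (-1, [Sum.inr (4 * a + 1)])]]

lemma comp_end {n : ℕ} (i0 i1 : Fin n) (c a : ℕ) :
    [((Ex.sub (.unk c) (.unk (2 * a))).comp i0 i1).1,
      ((Ex.sub (.unk c) (.unk (2 * a))).comp i0 i1).2] = (endPoly c a : List (Poly n)) := by
  simp [Ex.comp, pNeg, endPoly]
  omega

lemma compS_chain {n : ℕ} (i0 i1 : Fin n) (p a : ℕ) :
    compS i0 i1 (chain p a) = compS i0 i1 [.sub (.unk 0) (.con 1)] ++
      (endPoly (nm 5 (p + 2) 1) a ++ (List.range a).flatMap (stepPoly i1)) := by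
  have h1 : chain p a = [.sub (.unk 0) (.con 1)] ++ ([.sub (.unk (nm 5 (p + 2) 1)) (.unk (2 * a))] ++
      (List.range a).map fun i => .sub (.unk (2 * (i + 1))) (.mul .x (.unk (2 * i)))) := rfl
  rw [h1, compS_append, compS_append]
  congr 1
  congr 1
  · exact comp_end i0 i1 _ _
  · rw [compS, List.flatMap_map]
    congr 1
    funext i
    exact comp_step i0 i1 i

lemma primrec_end {n : ℕ} (c : ℕ) : Primrec fun a => (endPoly c a : List (Poly n)) := by
  have h4 : Primrec fun a : ℕ => 4 * a := Primrec.nat_mul.comp (Primrec.const 4) Primrec.id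
  have h41 : Primrec fun a : ℕ => 4 * a + 1 := Primrec.succ.comp h4
  have hs : ∀ {f : ℕ → ℕ}, Primrec f → Primrec fun a => ((-1, [Sum.inr (f a)]) : ℤ × List (Fin n ⊕ ℕ)) := by
    intro f hf
    exact Primrec.pair (Primrec.const _) (Primrec.list_cons.comp
      (Primrec.sumInr.comp hf) (Primrec.const []))
  unfold endPoly
  exact Primrec.list_cons.comp (Primrec.list_cons.comp (Primrec.const _)
    (Primrec.list_cons.comp (hs h4) (Primrec.const [])))
    (Primrec.list_cons.comp (Primrec.list_cons.comp (Primrec.const _)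
    (Primrec.list_cons.comp (hs h41) (Primrec.const []))) (Primrec.const []))

lemma primrec_step {n : ℕ} (i1 : Fin n) : Primrec (stepPoly i1) := by
  have h4 : Primrec fun a : ℕ => 4 * a := Primrec.nat_mul.comp (Primrec.const 4) Primrec.id
  have h41 : Primrec fun a : ℕ => 4 * a + 1 := Primrec.succ.comp h4
  have h44 : Primrec fun a : ℕ => 4 * a + 4 := Primrec.nat_add.comp h4 (Primrec.const 4)
  have h45 : Primrec fun a : ℕ => 4 * a + 5 := Primrec.nat_add.comp h4 (Primrec.const 5)
  have hs : ∀ (c : ℤ) {f : ℕ → ℕ}, Primrec f →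
      Primrec fun a => ((c, [Sum.inr (f a)]) : ℤ × List (Fin n ⊕ ℕ)) := by
    intro c f hf
    exact Primrec.pair (Primrec.const _) (Primrec.list_cons.comp
      (Primrec.sumInr.comp hf) (Primrec.const []))
  have hs2 : Primrec fun a : ℕ => ((-1, [Sum.inl i1, Sum.inr (4 * a + 1)]) : ℤ × List (Fin n ⊕ ℕ)) :=
    Primrec.pair (Primrec.const _) (Primrec.list_cons.comp (Primrec.const _)
      (Primrec.list_cons.comp (Primrec.sumInr.comp h41) (Primrec.const [])))
  unfold stepPoly
  exact Primrec.list_cons.comp (Primrec.list_cons.comp (hs 1 h44)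
    (Primrec.list_cons.comp (hs 1 h41) (Primrec.const [])))
    (Primrec.list_cons.comp (Primrec.list_cons.comp (hs 1 h45)
      (Primrec.list_cons.comp (hs (-1) h4) (Primrec.list_cons.comp hs2 (Primrec.const []))))
      (Primrec.const []))

lemma primrec_sys {n : ℕ} (i0 i1 : Fin n) (S : List Ex) (p : ℕ) :
    Primrec fun a => compS i0 i1 (S ++ chain p a) := by
  have e : (fun a => compS i0 i1 (S ++ chain p a)) = fun a => compS i0 i1 S ++
      (compS i0 i1 [.sub (.unk 0) (.con 1)] ++
      (endPoly (nm 5 (p + 2) 1) a ++ (List.range a).flatMap (stepPoly i1))) := by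
    funext a
    rw [compS_append, compS_chain]
  rw [e]
  have h1 : Primrec fun a : ℕ => (List.range a).flatMap (stepPoly i1) :=
    Primrec.list_flatMap Primrec.list_range ((primrec_step i1).comp Primrec.snd).to₂
  exact Primrec.list_append.comp (Primrec.const _) (Primrec.list_append.comp (Primrec.const _)
    (Primrec.list_append.comp (primrec_end _) h1))

/-- Abstract form of the reduction. -/
lemma not_computable_of {α β : Type} [Primcodable α] [Primcodable β] {p : α → Prop} {q : β → Prop}
    (hp : ¬ ComputablePred p) (f : α → β) (hf : Computable f) (h : ∀ a, p a ↔ q (f a)) :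
    ¬ ComputablePred q := fun hq =>
  hp (ComputablePred.computable_of_manyOneReducible ⟨f, hf, h⟩ hq)

/-- For every `n ≥ 2`, solvability of a finite system of polynomial equations over `ℤ[z]` in entire
functions on `ℂⁿ` is undecidable. -/
theorem not_computable_solvable (n : ℕ) (hn : 2 ≤ n) :
    ¬ ComputablePred (fun S : List (Poly n) => Solvable n S) := by
  obtain ⟨k, P, hP⟩ := Pool.Agent.MRDP.exists_noncomputable_dioph
  obtain ⟨M, R, hM, hR, hsys⟩ := exists_basic k P
  have h0 : 0 < n := by omega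
  have h1 : 1 < n := by omega
  have hne : (⟨0, h0⟩ : Fin n) ≠ ⟨1, h1⟩ := by
    intro h
    have := congrArg Fin.val h
    simp at this
  generalize (⟨0, h0⟩ : Fin n) = i0 at hne
  generalize (⟨1, h1⟩ : Fin n) = i1 at hne
  refine not_computable_of hP (fun a => compS i0 i1 (sys0 M R ++ chain 0 a))
    (primrec_sys _ _ _ _).to_comp (fun a => ?_)
  have e1 : SolvP (sys0 M R ++ chain 0 a) ↔ Solvable n (compS i0 i1 (sys0 M R ++ chain 0 a)) :=
    solv_iff hne _
  have e2 : (∃ v : ℕ → ℤ, (∀ r ∈ R, r.Holds v) ∧ v 0 = a) ↔ SolvP (sys0 M R ++ chain 0 a) :=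
    ⟨fun ⟨v, hv, h0⟩ => sys_complete hv h0, fun h => sys_sound hR hM h⟩
  exact ((hsys a).trans e2).trans e1

/-- For every `n ≥ 2`, the positive-existential theory of the ring of entire functions on `ℂⁿ`
with constants for the coordinates is undecidable. -/
theorem not_computable_posExists (n : ℕ) (hn : 2 ≤ n) :
    ¬ ComputablePred (fun Φ : List (List (Poly n)) => ∃ S ∈ Φ, Solvable n S) := by
  intro hcomp
  apply not_computable_solvable n hn
  apply ComputablePred.computable_of_manyOneReducible _ hcomp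
  refine ⟨fun S => [S], (Primrec.list_cons.comp Primrec.id (Primrec.const [])).to_comp,
    fun S => ?_⟩
  simp

end Pool.Agent.Helper95_Entire
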