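import Pool.Agent.Helper95_Entire.Cone

set_option autoImplicit false

/-!
# Bezout identities for `Θ₁, Θ₃` with quasi-periodic coefficients
-/

open Complex Filter Topology Set

noncomputable section

namespace Pool.Agent.Helper95_Entire

/-- The terms of the interpolation series. -/
def aterm (n : ℤ) (ξ : ℂ) : ℂ := exp (-(2 * Real.pi * n * (n - 1))) * psi (ξ - n * I)

/-- The interpolation series. -/
def aser (ξ : ℂ) : ℂ := ∑' n : ℤ, aterm n ξ

lemma norm_one_sub_ex {R : ℝ} {ξ : ℂ} (hξ : ‖ξ‖ ≤ R) {n : ℤ} (hn : R + 1 ≤ |(n : ℝ)|) :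
    1 / 2 ≤ ‖1 - ex (ξ - n * I)‖ := by
  have hnorm : ‖ex (ξ - n * I)‖ = Real.exp (2 * Real.pi * (n - ξ.im)) := by
    rw [ex, Complex.norm_exp]
    congr 1
    simp
    ring
  have him : |ξ.im| ≤ R := (Complex.abs_im_le_norm ξ).trans hξ
  have h2 : (2 : ℝ) ≤ Real.exp (2 * Real.pi) := by
    have h1 : (2 : ℝ) ≤ 2 * Real.pi + 1 := by have := Real.pi_gt_three; linarith
    exact h1.trans (Real.add_one_le_exp _)
  have hpi := Real.pi_pos
  rcases le_abs.1 hn with h | h
  · -- `n` large positive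
    have h3 : 1 ≤ (n : ℝ) - ξ.im := by
      have := (abs_le.1 him).2
      linarith
    have h4 : Real.exp (2 * Real.pi) ≤ ‖ex (ξ - n * I)‖ := by
      rw [hnorm]
      apply Real.exp_le_exp.2
      nlinarith
    have h5 : ‖ex (ξ - n * I)‖ - 1 ≤ ‖1 - ex (ξ - n * I)‖ := by
      have := norm_sub_norm_le (ex (ξ - n * I)) 1
      rw [norm_one, norm_sub_rev] at this
      exact this
    linarith
  · have h3 : (n : ℝ) - ξ.im ≤ -1 := by
      have := (abs_le.1 him).1
      linarith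
    have h4 : ‖ex (ξ - n * I)‖ ≤ Real.exp (-(2 * Real.pi)) := by
      rw [hnorm]
      apply Real.exp_le_exp.2
      nlinarith
    have h6 : Real.exp (-(2 * Real.pi)) ≤ 1 / 2 := by
      rw [Real.exp_neg, inv_eq_one_div]
      exact one_div_le_one_div_of_le (by norm_num) h2
    have h5 : 1 - ‖ex (ξ - n * I)‖ ≤ ‖1 - ex (ξ - n * I)‖ := by
      have := norm_sub_norm_le 1 (ex (ξ - n * I))
      rw [norm_one] at this
      exact this
    linarith

lemma norm_aterm_le {R M : ℝ} {ξ : ℂ} (hξ : ‖ξ‖ ≤ R) (hM : ‖theta ξ‖ ≤ M) {n : ℤ}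
    (hn : R + 1 ≤ |(n : ℝ)|) :
    ‖aterm n ξ‖ ≤ 2 * M * (|(n : ℝ)| ^ 0 *
      Real.exp (-Real.pi * (1 * (n : ℝ) ^ 2 - 2 * ((3 + 2 * R) / 2) * |(n : ℝ)|))) := by
  have h1 := norm_one_sub_ex hξ hn
  have h2 : (1 - ex (ξ - n * I)) * psi (ξ - n * I) = exp (Xe (-n) ξ) * theta ξ := by
    rw [← theta_eq]
    have := theta_add ξ 0 (-n)
    rw [← this]
    congr 1
    push_cast
    ring
  have h3 : ‖psi (ξ - n * I)‖ ≤ 2 * (‖exp (Xe (-n) ξ)‖ * ‖theta ξ‖) := by
    have h4 := congrArg norm h2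
    rw [norm_mul, norm_mul] at h4
    have h5 : 1 / 2 * ‖psi (ξ - n * I)‖ ≤ ‖1 - ex (ξ - n * I)‖ * ‖psi (ξ - n * I)‖ :=
      mul_le_mul_of_nonneg_right h1 (norm_nonneg _)
    linarith
  have hpi := Real.pi_pos
  have h6 : ‖exp (-(2 * Real.pi * n * (n - 1)))‖ * ‖exp (Xe (-n) ξ)‖ ≤
      Real.exp (-Real.pi * (1 * (n : ℝ) ^ 2 - 2 * ((3 + 2 * R) / 2) * |(n : ℝ)|)) := by
    rw [Complex.norm_exp, Complex.norm_exp, ← Real.exp_add]
    apply Real.exp_le_exp.2
    have e1 : (-(2 * (Real.pi : ℂ) * n * (n - 1))).re = -(2 * Real.pi * n * (n - 1)) := by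
      have : (-(2 * (Real.pi : ℂ) * n * (n - 1))) = ((-(2 * Real.pi * n * (n - 1)) : ℝ) : ℂ) := by
        push_cast; ring
      rw [this, Complex.ofReal_re]
    have e2 : (Xe (-n) ξ).re = -(2 * Real.pi * n * ξ.im) + Real.pi * n * (n + 1) := by
      simp [Xe]
      ring
    rw [e1, e2]
    have him : |ξ.im| ≤ R := (Complex.abs_im_le_norm ξ).trans hξ
    have h7 : -((n : ℝ) * ξ.im) ≤ |(n : ℝ)| * R := by
      calc -((n : ℝ) * ξ.im) ≤ |(n : ℝ) * ξ.im| := neg_le_abs _
        _ = |(n : ℝ)| * |ξ.im| := abs_mul _ _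
        _ ≤ |(n : ℝ)| * R := mul_le_mul_of_nonneg_left him (abs_nonneg _)
    have h8 : (n : ℝ) ≤ |(n : ℝ)| := le_abs_self _
    nlinarith [mul_le_mul_of_nonneg_left h7 hpi.le, mul_le_mul_of_nonneg_left h8 hpi.le]
  have hM0 : 0 ≤ M := (norm_nonneg _).trans hM
  calc ‖aterm n ξ‖ = ‖exp (-(2 * Real.pi * n * (n - 1)))‖ * ‖psi (ξ - n * I)‖ := by
        rw [aterm, norm_mul]
    _ ≤ ‖exp (-(2 * Real.pi * n * (n - 1)))‖ * (2 * (‖exp (Xe (-n) ξ)‖ * ‖theta ξ‖)) :=
        mul_le_mul_of_nonneg_left h3 (norm_nonneg _)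
    _ = 2 * ‖theta ξ‖ * (‖exp (-(2 * Real.pi * n * (n - 1)))‖ * ‖exp (Xe (-n) ξ)‖) := by ring
    _ ≤ 2 * M * (Real.exp (-Real.pi * (1 * (n : ℝ) ^ 2 - 2 * ((3 + 2 * R) / 2) * |(n : ℝ)|))) := by
        gcongr
    _ = _ := by rw [pow_zero, one_mul (Real.exp _)]

lemma differentiable_aser : Differentiable ℂ aser := by
  have key : ∀ R : ℝ, 0 < R → DifferentiableOn ℂ aser (Metric.ball 0 R) := by
    intro R hR
    obtain ⟨M, hM⟩ := (isCompact_closedBall (0 : ℂ) R).exists_bound_of_continuousOn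
      differentiable_theta.continuous.continuousOn
    have hsum : Summable fun n : ℤ => 2 * M * (|(n : ℝ)| ^ 0 *
        Real.exp (-Real.pi * (1 * (n : ℝ) ^ 2 - 2 * ((3 + 2 * R) / 2) * |(n : ℝ)|))) :=
      (by simpa using (summable_pow_mul_jacobiTheta₂_term_bound ((3 + 2 * R) / 2) one_pos 0) :
        Summable fun n : ℤ => (|(n : ℝ)| ^ 0 *
        Real.exp (-Real.pi * (1 * (n : ℝ) ^ 2 - 2 * ((3 + 2 * R) / 2) * |(n : ℝ)|)))).mul_left _
    have hev : ∀ᶠ n : ℤ in cofinite, ∀ ξ ∈ Metric.ball (0 : ℂ) R, ‖aterm n ξ‖ ≤ 2 * M *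
        (|(n : ℝ)| ^ 0 *
        Real.exp (-Real.pi * (1 * (n : ℝ) ^ 2 - 2 * ((3 + 2 * R) / 2) * |(n : ℝ)|))) := by
      have hfin : {n : ℤ | |(n : ℝ)| < R + 1}.Finite := by
        apply (Set.finite_Icc (-⌈R + 1⌉) ⌈R + 1⌉).subset
        intro n hn
        have hn' : |(n : ℝ)| < R + 1 := hn
        have h1 := abs_lt.1 hn'
        have h2 := Int.le_ceil (R + 1)
        constructor
        · have : (-⌈R + 1⌉ : ℝ) ≤ n := by linarith
          exact_mod_cast this
        · have : (n : ℝ) ≤ ⌈R + 1⌉ := by linarith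
          exact_mod_cast this
      rw [eventually_cofinite]
      apply hfin.subset
      intro n hn
      by_contra hcon
      apply hn
      intro ξ hξ
      have h1 : ‖ξ‖ ≤ R := by
        have : ‖ξ‖ < R := by simpa using hξ
        exact this.le
      exact norm_aterm_le h1 (hM ξ (by simpa using h1)) (not_lt.1 hcon)
    have h := tendstoUniformlyOn_tsum_of_cofinite_eventually hsum hev
    refine h.tendstoLocallyUniformlyOn.differentiableOn (Eventually.of_forall fun s => ?_)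
      Metric.isOpen_ball
    apply DifferentiableOn.fun_sum
    intro n _
    unfold aterm
    have := differentiable_psi
    exact (Differentiable.const_mul (this.comp (by fun_prop)) _).differentiableOn
  intro z
  have := key (‖z‖ + 1) (by positivity) z (by simp)
  exact this.differentiableAt (Metric.isOpen_ball.mem_nhds (by simp))

lemma aser_add_int (ξ : ℂ) (m : ℤ) : aser (ξ + m) = aser ξ := by
  rw [aser, aser]
  congr 1
  funext n
  rw [aterm, aterm, show ξ + m - n * I = (ξ - n * I) + m by ring, psi_add_int]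

lemma psi_I_eq_zero {n : ℤ} (hn : n ≠ 0) : psi (n * I) = 0 := by
  have h1 := theta_eq (n * I)
  have h2 : theta (n * I) = 0 := (theta_eq_zero_iff _).2 (mem_Lat.2 ⟨0, n, by simp⟩)
  rw [h2] at h1
  rcases mul_eq_zero.1 h1.symm with h | h
  · exfalso
    have h3 : ex (n * I) = 1 := by linear_combination -h
    obtain ⟨k, hk⟩ := (ex_eq_one_iff _).1 h3
    have := congrArg Complex.im hk
    simp at this
    exact hn this
  · exact h

lemma aser_lattice (m k : ℤ) :
    aser (m + k * I) = exp (-(2 * Real.pi * k * (k - 1))) * psi 0 := by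
  rw [add_comm, aser_add_int, aser, tsum_eq_single k]
  · rw [aterm, sub_self]
  · intro n hn
    rw [aterm, show (k : ℂ) * I - n * I = ((k - n : ℤ) : ℂ) * I by push_cast; ring,
      psi_I_eq_zero (sub_ne_zero.2 hn.symm), mul_zero]

lemma Th1_lattice (m k : ℤ) :
    Th1 (m + k * I) = exp (2 * Real.pi * k * (k - 1)) * Th1 0 := by
  have := Th1_add 0 m k
  rw [zero_add] at this
  rw [this, ← exp_nat_mul]
  congr 1
  rw [Complex.exp_eq_exp_iff_exists_int]
  refine ⟨k, ?_⟩
  simp only [Xe]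
  push_cast
  ring

/-- The coefficient of `Θ₁` in the first direction. -/
def al1 (ξ : ℂ) : ℂ := (psi 0 * Th1 0)⁻¹ * aser ξ

lemma differentiable_al1 : Differentiable ℂ al1 := differentiable_aser.const_mul _

lemma al1_add_int (ξ : ℂ) (m : ℤ) : al1 (ξ + m) = al1 ξ := by rw [al1, al1, aser_add_int]

lemma Th1_zero_ne : Th1 0 ≠ 0 := Th1_ne_of_mem (Submodule.zero_mem _)

lemma al1_lattice' (m k : ℤ) :
    al1 (m + k * I) = (exp (2 * Real.pi * k * (k - 1)) * Th1 0)⁻¹ := by
  have h1 := psi_zero_ne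
  have h2 := Th1_zero_ne
  rw [al1, aser_lattice, exp_neg]
  field_simp

lemma al1_mul_Th1 {l : ℂ} (hl : l ∈ Lat.lattice) : al1 l * Th1 l = 1 := by
  obtain ⟨m, k, rfl⟩ := mem_Lat.1 hl
  rw [al1_lattice', Th1_lattice]
  exact inv_mul_cancel₀ (mul_ne_zero (exp_ne_zero _) Th1_zero_ne)

/-- The coefficient of `Θ₁` in the second direction. -/
def al2 (ξ : ℂ) : ℂ :=
  exp (2 * Real.pi * ξ ^ 2 - 2 * Real.pi * I * ξ - 2 * Real.pi * ξ) * al1 (I * ξ)

lemma differentiable_al2 : Differentiable ℂ al2 := by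
  unfold al2
  have := differentiable_al1
  have h : Differentiable ℂ fun ξ : ℂ => al1 (I * ξ) := this.comp (by fun_prop)
  fun_prop

lemma al2_mul_Th1 {l : ℂ} (hl : l ∈ Lat.lattice) : al2 l * Th1 l = 1 := by
  obtain ⟨m, k, rfl⟩ := mem_Lat.1 hl
  have h1 : I * (m + k * I) = ((-k : ℤ) : ℂ) + (m : ℤ) * I := by
    push_cast; linear_combination (k : ℂ) * I_mul_I
  have hne := Th1_zero_ne
  rw [al2, h1, al1_lattice', Th1_lattice]
  have h2 : exp (2 * Real.pi * (m + k * I) ^ 2 - 2 * Real.pi * I * (m + k * I) -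
      2 * Real.pi * (m + k * I)) * exp (2 * Real.pi * k * (k - 1)) =
      exp (2 * Real.pi * m * (m - 1)) := by
    rw [← exp_add, Complex.exp_eq_exp_iff_exists_int]
    refine ⟨2 * m * k - m - k, ?_⟩
    push_cast
    linear_combination (2 * (Real.pi : ℂ) * k ^ 2 - 2 * Real.pi * k) * I_mul_I
  have h4 : ∀ A B C T : ℂ, A * (B * T)⁻¹ * (C * T) = (A * C) * T * (B * T)⁻¹ := by
    intro A B C T; ring
  rw [h4, h2]
  exact mul_inv_cancel₀ (mul_ne_zero (exp_ne_zero _) hne)

lemma al2_add_I (ξ : ℂ) : al2 (ξ + I) = (exp (Xe 1 ξ) ^ 2)⁻¹ * al2 ξ := by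
  have h1 : I * (ξ + I) = I * ξ + ((-1 : ℤ) : ℂ) := by
    push_cast; linear_combination I_mul_I
  rw [al2, al2, h1, al1_add_int, ← mul_assoc]
  congr 1
  rw [← exp_nat_mul, ← exp_neg, ← exp_add, Complex.exp_eq_exp_iff_exists_int]
  refine ⟨0, ?_⟩
  simp only [Xe]
  push_cast
  linear_combination (0 : ℂ) * I_mul_I

lemma exists_div_Th3 {f : ℂ → ℂ} (hf : Differentiable ℂ f) (h0 : ∀ l ∈ Lat.lattice, f l = 0) :
    ∃ g : ℂ → ℂ, Differentiable ℂ g ∧ ∀ ξ, f ξ = g ξ * Th3 ξ := by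
  classical
  set g : ℂ → ℂ := fun ξ => if ξ ∈ Lat.lattice then deriv f ξ / (kap * deriv theta ξ)
    else f ξ / Th3 ξ with hg
  refine ⟨g, ?_, ?_⟩
  · intro l
    by_cases hl : l ∈ Lat.lattice
    · have e : g =ᶠ[𝓝 l] fun z => dslope f l z / (kap * dslope theta l z) := by
        have h := punctured_notMem l
        rw [eventually_nhdsWithin_iff] at h
        filter_upwards [h] with z hz
        by_cases hzl : z = l
        · subst hzl
          simp only [hg]
          rw [if_pos hl, dslope_same, dslope_same]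
        · have hz' := hz hzl
          have hfz : f z = (z - l) * dslope f l z := by
            have h := sub_smul_dslope f l z
            rw [smul_eq_mul, h0 l hl, sub_zero] at h
            exact h.symm
          simp only [hg]
          rw [if_neg hz', Th3, theta_dslope hl z, hfz]
          have h2 : z - l ≠ 0 := sub_ne_zero.2 hzl
          rw [show kap * ((z - l) * dslope theta l z) = (z - l) * (kap * dslope theta l z) by ring]
          exact mul_div_mul_left _ _ h2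
      refine DifferentiableAt.congr_of_eventuallyEq ?_ e
      have h1 : Differentiable ℂ (dslope f l) := by
        rw [← differentiableOn_univ]
        exact (Complex.differentiableOn_dslope univ_mem).2 hf.differentiableOn
      have h2 := differentiable_dslope_theta l
      have h3 : kap * dslope theta l l ≠ 0 := by
        rw [dslope_same]
        exact mul_ne_zero kap_ne (deriv_theta_ne hl)
      exact (h1 l).div ((h2 l).const_mul kap) h3
    · have e : g =ᶠ[𝓝 l] fun z => f z / Th3 z := by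
        filter_upwards [isOpen_compl_Lat.mem_nhds hl] with z hz
        exact if_neg hz
      refine DifferentiableAt.congr_of_eventuallyEq ?_ e
      exact (hf l).div (differentiable_Th3 l) (fun h => hl ((Th3_eq_zero_iff l).1 h))
  · intro ξ
    by_cases hξ : ξ ∈ Lat.lattice
    · rw [h0 ξ hξ, (Th3_eq_zero_iff ξ).2 hξ, mul_zero]
    · have h3 : Th3 ξ ≠ 0 := fun h => hξ ((Th3_eq_zero_iff ξ).1 h)
      simp only [hg]
      rw [if_neg hξ, div_mul_cancel₀ _ h3]

/-- Bezout coefficients that are quasi-periodic in the direction `m + n i`. -/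
def Bez (m n : ℤ) : Prop := ∃ a c : ℂ → ℂ, Differentiable ℂ a ∧ Differentiable ℂ c ∧
  (∀ ξ, a ξ * Th1 ξ + c ξ * Th3 ξ = 1) ∧
  (∀ ξ, a (ξ + (m + n * I)) = (exp (Xe n ξ) ^ 2)⁻¹ * a ξ) ∧
  (∀ ξ, c (ξ + (m + n * I)) = (exp (Xe n ξ))⁻¹ * c ξ)

lemma bez_of {a : ℂ → ℂ} (ha : Differentiable ℂ a) (hl : ∀ l ∈ Lat.lattice, a l * Th1 l = 1)
    {m n : ℤ} (hq : ∀ ξ, a (ξ + (m + n * I)) = (exp (Xe n ξ) ^ 2)⁻¹ * a ξ) : Bez m n := by
  have h1 := differentiable_Th1
  obtain ⟨c, hc, hce⟩ := exists_div_Th3 (f := fun ξ => 1 - a ξ * Th1 ξ) (by fun_prop)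
    (fun l hl' => by simp only [hl l hl', sub_self])
  refine ⟨a, c, ha, hc, fun ξ => by linear_combination -hce ξ, hq, ?_⟩
  have h : (fun ξ => c (ξ + (m + n * I))) = fun ξ => (exp (Xe n ξ))⁻¹ * c ξ := by
    apply Continuous.ext_on dense_compl_Lat
    · exact hc.continuous.comp (by fun_prop)
    · have h2 := (differentiable_Xe n).continuous
      have h3 := hc.continuous
      exact ((continuous_exp.comp h2).inv₀ (fun ξ => exp_ne_zero _)).mul h3
    · intro ξ hξ
      have h3 : Th3 ξ ≠ 0 := fun h => hξ ((Th3_eq_zero_iff ξ).1 h)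
      have h4 := exp_ne_zero (Xe n ξ)
      show c (ξ + (m + n * I)) = (exp (Xe n ξ))⁻¹ * c ξ
      have e1 := hce (ξ + (m + n * I))
      have e2 := hce ξ
      simp only [hq, Th1_add, Th3_add] at e1
      have e3 : c (ξ + (m + n * I)) * (exp (Xe n ξ) * Th3 ξ) = c ξ * Th3 ξ := by
        rw [← e1, ← e2]
        field_simp
      apply mul_right_cancel₀ (mul_ne_zero h4 h3)
      rw [e3]
      field_simp
  exact fun ξ => congrFun h ξ

theorem bez_real (m : ℤ) : Bez m 0 := by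
  apply bez_of differentiable_al1 (fun l hl => al1_mul_Th1 hl)
  intro ξ
  rw [exp_Xe_zero, show ξ + ((m : ℂ) + ((0 : ℤ) : ℂ) * I) = ξ + m by simp, al1_add_int]
  simp

theorem bez_I : Bez 0 1 := by
  apply bez_of differentiable_al2 (fun l hl => al2_mul_Th1 hl)
  intro ξ
  rw [show ξ + (((0 : ℤ) : ℂ) + ((1 : ℤ) : ℂ) * I) = ξ + I by simp, al2_add_I]

end Pool.Agent.Helper95_Entire
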