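import Mathlib

set_option autoImplicit false

/-!
# The Weierstrass function of the square lattice

Basic facts on `℘` for `L = ℤ + ℤ i`: second derivative, injectivity of `(℘, ℘')` modulo `L`,
`g₃ = 0`, `g₂ ≠ 0`, surjectivity of `℘`.
-/

open Complex Filter Topology Set

noncomputable section

namespace Pool.Agent.Helper95_Entire

/-- The square lattice. -/
def Lat : PeriodPair where
  ω₁ := 1
  ω₂ := I
  indep := by
    rw [LinearIndependent.pair_iff]
    intro s t h
    have h1 := congrArg Complex.re h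
    have h2 := congrArg Complex.im h
    simp at h1 h2
    exact ⟨h1, h2⟩

lemma mem_Lat {z : ℂ} : z ∈ Lat.lattice ↔ ∃ m n : ℤ, z = m + n * I := by
  rw [PeriodPair.mem_lattice]
  constructor
  · rintro ⟨m, n, h⟩
    exact ⟨m, n, by rw [← h]; simp [Lat]⟩
  · rintro ⟨m, n, h⟩
    exact ⟨m, n, by rw [h]; simp [Lat]⟩

lemma mem_Lat_mk (m n : ℤ) : ((m : ℂ) + n * I) ∈ Lat.lattice := mem_Lat.2 ⟨m, n, rfl⟩

lemma eq_of_int_add_int_mul_I {m n m' n' : ℤ} (h : (m : ℂ) + n * I = m' + n' * I) :
    m = m' ∧ n = n' := by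
  have h1 := congrArg Complex.re h
  have h2 := congrArg Complex.im h
  simp at h1 h2
  exact ⟨h1, h2⟩

/-- `℘` for the square lattice. -/
def wp : ℂ → ℂ := PeriodPair.weierstrassP Lat

/-- `℘'` for the square lattice. -/
def wpd : ℂ → ℂ := PeriodPair.derivWeierstrassP Lat

lemma wp_add {z l : ℂ} (hl : l ∈ Lat.lattice) : wp (z + l) = wp z :=
  Lat.weierstrassP_add_coe z ⟨l, hl⟩

lemma wpd_add {z l : ℂ} (hl : l ∈ Lat.lattice) : wpd (z + l) = wpd z :=
  Lat.derivWeierstrassP_add_coe z ⟨l, hl⟩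

lemma wp_neg (z : ℂ) : wp (-z) = wp z := Lat.weierstrassP_neg z

lemma wpd_neg (z : ℂ) : wpd (-z) = -wpd z := Lat.derivWeierstrassP_neg z

lemma deriv_wp : deriv wp = wpd := Lat.deriv_weierstrassP

lemma analyticAt_wp {z : ℂ} (hz : z ∉ Lat.lattice) : AnalyticAt ℂ wp z :=
  Lat.analyticOnNhd_weierstrassP z hz

lemma analyticAt_wpd {z : ℂ} (hz : z ∉ Lat.lattice) : AnalyticAt ℂ wpd z :=
  Lat.analyticOnNhd_derivWeierstrassP z hz

lemma tendsto_wp {l : ℂ} (hl : l ∈ Lat.lattice) :
    Tendsto wp (𝓝[≠] l) (Bornology.cobounded ℂ) := by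
  apply tendsto_cobounded_of_meromorphicOrderAt_neg
  have := Lat.order_weierstrassP l hl
  rw [wp, this]
  decide

lemma countable_Lat : (Lat.lattice : Set ℂ).Countable := by
  have : Countable Lat.lattice := inferInstance
  exact this

lemma isOpen_compl_Lat : IsOpen ((Lat.lattice : Set ℂ)ᶜ) := Lat.isClosed_lattice.isOpen_compl

lemma isPreconnected_compl_countable {s : Set ℂ} (hs : s.Countable) : IsPreconnected sᶜ :=
  (hs.isConnected_compl_of_one_lt_rank (by rw [rank_real_complex]; norm_num)).isPreconnected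

lemma wpd_sq (z : ℂ) (hz : z ∉ Lat.lattice) :
    wpd z ^ 2 = 4 * wp z ^ 3 - Lat.g₂ * wp z - Lat.g₃ := Lat.derivWeierstrassP_sq z hz

lemma wp_not_const : ¬ ∀ z ∈ (Lat.lattice : Set ℂ)ᶜ, wpd z = 0 := by
  intro h
  -- then `wp` is constant on the complement of the lattice
  have h1 : IsPreconnected ((Lat.lattice : Set ℂ)ᶜ) := isPreconnected_compl_countable countable_Lat
  have h2 : DifferentiableOn ℂ wp ((Lat.lattice : Set ℂ)ᶜ) :=
    fun z hz => (analyticAt_wp hz).differentiableAt.differentiableWithinAt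
  have h3 : ∃ c, ∀ z ∈ (Lat.lattice : Set ℂ)ᶜ, wp z = c := by
    have := isOpen_compl_Lat.exists_is_const_of_deriv_eq_zero h1 h2 (fun z hz => by
      rw [deriv_wp]; exact h z hz)
    exact this
  obtain ⟨c, hc⟩ := h3
  have h4 := tendsto_wp (l := 0) (Submodule.zero_mem _)
  have h5 : ∀ᶠ z in 𝓝[≠] (0 : ℂ), z ∈ (Lat.lattice : Set ℂ)ᶜ := by
    have := Lat.compl_lattice_sdiff_singleton_mem_nhds 0
    filter_upwards [mem_nhdsWithin_of_mem_nhds this, self_mem_nhdsWithin] with z hz hz0 hzL
    exact hz ⟨hzL, hz0⟩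
  have h6 : Tendsto wp (𝓝[≠] (0 : ℂ)) (𝓝 c) := by
    apply Tendsto.congr' _ tendsto_const_nhds
    filter_upwards [h5] with z hz
    exact (hc z hz).symm
  have h7 := h6.norm
  have h8 : Tendsto (fun z => ‖wp z‖) (𝓝[≠] (0 : ℂ)) atTop := tendsto_norm_cobounded_atTop.comp h4
  exact not_tendsto_nhds_of_tendsto_atTop h8 _ h7

/-- `℘'' = 6 ℘² - g₂ / 2`. -/
lemma deriv_wpd {z : ℂ} (hz : z ∉ Lat.lattice) : deriv wpd z = 6 * wp z ^ 2 - Lat.g₂ / 2 := by
  have hU := isOpen_compl_Lat
  have hpre : IsPreconnected ((Lat.lattice : Set ℂ)ᶜ) := isPreconnected_compl_countable countable_Lat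
  have key : ∀ w ∈ (Lat.lattice : Set ℂ)ᶜ,
      wpd w * (2 * deriv wpd w - 12 * wp w ^ 2 + Lat.g₂) = 0 := by
    intro w hw
    have e : (fun w => wpd w ^ 2) =ᶠ[𝓝 w] fun w => 4 * wp w ^ 3 - Lat.g₂ * wp w - Lat.g₃ := by
      filter_upwards [hU.mem_nhds hw] with y hy
      exact wpd_sq y hy
    have e2 := e.deriv_eq
    have hd1 : HasDerivAt wpd (deriv wpd w) w := (analyticAt_wpd hw).differentiableAt.hasDerivAt
    have hd0 : HasDerivAt wp (wpd w) w := by
      have := (analyticAt_wp hw).differentiableAt.hasDerivAt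
      rwa [deriv_wp] at this
    have e3 : deriv (fun w => wpd w ^ 2) w = 2 * wpd w * deriv wpd w := by
      have := (hd1.fun_pow 2).deriv
      simpa using this
    have e4 : deriv (fun w => 4 * wp w ^ 3 - Lat.g₂ * wp w - Lat.g₃) w
        = 4 * (3 * wp w ^ 2 * wpd w) - Lat.g₂ * wpd w := by
      have := (((hd0.pow 3).const_mul 4).sub (hd0.const_mul Lat.g₂)).sub_const Lat.g₃
      simpa using this.deriv
    rw [e3, e4] at e2
    linear_combination e2
  have ha : AnalyticOnNhd ℂ wpd ((Lat.lattice : Set ℂ)ᶜ) := fun w hw => analyticAt_wpd hw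
  have hb : AnalyticOnNhd ℂ (fun w => 2 * deriv wpd w - 12 * wp w ^ 2 + Lat.g₂)
      ((Lat.lattice : Set ℂ)ᶜ) := by
    intro w hw
    have h1 := analyticAt_wp hw
    have h2 := (analyticAt_wpd hw).deriv
    fun_prop
  rcases AnalyticOnNhd.eq_zero_or_eq_zero_of_mul_eq_zero ha hb key hpre with h | h
  · exact absurd h wp_not_const
  · have := h z hz
    linear_combination this / 2

/-- Uniqueness for the differential equation `f'' = 6 f² - c`. -/
lemma ode_unique {f g : ℂ → ℂ} {c : ℂ} (hf : AnalyticAt ℂ f 0) (hg : AnalyticAt ℂ g 0)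
    (hf2 : ∀ᶠ z in 𝓝 (0 : ℂ), deriv (deriv f) z = 6 * f z ^ 2 - c)
    (hg2 : ∀ᶠ z in 𝓝 (0 : ℂ), deriv (deriv g) z = 6 * g z ^ 2 - c)
    (h0 : f 0 = g 0) (h1 : deriv f 0 = deriv g 0) : f =ᶠ[𝓝 0] g := by
  set d : ℂ → ℂ := fun z => f z - g z with hd
  have hda : AnalyticAt ℂ d 0 := hf.sub hg
  have hd0 : d 0 = 0 := by simp [hd, h0]
  have hdd : deriv d =ᶠ[𝓝 0] fun z => deriv f z - deriv g z := by
    filter_upwards [hf.eventually_analyticAt, hg.eventually_analyticAt] with z hz1 hz2
    exact deriv_fun_sub hz1.differentiableAt hz2.differentiableAt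
  have hd1 : deriv d 0 = 0 := by
    rw [hdd.eq_of_nhds, h1, sub_self]
  have hd2 : deriv (deriv d) =ᶠ[𝓝 0] fun z => (6 * (f z + g z)) * d z := by
    have e1 : deriv (deriv d) =ᶠ[𝓝 0] deriv (fun z => deriv f z - deriv g z) := hdd.deriv
    filter_upwards [e1, hf.deriv.eventually_analyticAt, hg.deriv.eventually_analyticAt, hf2, hg2]
      with z hz h3 h4 h5 h6
    rw [hz, deriv_fun_sub h3.differentiableAt h4.differentiableAt, h5, h6, hd]
    ring
  have o1 : analyticOrderAt (deriv d) 0 + 1 = analyticOrderAt d 0 := by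
    have := hda.analyticOrderAt_deriv_add_one
    simpa [hd0] using this
  have o2 : analyticOrderAt (deriv (deriv d)) 0 + 1 = analyticOrderAt (deriv d) 0 := by
    have := hda.deriv.analyticOrderAt_deriv_add_one
    simpa [hd1] using this
  have ha : AnalyticAt ℂ (fun z => 6 * (f z + g z)) 0 := by fun_prop
  have o3 : analyticOrderAt (deriv (deriv d)) 0 =
      analyticOrderAt (fun z => 6 * (f z + g z)) 0 + analyticOrderAt d 0 := by
    rw [analyticOrderAt_congr hd2]
    exact analyticOrderAt_mul ha hda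
  have htop : analyticOrderAt d 0 = ⊤ := by
    by_contra hne
    obtain ⟨n, hn⟩ := ENat.ne_top_iff_exists.1 hne
    rw [← hn] at o1 o3
    have hne2 : analyticOrderAt (deriv (deriv d)) 0 ≠ ⊤ := by
      intro htop
      rw [htop] at o2
      rw [← o2] at o1
      simp at o1
    obtain ⟨m, hm⟩ := ENat.ne_top_iff_exists.1 hne2
    rw [← hm] at o2 o3
    rw [← o2] at o1
    have hle : (n : ℕ∞) ≤ m := by
      rw [o3]; exact le_add_self
    have hle' : n ≤ m := by exact_mod_cast hle
    have : m + 1 + 1 = n := by exact_mod_cast o1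
    omega
  rw [analyticOrderAt_eq_top] at htop
  filter_upwards [htop] with z hz
  exact sub_eq_zero.1 hz

/-- Injectivity of `(℘, ℘')` modulo the lattice. -/
theorem wp_inj {a b : ℂ} (ha : a ∉ Lat.lattice) (hb : b ∉ Lat.lattice) (h0 : wp a = wp b)
    (h1 : wpd a = wpd b) : a - b ∈ Lat.lattice := by
  by_contra hab
  set f : ℂ → ℂ := fun z => wp (a + z) with hf
  set g : ℂ → ℂ := fun z => wp (b + z) with hg
  have hnear : ∀ c : ℂ, c ∉ Lat.lattice → ∀ᶠ z in 𝓝 (0 : ℂ), c + z ∉ Lat.lattice := by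
    intro c hc
    have : ContinuousAt (fun z : ℂ => c + z) 0 := by fun_prop
    exact this.eventually_mem (isOpen_compl_Lat.mem_nhds (by simpa using hc))
  have hder : ∀ c z : ℂ, deriv (fun z => wp (c + z)) z = wpd (c + z) := by
    intro c z
    rw [deriv_comp_const_add, deriv_wp]
  have hder' : ∀ c z : ℂ, deriv (fun z => wpd (c + z)) z = deriv wpd (c + z) := by
    intro c z
    rw [deriv_comp_const_add]
  have hode : ∀ c : ℂ, c ∉ Lat.lattice → ∀ᶠ z in 𝓝 (0 : ℂ),
      deriv (deriv (fun z => wp (c + z))) z = 6 * (wp (c + z)) ^ 2 - Lat.g₂ / 2 := by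
    intro c hc
    filter_upwards [hnear c hc] with z hz
    have : deriv (fun z => wp (c + z)) = fun z => wpd (c + z) := funext (hder c)
    rw [this, hder', deriv_wpd hz]
  have hana : ∀ c z : ℂ, c + z ∉ Lat.lattice → AnalyticAt ℂ (fun z => wp (c + z)) z := by
    intro c z hz
    exact (analyticAt_wp hz).comp (f := fun z => c + z) (by fun_prop)
  have hfg : f =ᶠ[𝓝 0] g := by
    apply ode_unique (hana a 0 (by simpa using ha)) (hana b 0 (by simpa using hb)) (hode a ha)
      (hode b hb)
    · simpa [hf, hg] using h0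
    · rw [hder, hder]; simpa using h1
  -- propagate
  set S : Set ℂ := {z | a + z ∈ Lat.lattice} ∪ {z | b + z ∈ Lat.lattice} with hS
  have hScount : S.Countable := by
    apply Countable.union
    · exact countable_Lat.preimage (add_right_injective a)
    · exact countable_Lat.preimage (add_right_injective b)
  have hSpre : IsPreconnected Sᶜ := isPreconnected_compl_countable hScount
  have hfS : AnalyticOnNhd ℂ f Sᶜ := by
    intro z hz
    exact hana a z (fun h => hz (Or.inl h))
  have hgS : AnalyticOnNhd ℂ g Sᶜ := by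
    intro z hz
    exact hana b z (fun h => hz (Or.inr h))
  have h0S : (0 : ℂ) ∈ Sᶜ := by
    rintro (h | h)
    · exact ha (by simpa using h)
    · exact hb (by simpa using h)
  have heq : EqOn f g Sᶜ := hfS.eqOn_of_preconnected_of_eventuallyEq hgS hSpre h0S hfg
  -- look at the pole `-a` of `f`
  have hgc : ContinuousAt g (-a) := by
    have : b + -a ∉ Lat.lattice := by
      intro h
      apply hab
      have := Submodule.neg_mem _ h
      convert this using 1
      ring
    exact (hana b (-a) this).continuousAt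
  have htf : Tendsto f (𝓝[≠] (-a)) (Bornology.cobounded ℂ) := by
    have h1 : Tendsto (fun z : ℂ => a + z) (𝓝[≠] (-a)) (𝓝[≠] 0) := by
      apply tendsto_nhdsWithin_of_tendsto_nhds_of_eventually_within
      · have : ContinuousAt (fun z : ℂ => a + z) (-a) := by fun_prop
        have h2 := this.tendsto
        simp only [add_neg_cancel] at h2
        exact h2.mono_left nhdsWithin_le_nhds
      · filter_upwards [self_mem_nhdsWithin] with z hz h
        apply hz
        have : a + z = 0 := h
        exact eq_neg_of_add_eq_zero_right this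
    exact (tendsto_wp (Submodule.zero_mem _)).comp h1
  have hpunct : ∀ᶠ z in 𝓝[≠] (-a), z ∈ Sᶜ := by
    have e1 : ∀ᶠ z in 𝓝[≠] (-a), a + z ∉ Lat.lattice := by
      have h1 : Tendsto (fun z : ℂ => a + z) (𝓝[≠] (-a)) (𝓝[≠] 0) := by
        apply tendsto_nhdsWithin_of_tendsto_nhds_of_eventually_within
        · have : ContinuousAt (fun z : ℂ => a + z) (-a) := by fun_prop
          have h2 := this.tendsto
          simp only [add_neg_cancel] at h2
          exact h2.mono_left nhdsWithin_le_nhds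
        · filter_upwards [self_mem_nhdsWithin] with z hz h
          apply hz
          have : a + z = 0 := h
          exact eq_neg_of_add_eq_zero_right this
      have h5 : ∀ᶠ z in 𝓝[≠] (0 : ℂ), z ∉ Lat.lattice := by
        have := Lat.compl_lattice_sdiff_singleton_mem_nhds 0
        filter_upwards [mem_nhdsWithin_of_mem_nhds this, self_mem_nhdsWithin] with z hz hz0 hzL
        exact hz ⟨hzL, hz0⟩
      exact h1.eventually h5
    have e2 : ∀ᶠ z in 𝓝 (-a), b + z ∉ Lat.lattice := by
      have : ContinuousAt (fun z : ℂ => b + z) (-a) := by fun_prop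
      apply this.eventually_mem (isOpen_compl_Lat.mem_nhds _)
      intro h
      apply hab
      have := Submodule.neg_mem _ h
      convert this using 1
      ring
    filter_upwards [e1, mem_nhdsWithin_of_mem_nhds e2] with z h1 h2 h
    rcases h with h | h
    · exact h1 h
    · exact h2 h
  have htf' : Tendsto f (𝓝[≠] (-a)) (𝓝 (g (-a))) := by
    apply Tendsto.congr' _ (hgc.tendsto.mono_left nhdsWithin_le_nhds)
    filter_upwards [hpunct] with z hz
    exact (heq hz).symm
  have h8 : Tendsto (fun z => ‖f z‖) (𝓝[≠] (-a)) atTop := tendsto_norm_cobounded_atTop.comp htf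
  exact not_tendsto_nhds_of_tendsto_atTop h8 _ htf'.norm

/-- Multiplication by `i` on the square lattice. -/
def mulI : Lat.lattice ≃ Lat.lattice where
  toFun l := ⟨I * l.1, by
    obtain ⟨m, n, h⟩ := mem_Lat.1 l.2
    refine mem_Lat.2 ⟨-n, m, ?_⟩
    rw [h]
    push_cast
    linear_combination (n : ℂ) * I_mul_I⟩
  invFun l := ⟨-I * l.1, by
    obtain ⟨m, n, h⟩ := mem_Lat.1 l.2
    refine mem_Lat.2 ⟨n, -m, ?_⟩
    rw [h]
    push_cast
    linear_combination -(n : ℂ) * I_mul_I⟩
  left_inv l := by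
    apply Subtype.ext
    show -I * (I * l.1) = l.1
    linear_combination -l.1 * I_mul_I
  right_inv l := by
    apply Subtype.ext
    show I * (-I * l.1) = l.1
    linear_combination -l.1 * I_mul_I

lemma g₃_eq : Lat.g₃ = 0 := by
  have h : Lat.G 6 = -Lat.G 6 := by
    have h1 : Lat.G 6 = ∑' l : Lat.lattice, (((mulI l : Lat.lattice) : ℂ) ^ 6)⁻¹ := by
      rw [PeriodPair.G]
      exact (mulI.tsum_eq (fun l : Lat.lattice => ((l : ℂ) ^ 6)⁻¹)).symm
    conv_lhs => rw [h1]
    rw [PeriodPair.G, ← tsum_neg]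
    congr 1
    funext l
    have : ((mulI l : Lat.lattice) : ℂ) = I * l := rfl
    rw [this, mul_pow]
    have hI : I ^ 6 = -1 := by
      have : I ^ 6 = (I ^ 2) ^ 3 := by ring
      rw [this, I_sq]; norm_num
    rw [hI, neg_one_mul, inv_neg]
  have h2 : Lat.G 6 = 0 := by linear_combination h / 2
  rw [PeriodPair.g₃, h2, mul_zero]

lemma wpd_sq' {z : ℂ} (hz : z ∉ Lat.lattice) :
    wpd z ^ 2 = 4 * wp z ^ 3 - Lat.g₂ * wp z := by
  rw [wpd_sq z hz, g₃_eq, sub_zero]

lemma half_notMem : (1 / 2 : ℂ) ∉ Lat.lattice := by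
  rw [mem_Lat]
  rintro ⟨m, n, h⟩
  have h1 := congrArg Complex.re h
  simp at h1
  have h2 : (1 : ℝ) = 2 * m := by linarith
  have h3 : (1 : ℤ) = 2 * m := by exact_mod_cast h2
  omega

lemma halfI_notMem : (I / 2 : ℂ) ∉ Lat.lattice := by
  rw [mem_Lat]
  rintro ⟨m, n, h⟩
  have h1 := congrArg Complex.im h
  simp at h1
  have h2 : (1 : ℝ) = 2 * n := by linarith
  have h3 : (1 : ℤ) = 2 * n := by exact_mod_cast h2
  omega

lemma wpd_half_period {w : ℂ} (hw : 2 * w ∈ Lat.lattice) : wpd w = 0 := by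
  have h1 : wpd w = wpd (-w) := by
    have := wpd_add (z := -w) hw
    rw [← this]
    congr 1
    ring
  rw [wpd_neg] at h1
  linear_combination h1 / 2

lemma g₂_ne : Lat.g₂ ≠ 0 := by
  intro h
  have hz : ∀ w : ℂ, w ∉ Lat.lattice → 2 * w ∈ Lat.lattice → wp w = 0 := by
    intro w hw h2
    have h3 := wpd_sq' hw
    rw [wpd_half_period h2, h] at h3
    have : wp w ^ 3 = 0 := by linear_combination -h3 / 4
    exact pow_eq_zero_iff (n := 3) (by norm_num) |>.1 this
  have hm1 : 2 * (1 / 2 : ℂ) ∈ Lat.lattice := mem_Lat.2 ⟨1, 0, by norm_num⟩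
  have hm2 : 2 * (I / 2 : ℂ) ∈ Lat.lattice := mem_Lat.2 ⟨0, 1, by push_cast; ring⟩
  have := wp_inj half_notMem halfI_notMem (by rw [hz _ half_notMem hm1, hz _ halfI_notMem hm2])
    (by rw [wpd_half_period hm1, wpd_half_period hm2])
  rw [mem_Lat] at this
  obtain ⟨m, n, h⟩ := this
  have h1 := congrArg Complex.re h
  simp at h1
  have h2 : (1 : ℝ) = 2 * m := by linarith
  have h3 : (1 : ℤ) = 2 * m := by exact_mod_cast h2
  omega

/-- `℘` is surjective. -/
theorem wp_surj (v : ℂ) : ∃ z, z ∉ Lat.lattice ∧ wp z = v := by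
  classical
  by_contra hcon
  push Not at hcon
  set h : ℂ → ℂ := fun z => if z ∈ Lat.lattice then 0 else (wp z - v)⁻¹ with hh
  have hd1 : ∀ z, z ∉ Lat.lattice → DifferentiableAt ℂ h z := by
    intro z hz
    have e : h =ᶠ[𝓝 z] fun z => (wp z - v)⁻¹ := by
      filter_upwards [isOpen_compl_Lat.mem_nhds hz] with y hy
      have hy' : y ∉ Lat.lattice := hy
      simp [hh, hy']
    refine DifferentiableAt.congr_of_eventuallyEq ?_ e
    exact ((analyticAt_wp hz).differentiableAt.sub_const v).inv (sub_ne_zero.2 (hcon z hz))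
  have hdiff : Differentiable ℂ h := by
    intro z
    by_cases hz : z ∈ Lat.lattice
    · refine (analyticAt_of_differentiable_on_punctured_nhds_of_continuousAt ?_ ?_).differentiableAt
      · have := Lat.compl_lattice_sdiff_singleton_mem_nhds z
        filter_upwards [mem_nhdsWithin_of_mem_nhds this, self_mem_nhdsWithin] with y hy hy0
        apply hd1
        intro hyL
        exact hy ⟨hyL, hy0⟩
      · rw [continuousAt_iff_punctured_nhds]
        have h0 : h z = 0 := by simp [hh, hz]
        rw [h0]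
        have h1 : Tendsto (fun y => wp y - v) (𝓝[≠] z) (Bornology.cobounded ℂ) := by
          have := tendsto_wp hz
          rw [← tendsto_norm_atTop_iff_cobounded] at this ⊢
          refine tendsto_atTop_mono (f := fun y => ‖wp y‖ - ‖v‖) (fun y => norm_sub_norm_le _ _) ?_
          exact tendsto_atTop_add_const_right _ _ this
        have h2 : Tendsto (fun y => (wp y - v)⁻¹) (𝓝[≠] z) (𝓝 0) :=
          tendsto_inv₀_cobounded.comp h1
        apply h2.congr'
        have := Lat.compl_lattice_sdiff_singleton_mem_nhds z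
        filter_upwards [mem_nhdsWithin_of_mem_nhds this, self_mem_nhdsWithin] with y hy hy0
        have hyL : y ∉ Lat.lattice := fun hyL => hy ⟨hyL, hy0⟩
        simp [hh, hyL]
    · exact hd1 z hz
  have hper : ∀ z w, w ∈ Lat.lattice → h (z + w) = h z := by
    intro z w hw
    have e : z + w ∈ Lat.lattice ↔ z ∈ Lat.lattice :=
      Lat.lattice.toAddSubgroup.add_mem_cancel_right (y := z) hw
    simp only [hh, e, wp_add hw]
  have hb : Bornology.IsBounded (range h) :=
    (IsZLattice.isCompact_range_of_periodic Lat.lattice h hdiff.continuous hper).isBounded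
  have hc := hdiff.apply_eq_apply_of_bounded hb (1 / 2) 0
  have h0 : h 0 = 0 := by simp [hh]
  rw [h0] at hc
  have : h (1 / 2) = (wp (1 / 2) - v)⁻¹ := by
    simp only [hh]
    rw [if_neg half_notMem]
  rw [this, inv_eq_zero, sub_eq_zero] at hc
  exact hcon _ half_notMem hc

end Pool.Agent.Helper95_Entire
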