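import Pool.Agent.Helper95_Entire.Cone

set_option autoImplicit false

/-!
# Lifting continuous maps into the cone to the universal cover
-/

open Complex Filter Topology Set

noncomputable section

namespace Pool.Agent.Helper95_Entire

/-- The torus `ℂ / L`. -/
abbrev Tor : Type := ℂ ⧸ Lat.lattice.toAddSubgroup

/-- The projection. -/
def mkT : ℂ → Tor := QuotientAddGroup.mk

lemma isDiscrete_Lat : IsDiscrete (Lat.lattice.toAddSubgroup : Set ℂ) :=
  ⟨inferInstanceAs (DiscreteTopology Lat.lattice)⟩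

lemma covering_mkT : IsAddQuotientCoveringMap mkT Lat.lattice.toAddSubgroup :=
  AddSubgroup.isAddQuotientCoveringMap_of_comm _ isDiscrete_Lat

lemma mkT_eq_iff {a b : ℂ} : mkT a = mkT b ↔ a - b ∈ Lat.lattice := by
  rw [mkT, QuotientAddGroup.eq]
  constructor
  · intro h
    have := Submodule.neg_mem _ h
    convert this using 1
    ring
  · intro h
    have := Submodule.neg_mem _ h
    show -a + b ∈ Lat.lattice
    convert this using 1
    ring

lemma continuous_mkT : Continuous mkT := covering_mkT.isCoveringMap.continuous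

instance : CompactSpace Tor := by
  have h := IsZLattice.isCompact_range_of_periodic Lat.lattice mkT continuous_mkT
    (fun z w hw => mkT_eq_iff.2 (by simpa using hw))
  have h2 : range mkT = univ := by
    rw [range_eq_univ]
    exact QuotientAddGroup.mk_surjective
  rw [h2] at h
  exact ⟨h⟩

variable {T : Type} [TopologicalSpace T]

lemma Rel.congr {ξ ξ' x y z : ℂ} (hc : OnCone x y z) (h : Rel ξ x y z)
    (hl : ξ' - ξ ∈ Lat.lattice) : Rel ξ' x y z := by
  obtain ⟨c, hc0, hrep⟩ := h.rep hc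
  obtain ⟨m, n, hmn⟩ := mem_Lat.1 hl
  have : ξ' = ξ + (m + n * I) := by linear_combination hmn
  rw [this]
  exact (hrep.shift m n).rel

/-- Continuous lift of the torus coordinate. -/
theorem exists_lift_xi [SimplyConnectedSpace T] [LocallyPathConnectedSpace T] {x y z : T → ℂ}
    (hx : Continuous x) (hy : Continuous y) (hz : Continuous z)
    (hc : ∀ p, OnCone (x p) (y p) (z p)) (p₀ : T) (e₀ : ℂ) (he : Rel e₀ (x p₀) (y p₀) (z p₀)) :
    ∃ ξ : T → ℂ, Continuous ξ ∧ ξ p₀ = e₀ ∧ ∀ p, Rel (ξ p) (x p) (y p) (z p) := by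
  choose ξ0 hξ0 using fun p => exists_rel (hc p)
  set ν : T → Tor := fun p => mkT (ξ0 p) with hν
  have hcont : Continuous ν := by
    rw [continuous_iff_isClosed]
    intro C hC
    -- the graph
    set G : Set (T × Tor) := {q | ν q.1 = q.2} with hG
    have hGclosed : IsClosed G := by
      have hq : IsOpenQuotientMap (Prod.map (id : T → T) mkT) :=
        IsOpenQuotientMap.id.prodMap covering_mkT.isOpenQuotientMap
      rw [← hq.isQuotientMap.isClosed_preimage]
      have hpre : (Prod.map (id : T → T) mkT) ⁻¹' G =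
          {q : T × ℂ | Rel q.2 (x q.1) (y q.1) (z q.1)} := by
        ext ⟨p, ξ⟩
        constructor
        · intro h
          have h1 : mkT (ξ0 p) = mkT ξ := h
          rw [mkT_eq_iff] at h1
          refine (hξ0 p).congr (hc p) ?_
          have := Submodule.neg_mem _ h1
          convert this using 1
          ring
        · intro h
          show mkT (ξ0 p) = mkT ξ
          rw [mkT_eq_iff]
          exact rel_unique (hc p) (hξ0 p) h
      rw [hpre]
      have c1 := differentiable_Th1.continuous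
      have c2 := differentiable_Th2.continuous
      have c3 := differentiable_Th3.continuous
      have : {q : T × ℂ | Rel q.2 (x q.1) (y q.1) (z q.1)} =
          {q : T × ℂ | x q.1 * Th3 q.2 ^ 2 = Th1 q.2 * z q.1 ^ 2} ∩
          {q : T × ℂ | y q.1 * Th3 q.2 ^ 3 = Th2 q.2 * z q.1 ^ 3} := by
        ext q; rfl
      rw [this]
      apply IsClosed.inter
      · exact isClosed_eq (by fun_prop) (by fun_prop)
      · exact isClosed_eq (by fun_prop) (by fun_prop)
    have himg : ν ⁻¹' C = Prod.fst '' (G ∩ Prod.snd ⁻¹' C) := by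
      ext p
      constructor
      · intro hp
        exact ⟨(p, ν p), ⟨rfl, hp⟩, rfl⟩
      · rintro ⟨⟨p', q⟩, ⟨h1, h2⟩, rfl⟩
        show ν p' ∈ C
        rw [show ν p' = q from h1]
        exact h2
    rw [himg]
    exact isClosedMap_fst_of_compactSpace _ (hGclosed.inter (hC.preimage continuous_snd))
  obtain ⟨F, ⟨hF1, hF2⟩, -⟩ := covering_mkT.isCoveringMap.existsUnique_continuousMap_lifts
    (⟨ν, hcont⟩ : C(T, Tor)) p₀ e₀ (mkT_eq_iff.2 (rel_unique (hc p₀) he (hξ0 p₀)))
  refine ⟨F, F.continuous, hF1, fun p => ?_⟩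
  have h1 : mkT (F p) = mkT (ξ0 p) := congrFun hF2 p
  exact (hξ0 p).congr (hc p) (mkT_eq_iff.1 h1)

/-- Continuous lift to the universal cover of the cone. -/
theorem exists_lift [SimplyConnectedSpace T] [LocallyPathConnectedSpace T] {x y z : T → ℂ}
    (hx : Continuous x) (hy : Continuous y) (hz : Continuous z)
    (hc : ∀ p, OnCone (x p) (y p) (z p)) (p₀ : T) (ξ₀ ζ₀ : ℂ)
    (he : Rep (exp ζ₀) ξ₀ (x p₀) (y p₀) (z p₀)) :
    ∃ ξ ζ : T → ℂ, Continuous ξ ∧ Continuous ζ ∧ ξ p₀ = ξ₀ ∧ ζ p₀ = ζ₀ ∧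
      ∀ p, Rep (exp (ζ p)) (ξ p) (x p) (y p) (z p) := by
  obtain ⟨ξ, hξ, hξ0, hrel⟩ := exists_lift_xi hx hy hz hc p₀ ξ₀ he.rel
  choose c hc0 hrep using fun p => (hrel p).rep (hc p)
  have c1 := differentiable_Th1.continuous.comp hξ
  have c2 := differentiable_Th2.continuous.comp hξ
  have c3 := differentiable_Th3.continuous.comp hξ
  have hcc : Continuous c := by
    rw [continuous_iff_continuousAt]
    intro p
    by_cases hp : Th3 (ξ p) = 0
    · have hmem := (Th3_eq_zero_iff _).1 hp
      have hT1 := Th1_ne_of_mem hmem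
      have hT2 := Th2_ne_of_mem hmem
      have hxp : x p ≠ 0 := by
        rw [(hrep p).1]; exact mul_ne_zero (pow_ne_zero 2 (hc0 p)) hT1
      have e : c =ᶠ[𝓝 p] fun p => (y p / Th2 (ξ p)) / (x p / Th1 (ξ p)) := by
        filter_upwards [c1.continuousAt.eventually_ne hT1, c2.continuousAt.eventually_ne hT2,
          hx.continuousAt.eventually_ne hxp] with w h1 h2 h3
        have h1' : Th1 (ξ w) ≠ 0 := h1
        have h2' : Th2 (ξ w) ≠ 0 := h2
        have h4 := hc0 w
        rw [(hrep w).1, (hrep w).2.1]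
        field_simp
      refine ContinuousAt.congr ?_ e.symm
      exact (hy.continuousAt.div c2.continuousAt hT2).div (hx.continuousAt.div c1.continuousAt hT1)
        (div_ne_zero hxp hT1)
    · have e : c =ᶠ[𝓝 p] fun p => z p / Th3 (ξ p) := by
        filter_upwards [c3.continuousAt.eventually_ne hp] with w h1
        have h1' : Th3 (ξ w) ≠ 0 := h1
        rw [(hrep w).2.2]
        field_simp
      refine ContinuousAt.congr ?_ e.symm
      exact hz.continuousAt.div c3.continuousAt hp
  obtain ⟨F, ⟨hF1, hF2⟩, -⟩ := Complex.isCoveringMapOn_exp.existsUnique_continuousMap_lifts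
    (⟨c, hcc⟩ : C(T, ℂ)) (a₀ := p₀) (e₀ := ζ₀)
    (rep_scalar_unique (exp_ne_zero _) he (hξ0 ▸ hrep p₀)) (fun a => by simpa using hc0 a)
  refine ⟨ξ, F, hξ, F.continuous, hξ0, hF1, fun p => ?_⟩
  have h1 : exp (F p) = c p := congrFun hF2 p
  rw [h1]
  exact hrep p

/-- Continuous logarithm. -/
theorem exists_log [SimplyConnectedSpace T] [LocallyPathConnectedSpace T] {u : T → ℂ}
    (hu : Continuous u) (h0 : ∀ p, u p ≠ 0) (p₀ : T) :
    ∃ η : T → ℂ, Continuous η ∧ ∀ p, exp (η p) = u p := by
  obtain ⟨F, ⟨hF1, hF2⟩, -⟩ := Complex.isCoveringMapOn_exp.existsUnique_continuousMap_lifts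
    (⟨u, hu⟩ : C(T, ℂ)) (a₀ := p₀) (e₀ := log (u p₀)) (exp_log (h0 p₀)) (fun a => by simpa using h0 a)
  exact ⟨F, F.continuous, fun p => congrFun hF2 p⟩

end Pool.Agent.Helper95_Entire
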