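import Pool.Agent.Helper95_Entire.Expr
import Pool.Agent.Helper95_Entire.Degree

set_option autoImplicit false

/-!
# The system over the periodic ring attached to a system of basic relations over `ℤ`
-/

open Complex Filter Topology Set

noncomputable section

namespace Pool.Agent.Helper95_Entire

/-- Basic relations between integer unknowns. -/
inductive BRel
  | one (a : ℕ)
  | add (a b c : ℕ)
  | mul (a b c : ℕ)

/-- Meaning of a basic relation. -/
def BRel.Holds (v : ℕ → ℤ) : BRel → Prop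
  | .one a => v a = 1
  | .add a b c => v a + v b = v c
  | .mul a b c => v a * v b = v c

/-- The indices in a basic relation are smaller than `M`. -/
def BRel.Bdd (M : ℕ) : BRel → Prop
  | .one a => a < M
  | .add a b c => a < M ∧ b < M ∧ c < M
  | .mul a b c => a < M ∧ b < M ∧ c < M

/-- Identifiers of the main unknowns. -/
def nm (tag i j : ℕ) : ℕ := 2 * Nat.pair tag (Nat.pair i j) + 1

/-- The main unknowns as expressions. -/
def mu (tag i j : ℕ) : Ex := .unk (nm tag i j)

/-- Curve and Bezout equations. -/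
def eqF (i j : ℕ) : List Ex :=
  [.sub (.mul (mu 1 i j) (mu 1 i j))
      (.sub (.mul (mu 0 i j) (.mul (mu 0 i j) (mu 0 i j)))
        (.mul (mu 0 i j) (.mul (mu 2 i j) (.mul (mu 2 i j) (.mul (mu 2 i j) (mu 2 i j)))))),
    .sub (.add (.mul (mu 3 i j) (mu 0 i j)) (.mul (mu 4 i j) (mu 2 i j))) (.con 1)]

/-- Gluing equations. -/
def eqG (i j : ℕ) : List Ex :=
  [.sub (.mul (mu 5 i j) (mu 6 i j)) (.con 1),
    .sub (.sub (mu 0 i j) (mu 0 i 0)) (.mul .t (mu 7 i j)),
    .sub (.sub (mu 1 i j) (mu 1 i 0)) (.mul .t (mu 8 i j)),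
    .sub (.sub (mu 2 i j) (mu 2 i 0)) (.mul .t (mu 9 i j)),
    .sub (.sub (mu 0 i j) (.mul (.mul (mu 5 i j) (mu 5 i j)) (mu 0 i 0)))
      (.mul (.sub .t (.con 1)) (mu 10 i j)),
    .sub (.sub (mu 1 i j) (.mul (.mul (mu 5 i j) (.mul (mu 5 i j) (mu 5 i j))) (mu 1 i 0)))
      (.mul (.sub .t (.con 1)) (mu 11 i j)),
    .sub (.sub (mu 2 i j) (.mul (mu 5 i j) (mu 2 i 0)))
      (.mul (.sub .t (.con 1)) (mu 12 i j)),
    .sub (.sub (mu 0 i j) (mu 0 0 j)) (.mul (.sub .x (.con 1)) (mu 16 i j)),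
    .sub (.sub (mu 1 i j) (mu 1 0 j)) (.mul (.sub .x (.con 1)) (mu 17 i j)),
    .sub (.sub (mu 2 i j) (mu 2 0 j)) (.mul (.sub .x (.con 1)) (mu 18 i j))]

/-- Base point equations. -/
def eqB (i : ℕ) : List Ex :=
  [.sub (mu 0 i 0) (.mul (.sub .x (.con 1)) (mu 13 i 0)),
    .sub (mu 1 i 0) (.mul (.sub .x (.con 1)) (mu 14 i 0)),
    .sub (.sub (mu 2 i 0) (.con 1)) (.mul (.sub .x (.con 1)) (mu 15 i 0))]

/-- Equations of the units. -/
def eqU (M : ℕ) : List Ex :=
  [.sub (mu 5 0 1) .x, .sub (mu 5 0 2) (.con 1), .sub (mu 5 1 1) (.con 1), .sub (mu 5 1 2) .x] ++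
    (List.range M).flatMap fun k =>
      [.sub (mu 5 (k + 2) 2) (.con 1), .sub (mu 5 (k + 2) 1) (mu 5 0 (k + 3))]

/-- Equation of a basic relation. -/
def eqR : BRel → Ex
  | .one a => .sub (mu 5 (a + 2) 1) .x
  | .add a b c => .sub (.mul (mu 5 (a + 2) 1) (mu 5 (b + 2) 1)) (mu 5 (c + 2) 1)
  | .mul a b c => .sub (mu 5 (a + 2) (b + 3)) (mu 5 (c + 2) 1)

/-- The fixed part of the system. -/
def sys0 (M : ℕ) (R : List BRel) : List Ex :=
  ((List.range (M + 2)).flatMap fun i => (List.range (M + 3)).flatMap fun j => eqF i j) ++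
    (((List.range (M + 2)).flatMap fun i => (List.range (M + 2)).flatMap fun j => eqG i (j + 1)) ++
      ((List.range (M + 2)).flatMap eqB ++ (eqU M ++ R.map eqR)))

/-- The part of the system encoding the parameter. -/
def chain (p a : ℕ) : List Ex :=
  .sub (.unk 0) (.con 1) :: .sub (mu 5 (p + 2) 1) (.unk (2 * a)) ::
    (List.range a).map fun i => .sub (.unk (2 * (i + 1))) (.mul .x (.unk (2 * i)))

lemma gram_identity (m n m' n' : ℕ → ℤ) (i j : ℕ)
    (h01 : n 0 * m' 1 - n' 1 * m 0 = 1) (h02 : n 0 * m' 2 - n' 2 * m 0 = 0)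
    (h11 : n 1 * m' 1 - n' 1 * m 1 = 0) (h12 : n 1 * m' 2 - n' 2 * m 1 = 1)
    (hi2 : n i * m' 2 - n' 2 * m i = 0) :
    n i * m' j - n' j * m i = (n i * m' 1 - n' 1 * m i) * (n 0 * m' j - n' j * m 0) := by
  have key : (n 0 * m' 1 - n' 1 * m 0) * (n 1 * m' 2 - n' 2 * m 1) * (n i * m' j - n' j * m i)
      + (n 0 * m' 2 - n' 2 * m 0) * (n 1 * m' j - n' j * m 1) * (n i * m' 1 - n' 1 * m i)
      + (n 0 * m' j - n' j * m 0) * (n 1 * m' 1 - n' 1 * m 1) * (n i * m' 2 - n' 2 * m i)
      - (n 0 * m' j - n' j * m 0) * (n 1 * m' 2 - n' 2 * m 1) * (n i * m' 1 - n' 1 * m i)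
      - (n 0 * m' 2 - n' 2 * m 0) * (n 1 * m' 1 - n' 1 * m 1) * (n i * m' j - n' j * m i)
      - (n 0 * m' 1 - n' 1 * m 0) * (n 1 * m' j - n' j * m 1) * (n i * m' 2 - n' 2 * m i) = 0 := by
    ring
  rw [h01, h02, h11, h12, hi2] at key
  linear_combination key

theorem sys_sound {M : ℕ} {R : List BRel} {p a : ℕ} (hR : ∀ r ∈ R, r.Bdd M) (hp : p < M)
    (h : SolvP (sys0 M R ++ chain p a)) : ∃ v : ℕ → ℤ, (∀ r ∈ R, r.Holds v) ∧ v p = a := by
  obtain ⟨F, hF, hS⟩ := h
  set E : ℕ → ℕ → ℕ → ℂ → ℂ → ℂ := fun tag i j t s => F (nm tag i j) t s with hE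
  have hcont : ∀ tag i j, Continuous (Function.uncurry (E tag i j)) := fun tag i j =>
    (hF _).1.continuous
  have hper : ∀ tag i j t s, E tag i j t (s + 1) = E tag i j t s := fun tag i j t s => (hF _).2 t s
  -- extraction of the equations
  have eF : ∀ i < M + 2, ∀ j < M + 3, ∀ e ∈ eqF i j, ∀ t s, e.ev t s (fun k => F k t s) = 0 := by
    intro i hi j hj e he
    apply hS
    simp only [sys0, List.mem_append, List.mem_flatMap, List.mem_range]
    exact Or.inl (Or.inl ⟨i, hi, j, hj, he⟩)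
  have eG : ∀ i < M + 2, ∀ j < M + 2, ∀ e ∈ eqG i (j + 1), ∀ t s,
      e.ev t s (fun k => F k t s) = 0 := by
    intro i hi j hj e he
    apply hS
    simp only [sys0, List.mem_append, List.mem_flatMap, List.mem_range]
    exact Or.inl (Or.inr (Or.inl ⟨i, hi, j, hj, he⟩))
  have eB : ∀ i < M + 2, ∀ e ∈ eqB i, ∀ t s, e.ev t s (fun k => F k t s) = 0 := by
    intro i hi e he
    apply hS
    simp only [sys0, List.mem_append, List.mem_flatMap, List.mem_range]
    exact Or.inl (Or.inr (Or.inr (Or.inl ⟨i, hi, he⟩)))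
  have eU : ∀ e ∈ eqU M, ∀ t s, e.ev t s (fun k => F k t s) = 0 := by
    intro e he
    apply hS
    simp only [sys0, List.mem_append]
    exact Or.inl (Or.inr (Or.inr (Or.inr (Or.inl he))))
  have eR : ∀ r ∈ R, ∀ t s, (eqR r).ev t s (fun k => F k t s) = 0 := by
    intro r hr
    apply hS
    simp only [sys0, List.mem_append, List.mem_map]
    exact Or.inl (Or.inr (Or.inr (Or.inr (Or.inr ⟨r, hr, rfl⟩))))
  have eC : ∀ e ∈ chain p a, ∀ t s, e.ev t s (fun k => F k t s) = 0 := by
    intro e he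
    apply hS
    simp only [List.mem_append]
    exact Or.inr he
  -- curve and Bezout
  have hcone : ∀ i < M + 2, ∀ j < M + 3, ∀ t s, OnCone (E 0 i j t s) (E 1 i j t s) (E 2 i j t s) := by
    intro i hi j hj t s
    have h1 := eF i hi j hj _ (List.mem_cons_self) t s
    have h2 := eF i hi j hj _ (List.mem_cons_of_mem _ List.mem_cons_self) t s
    simp only [Ex.ev, mu] at h1 h2
    refine ⟨?_, ?_⟩
    · simp only [hE]
      linear_combination h1
    · by_contra hcon
      push Not at hcon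
      obtain ⟨hx, hz⟩ := hcon
      simp only [hE] at hx hz
      rw [hx, hz] at h2
      simp at h2
  -- gluing
  have hglue : ∀ i < M + 2, ∀ j < M + 2, ∀ t s,
      (E 5 i (j + 1) t s * E 6 i (j + 1) t s = 1) ∧
      (E 0 i (j + 1) t s - E 0 i 0 t s = t * E 7 i (j + 1) t s) ∧
      (E 1 i (j + 1) t s - E 1 i 0 t s = t * E 8 i (j + 1) t s) ∧
      (E 2 i (j + 1) t s - E 2 i 0 t s = t * E 9 i (j + 1) t s) ∧
      (E 0 i (j + 1) t s - E 5 i (j + 1) t s ^ 2 * E 0 i 0 t s = (t - 1) * E 10 i (j + 1) t s) ∧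
      (E 1 i (j + 1) t s - E 5 i (j + 1) t s ^ 3 * E 1 i 0 t s = (t - 1) * E 11 i (j + 1) t s) ∧
      (E 2 i (j + 1) t s - E 5 i (j + 1) t s * E 2 i 0 t s = (t - 1) * E 12 i (j + 1) t s) ∧
      (E 0 i (j + 1) t s - E 0 0 (j + 1) t s = (ex s - 1) * E 16 i (j + 1) t s) ∧
      (E 1 i (j + 1) t s - E 1 0 (j + 1) t s = (ex s - 1) * E 17 i (j + 1) t s) ∧
      (E 2 i (j + 1) t s - E 2 0 (j + 1) t s = (ex s - 1) * E 18 i (j + 1) t s) := by
    intro i hi j hj t s
    have h := eG i hi j hj
    simp only [eqG, List.forall_mem_cons, List.not_mem_nil, false_imp_iff, implies_true,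
      and_true] at h
    obtain ⟨h1, h2, h3, h4, h5, h6, h7, h8, h9, h10⟩ := h
    have h1 := h1 t s
    have h2 := h2 t s
    have h3 := h3 t s
    have h4 := h4 t s
    have h5 := h5 t s
    have h6 := h6 t s
    have h7 := h7 t s
    have h8 := h8 t s
    have h9 := h9 t s
    have h10 := h10 t s
    simp only [Ex.ev, mu] at h1 h2 h3 h4 h5 h6 h7 h8 h9 h10
    push_cast at h1 h5 h6 h7 h8 h9 h10
    simp only [hE]
    refine ⟨?_, ?_, ?_, ?_, ?_, ?_, ?_, ?_, ?_, ?_⟩
    · linear_combination h1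
    · linear_combination h2
    · linear_combination h3
    · linear_combination h4
    · linear_combination h5
    · linear_combination h6
    · linear_combination h7
    · linear_combination h8
    · linear_combination h9
    · linear_combination h10
  -- base
  have hbase : ∀ i < M + 2, ∀ t, E 0 i 0 t 0 = 0 ∧ E 1 i 0 t 0 = 0 ∧ E 2 i 0 t 0 = 1 := by
    intro i hi t
    have h := eB i hi
    simp only [eqB, List.forall_mem_cons, List.not_mem_nil, false_imp_iff, implies_true,
      and_true] at h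
    obtain ⟨h1, h2, h3⟩ := h
    have h1 := h1 t 0
    have h2 := h2 t 0
    have h3 := h3 t 0
    simp only [Ex.ev, mu, ex_zero] at h1 h2 h3
    push_cast at h1 h2 h3
    simp only [hE]
    refine ⟨?_, ?_, ?_⟩
    · linear_combination h1
    · linear_combination h2
    · linear_combination h3
  -- displacements
  have c1 : ∀ tag i j, Continuous fun q : ℝ × ℝ => E tag i j q.1 q.2 := fun tag i j =>
    (hcont tag i j).comp (f := fun q : ℝ × ℝ => ((q.1 : ℂ), (q.2 : ℂ))) (by fun_prop)
  have hper1 : ∀ tag i j (t : ℂ), E tag i j t 1 = E tag i j t 0 := by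
    intro tag i j t
    have := hper tag i j t 0
    rwa [zero_add] at this
  have hdl : ∀ i < M + 2, ∃ m n : ℤ, Disp xi0 ze0 (fun s : ℝ => E 0 i 0 (0 : ℝ) s)
      (fun s : ℝ => E 1 i 0 (0 : ℝ) s) (fun s : ℝ => E 2 i 0 (0 : ℝ) s) m n := by
    intro i hi
    have hb := hbase i hi 0
    apply exists_disp (c := exp ze0)
    · exact (c1 0 i 0).comp (f := fun s : ℝ => ((0 : ℝ), s)) (by fun_prop)
    · exact (c1 1 i 0).comp (f := fun s : ℝ => ((0 : ℝ), s)) (by fun_prop)
    · exact (c1 2 i 0).comp (f := fun s : ℝ => ((0 : ℝ), s)) (by fun_prop)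
    · intro s; exact hcone i hi 0 (by omega) _ _
    · simp only [ofReal_zero, hb.1, hb.2.1, hb.2.2]
      exact rep_base
    · exact exp_ne_zero _
    · simp only [ofReal_zero, ofReal_one, hper1, hb.1, hb.2.1, hb.2.2]
      exact rep_base
  have hdm : ∀ j < M + 2, ∃ m n : ℤ, Disp xi0 ze0 (fun t : ℝ => E 0 0 (j + 1) t (0 : ℝ))
      (fun t : ℝ => E 1 0 (j + 1) t (0 : ℝ)) (fun t : ℝ => E 2 0 (j + 1) t (0 : ℝ)) m n := by
    intro j hj
    have hb0 := hbase 0 (by omega) 0
    have hb1 := hbase 0 (by omega) 1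
    obtain ⟨g1, g2, g3, g4, -, -, -, -, -, -⟩ := hglue 0 (by omega) j hj 0 0
    obtain ⟨k1, -, -, -, k5, k6, k7, -, -, -⟩ := hglue 0 (by omega) j hj 1 0
    apply exists_disp (c := E 5 0 (j + 1) 1 0 * exp ze0)
    · exact (c1 0 0 (j + 1)).comp (f := fun s : ℝ => (s, (0 : ℝ))) (by fun_prop)
    · exact (c1 1 0 (j + 1)).comp (f := fun s : ℝ => (s, (0 : ℝ))) (by fun_prop)
    · exact (c1 2 0 (j + 1)).comp (f := fun s : ℝ => (s, (0 : ℝ))) (by fun_prop)
    · intro s; exact hcone 0 (by omega) (j + 1) (by omega) _ _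
    · have e1 : E 0 0 (j + 1) 0 0 = 0 := by linear_combination g2 + hb0.1
      have e2 : E 1 0 (j + 1) 0 0 = 0 := by linear_combination g3 + hb0.2.1
      have e3 : E 2 0 (j + 1) 0 0 = 1 := by linear_combination g4 + hb0.2.2
      simp only [ofReal_zero, e1, e2, e3]
      exact rep_base
    · refine mul_ne_zero (fun h0 => ?_) (exp_ne_zero _)
      rw [h0] at k1
      simp at k1
    · have e1 : E 0 0 (j + 1) 1 0 = 0 := by
        linear_combination k5 + E 5 0 (j + 1) 1 0 ^ 2 * hb1.1
      have e2 : E 1 0 (j + 1) 1 0 = 0 := by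
        linear_combination k6 + E 5 0 (j + 1) 1 0 ^ 3 * hb1.2.1
      have e3 : E 2 0 (j + 1) 1 0 = E 5 0 (j + 1) 1 0 := by
        linear_combination k7 + E 5 0 (j + 1) 1 0 * hb1.2.2
      simp only [ofReal_zero, ofReal_one, e1, e2, e3]
      obtain ⟨r1, r2, r3⟩ := rep_base
      refine ⟨?_, ?_, ?_⟩
      · linear_combination E 5 0 (j + 1) 1 0 ^ 2 * r1
      · linear_combination E 5 0 (j + 1) 1 0 ^ 3 * r2
      · linear_combination E 5 0 (j + 1) 1 0 * r3
  choose! ml nl hml using hdl
  choose! mm' nm' hmm using hdm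
  -- shift the index of the second family by one
  set mm : ℕ → ℤ := fun j => mm' (j - 1) with hmmdef
  set nn : ℕ → ℤ := fun j => nm' (j - 1) with hnndef
  have hdeg : ∀ i < M + 2, ∀ j < M + 2,
      HasDeg (fun s : ℝ => E 5 i (j + 1) (1 : ℝ) s) (nl i * mm (j + 1) - nn (j + 1) * ml i) := by
    intro i hi j hj
    have hbi := hbase i hi
    apply degree_relation (ξ₀ := xi0) (ζ₀ := ze0) (x := fun q : ℝ × ℝ => E 0 i (j + 1) q.1 q.2)
      (y := fun q : ℝ × ℝ => E 1 i (j + 1) q.1 q.2) (z := fun q : ℝ × ℝ => E 2 i (j + 1) q.1 q.2)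
      (x' := fun q : ℝ × ℝ => E 0 i 0 q.1 q.2) (y' := fun q : ℝ × ℝ => E 1 i 0 q.1 q.2)
      (z' := fun q : ℝ × ℝ => E 2 i 0 q.1 q.2) (c1 _ _ _) (c1 _ _ _) (c1 _ _ _) (c1 _ _ _)
      (c1 _ _ _) (c1 _ _ _)
    · intro q; exact hcone i hi (j + 1) (by omega) _ _
    · intro q; exact hcone i hi 0 (by omega) _ _
    · intro t
      simp only [ofReal_zero, (hbi t).1, (hbi t).2.1, (hbi t).2.2]
      exact rep_base
    · intro t
      simp only [ofReal_zero, ofReal_one, hper1, and_self]
    · intro t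
      simp only [ofReal_zero, ofReal_one, hper1, and_self]
    · intro s
      obtain ⟨-, g2, g3, g4, -, -, -, -, -, -⟩ := hglue i hi j hj 0 s
      simp only [ofReal_zero]
      exact ⟨by linear_combination g2, by linear_combination g3, by linear_combination g4⟩
    · intro s h0
      obtain ⟨g1, -, -, -, -, -, -, -, -, -⟩ := hglue i hi j hj 1 s
      simp only [ofReal_one] at h0
      rw [h0] at g1
      simp at g1
    · intro s
      obtain ⟨-, -, -, -, g5, g6, g7, -, -, -⟩ := hglue i hi j hj 1 s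
      simp only [ofReal_one]
      exact ⟨by linear_combination g5, by linear_combination g6, by linear_combination g7⟩
    · exact hml i hi
    · have hd := hmm j hj
      have e0 : ∀ t : ℂ, E 0 i (j + 1) t 0 = E 0 0 (j + 1) t 0 := by
        intro t
        obtain ⟨-, -, -, -, -, -, -, g8, g9, g10⟩ := hglue i hi j hj t 0
        rw [ex_zero] at g8
        linear_combination g8
      have e1 : ∀ t : ℂ, E 1 i (j + 1) t 0 = E 1 0 (j + 1) t 0 := by
        intro t
        obtain ⟨-, -, -, -, -, -, -, g8, g9, g10⟩ := hglue i hi j hj t 0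
        rw [ex_zero] at g9
        linear_combination g9
      have e2 : ∀ t : ℂ, E 2 i (j + 1) t 0 = E 2 0 (j + 1) t 0 := by
        intro t
        obtain ⟨-, -, -, -, -, -, -, g8, g9, g10⟩ := hglue i hi j hj t 0
        rw [ex_zero] at g10
        linear_combination g10
      simp only [ofReal_zero] at hd
      simp only [ofReal_zero, e0, e1, e2]
      exact hd
  -- the degrees
  set D : ℕ → ℕ → ℤ := fun i j => nl i * mm j - nn j * ml i with hD
  have hx : HasDeg (fun s : ℝ => ex s) 1 := by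
    have := hasDeg_ex 1
    simpa using this
  have hUeq : (∀ t s, E 5 0 1 t s = ex s) ∧ (∀ t s, E 5 0 2 t s = 1) ∧ (∀ t s, E 5 1 1 t s = 1) ∧
      (∀ t s, E 5 1 2 t s = ex s) := by
    have h : ∀ e ∈ [Ex.sub (mu 5 0 1) .x, .sub (mu 5 0 2) (.con 1), .sub (mu 5 1 1) (.con 1),
        .sub (mu 5 1 2) .x], ∀ t s, e.ev t s (fun k => F k t s) = 0 := by
      intro e he
      exact eU e (by rw [eqU, List.mem_append]; exact Or.inl he)
    simp only [List.forall_mem_cons, List.not_mem_nil, false_imp_iff, implies_true, and_true,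
      Ex.ev, mu] at h
    obtain ⟨h1, h2, h3, h4⟩ := h
    simp only [hE]
    push_cast at h2 h3
    exact ⟨fun t s => by linear_combination h1 t s, fun t s => by linear_combination h2 t s,
      fun t s => by linear_combination h3 t s, fun t s => by linear_combination h4 t s⟩
  have hUk : ∀ k < M, (∀ t s, E 5 (k + 2) 2 t s = 1) ∧ (∀ t s, E 5 (k + 2) 1 t s = E 5 0 (k + 3) t s) := by
    intro k hk
    have h : ∀ e ∈ [Ex.sub (mu 5 (k + 2) 2) (.con 1), .sub (mu 5 (k + 2) 1) (mu 5 0 (k + 3))],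
        ∀ t s, e.ev t s (fun k => F k t s) = 0 := by
      intro e he
      exact eU e (by
        rw [eqU, List.mem_append, List.mem_flatMap]
        exact Or.inr ⟨k, List.mem_range.2 hk, he⟩)
    simp only [List.forall_mem_cons, List.not_mem_nil, false_imp_iff, implies_true, and_true,
      Ex.ev, mu] at h
    obtain ⟨h1, h2⟩ := h
    simp only [hE]
    push_cast at h1
    exact ⟨fun t s => by linear_combination h1 t s, fun t s => by linear_combination h2 t s⟩
  have hD01 : D 0 1 = 1 := by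
    have h := hdeg 0 (by omega) 0 (by omega)
    simp only [zero_add, hUeq.1] at h
    exact h.unique hx
  have hD02 : D 0 2 = 0 := by
    have h := hdeg 0 (by omega) 1 (by omega)
    simp only [Nat.reduceAdd, hUeq.2.1] at h
    exact h.unique hasDeg_one
  have hD11 : D 1 1 = 0 := by
    have h := hdeg 1 (by omega) 0 (by omega)
    simp only [zero_add, hUeq.2.2.1] at h
    exact h.unique hasDeg_one
  have hD12 : D 1 2 = 1 := by
    have h := hdeg 1 (by omega) 1 (by omega)
    simp only [Nat.reduceAdd, hUeq.2.2.2] at h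
    exact h.unique hx
  have hDk2 : ∀ k < M, D (k + 2) 2 = 0 := by
    intro k hk
    have h := hdeg (k + 2) (by omega) 1 (by omega)
    simp only [Nat.reduceAdd, (hUk k hk).1] at h
    exact h.unique hasDeg_one
  have hDk1 : ∀ k < M, D (k + 2) 1 = D 0 (k + 3) := by
    intro k hk
    have h := hdeg (k + 2) (by omega) 0 (by omega)
    have h' := hdeg 0 (by omega) (k + 2) (by omega)
    simp only [zero_add, (hUk k hk).2] at h
    exact h.unique h'
  have hprod : ∀ k < M, ∀ l < M, D (k + 2) (l + 3) = D (k + 2) 1 * D (l + 2) 1 := by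
    intro k hk l hl
    rw [hDk1 l hl]
    exact gram_identity ml nl mm nn (k + 2) (l + 3) hD01 hD02 hD11 hD12 (hDk2 k hk)
  refine ⟨fun k => D (k + 2) 1, ?_, ?_⟩
  · intro r hr
    have hb := hR r hr
    have he := eR r hr
    rcases r with a | ⟨a, b, c⟩ | ⟨a, b, c⟩
    · have ha : a < M := hb
      show D (a + 2) 1 = 1
      simp only [eqR, Ex.ev, mu] at he
      have h := hdeg (a + 2) (by omega) 0 (by omega)
      have e : (fun s : ℝ => E 5 (a + 2) (0 + 1) (1 : ℝ) s) = fun s : ℝ => ex s := by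
        funext s
        simp only [hE, zero_add]
        linear_combination he (1 : ℝ) s
      rw [e] at h
      exact h.unique hx
    · obtain ⟨ha, hb, hc⟩ : a < M ∧ b < M ∧ c < M := hb
      show D (a + 2) 1 + D (b + 2) 1 = D (c + 2) 1
      simp only [eqR, Ex.ev, mu] at he
      have h1 := hdeg (a + 2) (by omega) 0 (by omega)
      have h2 := hdeg (b + 2) (by omega) 0 (by omega)
      have h3 := hdeg (c + 2) (by omega) 0 (by omega)
      have h4 := h1.mul h2
      have e : (fun s : ℝ => E 5 (a + 2) (0 + 1) (1 : ℝ) s * E 5 (b + 2) (0 + 1) (1 : ℝ) s) =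
          fun s : ℝ => E 5 (c + 2) (0 + 1) (1 : ℝ) s := by
        funext s
        simp only [hE, zero_add]
        linear_combination he (1 : ℝ) s
      rw [e] at h4
      exact h4.unique h3
    · obtain ⟨ha, hb, hc⟩ : a < M ∧ b < M ∧ c < M := hb
      show D (a + 2) 1 * D (b + 2) 1 = D (c + 2) 1
      simp only [eqR, Ex.ev, mu] at he
      rw [← hprod a ha b hb]
      have h1 := hdeg (a + 2) (by omega) (b + 2) (by omega)
      have h3 := hdeg (c + 2) (by omega) 0 (by omega)
      have e : (fun s : ℝ => E 5 (a + 2) (b + 2 + 1) (1 : ℝ) s) =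
          fun s : ℝ => E 5 (c + 2) (0 + 1) (1 : ℝ) s := by
        funext s
        simp only [hE, zero_add]
        linear_combination he (1 : ℝ) s
      rw [e] at h1
      exact h1.unique h3
  · show D (p + 2) 1 = a
    have h1 : ∀ t s, F 0 t s = 1 := by
      intro t s
      have := eC _ (List.mem_cons_self) t s
      simp only [Ex.ev] at this
      push_cast at this
      linear_combination this
    have h2 : ∀ t s, E 5 (p + 2) 1 t s = F (2 * a) t s := by
      intro t s
      have := eC _ (List.mem_cons_of_mem _ List.mem_cons_self) t s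
      simp only [Ex.ev, mu] at this
      simp only [hE]
      linear_combination this
    have h3 : ∀ i ≤ a, ∀ t s, F (2 * i) t s = ex (i * s) := by
      intro i
      induction i with
      | zero =>
        intro _ t s
        rw [mul_zero, h1]
        simp [ex_zero]
      | succ i ih =>
        intro hi t s
        have := eC _ (List.mem_cons_of_mem _ (List.mem_cons_of_mem _
          (List.mem_map.2 ⟨i, List.mem_range.2 (by omega), rfl⟩))) t s
        simp only [Ex.ev] at this
        rw [ih (by omega)] at this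
        have e : ex (((i + 1 : ℕ) : ℂ) * s) = ex s * ex (i * s) := by
          rw [← ex_add]
          congr 1
          push_cast; ring
        rw [e]
        linear_combination this
    have h := hdeg (p + 2) (by omega) 0 (by omega)
    have e : (fun s : ℝ => E 5 (p + 2) (0 + 1) (1 : ℝ) s) = fun s : ℝ => ex ((a : ℤ) * s) := by
      funext s
      rw [zero_add, h2, h3 a le_rfl]
      push_cast
      rfl
    rw [e] at h
    exact h.unique (hasDeg_ex a)

end Pool.Agent.Helper95_Entire
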