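import Pool.Agent.Helper95_Entire.Lattice

set_option autoImplicit false

/-!
# A theta function for the square lattice

`theta ξ = φ(e^{2πiξ}) φ(q e^{-2πiξ})` with `φ(X) = ∏ (1 - qⁿ X)`, `q = e^{-2π}`.
-/

open Complex Filter Topology Set

noncomputable section

namespace Pool.Agent.Helper95_Entire

/-- The nome `q = e^{-2π}`. -/
def qr : ℝ := Real.exp (-(2 * Real.pi))

lemma qr_pos : 0 < qr := Real.exp_pos _

lemma qr_lt_one : qr < 1 := by
  rw [qr, Real.exp_lt_one_iff]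
  have := Real.pi_pos
  linarith

lemma norm_qr : ‖(qr : ℂ)‖ = qr := by
  rw [Complex.norm_real, Real.norm_of_nonneg qr_pos.le]

lemma qr_eq : (qr : ℂ) = exp (2 * Real.pi * I * I) := by
  rw [qr, Complex.ofReal_exp]
  congr 1
  push_cast
  linear_combination -(2 * (Real.pi : ℂ)) * I_mul_I

/-- `φ(X) = ∏ (1 - qⁿ X)`. -/
def phi (X : ℂ) : ℂ := ∏' n : ℕ, (1 + -((qr : ℂ) ^ n * X))

lemma summable_phi (X : ℂ) : Summable fun n : ℕ => ‖-((qr : ℂ) ^ n * X)‖ := by
  have : (fun n : ℕ => ‖-((qr : ℂ) ^ n * X)‖) = fun n : ℕ => qr ^ n * ‖X‖ := by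
    funext n
    rw [norm_neg, norm_mul, norm_pow, norm_qr]
  rw [this]
  exact (summable_geometric_of_lt_one qr_pos.le qr_lt_one).mul_right _

lemma multipliable_phi (X : ℂ) : Multipliable fun n : ℕ => (1 + -((qr : ℂ) ^ n * X)) :=
  multipliable_one_add_of_summable (summable_phi X)

lemma phi_zero : phi 0 = 1 := by simp [phi]

lemma phi_func (X : ℂ) : phi X = (1 - X) * phi (qr * X) := by
  rw [phi, tprod_eq_zero_mul']
  · rw [phi]
    congr 1
    · ring
    · congr 1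
      funext n
      ring
  · have := multipliable_phi (qr * X)
    convert this using 2 with n
    ring

lemma phi_iter (X : ℂ) (n : ℕ) :
    phi X = (∏ j ∈ Finset.range n, (1 - (qr : ℂ) ^ j * X)) * phi ((qr : ℂ) ^ n * X) := by
  induction n with
  | zero => simp
  | succ n ih =>
    rw [ih, Finset.prod_range_succ, phi_func ((qr : ℂ) ^ n * X), mul_assoc]
    congr 3
    ring

lemma phi_eq_zero_iff (X : ℂ) : phi X = 0 ↔ ∃ n : ℕ, (qr : ℂ) ^ n * X = 1 := by
  constructor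
  · intro h
    by_contra hcon
    push Not at hcon
    refine tprod_one_add_ne_zero_of_summable (f := fun n : ℕ => -((qr : ℂ) ^ n * X)) ?_
      (summable_phi X) h
    intro n h0
    apply hcon n
    linear_combination -h0
  · rintro ⟨n, hn⟩
    rw [phi_iter X (n + 1), Finset.prod_range_succ, hn]
    ring

lemma differentiable_phi : Differentiable ℂ phi := by
  have key : ∀ R : ℝ, 0 < R → DifferentiableOn ℂ phi (Metric.ball 0 R) := by
    intro R hR
    have h := Summable.hasProdLocallyUniformlyOn_nat_one_add (K := Metric.ball (0 : ℂ) R)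
      (f := fun (n : ℕ) (X : ℂ) => -((qr : ℂ) ^ n * X)) (u := fun n => qr ^ n * R)
      Metric.isOpen_ball
      ((summable_geometric_of_lt_one qr_pos.le qr_lt_one).mul_right _)
      (Eventually.of_forall fun n X hX => by
        rw [norm_neg, norm_mul, norm_pow, norm_qr]
        have : ‖X‖ < R := by simpa using hX
        gcongr
        exact pow_nonneg qr_pos.le n)
      (fun n => by fun_prop)
    rw [hasProdLocallyUniformlyOn_iff_tendstoLocallyUniformlyOn] at h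
    exact h.differentiableOn (Eventually.of_forall fun s => by fun_prop) Metric.isOpen_ball
  intro z
  have := key (‖z‖ + 1) (by positivity) z (by simp)
  exact this.differentiableAt (Metric.isOpen_ball.mem_nhds (by simp))

/-- `e^{2πiξ}`. -/
def ex (ξ : ℂ) : ℂ := exp (2 * Real.pi * I * ξ)

lemma ex_ne (ξ : ℂ) : ex ξ ≠ 0 := exp_ne_zero _

lemma ex_add (a b : ℂ) : ex (a + b) = ex a * ex b := by
  rw [ex, ex, ex, ← exp_add]; ring_nf

lemma ex_neg (a : ℂ) : ex (-a) = (ex a)⁻¹ := by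
  rw [ex, ex, ← exp_neg]; ring_nf

lemma ex_zero : ex 0 = 1 := by simp [ex]

lemma ex_eq_one_iff (ξ : ℂ) : ex ξ = 1 ↔ ∃ n : ℤ, ξ = n := by
  rw [ex, Complex.exp_eq_one_iff]
  have h2 : (2 * Real.pi * I : ℂ) ≠ 0 := Complex.two_pi_I_ne_zero
  constructor
  · rintro ⟨n, hn⟩
    exact ⟨n, mul_left_cancel₀ h2 (by rw [hn]; ring)⟩
  · rintro ⟨n, hn⟩
    exact ⟨n, by rw [hn]; ring⟩

lemma ex_int (n : ℤ) : ex n = 1 := (ex_eq_one_iff _).2 ⟨n, rfl⟩

lemma ex_nat_mul (n : ℕ) (ξ : ℂ) : ex (n * ξ) = ex ξ ^ n := by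
  rw [ex, ex, ← exp_nat_mul]; congr 1; ring

lemma ex_I : ex I = qr := by rw [ex, qr_eq]

@[fun_prop]
lemma differentiable_ex : Differentiable ℂ ex := by
  unfold ex
  fun_prop

lemma hasDerivAt_ex (ξ : ℂ) : HasDerivAt ex (2 * Real.pi * I * ex ξ) ξ := by
  have h := ((hasDerivAt_id' ξ).const_mul (2 * Real.pi * I : ℂ)).cexp
  rw [mul_one, mul_comm (cexp _)] at h
  exact h

/-- The theta function. -/
def theta (ξ : ℂ) : ℂ := phi (ex ξ) * phi (qr * ex (-ξ))

/-- `ψ(ξ) = θ(ξ) / (1 - e^{2πiξ})`. -/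
def psi (ξ : ℂ) : ℂ := phi (qr * ex ξ) * phi (qr * ex (-ξ))

lemma theta_eq (ξ : ℂ) : theta ξ = (1 - ex ξ) * psi ξ := by
  rw [theta, psi, phi_func (ex ξ)]; ring

@[fun_prop]
lemma differentiable_theta : Differentiable ℂ theta := by
  unfold theta
  have := differentiable_phi
  intro z
  refine DifferentiableAt.mul ?_ ?_
  · exact (this _).comp z (differentiable_ex z)
  · exact (this _).comp z (by fun_prop)

@[fun_prop]
lemma differentiable_psi : Differentiable ℂ psi := by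
  unfold psi
  have := differentiable_phi
  intro z
  refine DifferentiableAt.mul ?_ ?_
  · exact (this _).comp z (by fun_prop)
  · exact (this _).comp z (by fun_prop)

lemma psi_add_int (ξ : ℂ) (m : ℤ) : psi (ξ + m) = psi ξ := by
  have h1 : ex (ξ + m) = ex ξ := by rw [ex_add, ex_int, mul_one]
  have h2 : ex (-(ξ + m)) = ex (-ξ) := by rw [ex_neg, ex_neg, h1]
  rw [psi, psi, h1, h2]

lemma psi_zero_ne : psi 0 ≠ 0 := by
  have h : phi qr ≠ 0 := by
    intro h
    rw [phi_eq_zero_iff] at h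
    obtain ⟨n, hn⟩ := h
    have h1 : qr ^ (n + 1) = 1 := by
      have : ((qr ^ (n + 1) : ℝ) : ℂ) = 1 := by push_cast; rw [pow_succ]; exact hn
      exact_mod_cast this
    have h2 : qr ^ (n + 1) < 1 := pow_lt_one₀ qr_pos.le qr_lt_one (by omega)
    linarith
  rw [psi, neg_zero, ex_zero, mul_one]
  exact mul_ne_zero h h

lemma theta_add_int (ξ : ℂ) (m : ℤ) : theta (ξ + m) = theta ξ := by
  have h1 : ex (ξ + m) = ex ξ := by rw [ex_add, ex_int, mul_one]
  rw [theta_eq, theta_eq, psi_add_int, h1]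

lemma theta_add_I (ξ : ℂ) : theta (ξ + I) = -ex (-ξ) * theta ξ := by
  have hne := ex_ne ξ
  have h1 : ex (ξ + I) = qr * ex ξ := by rw [ex_add, ex_I, mul_comm]
  have hq : (qr : ℂ) ≠ 0 := by exact_mod_cast qr_pos.ne'
  have h2 : (qr : ℂ) * ex (-(ξ + I)) = ex (-ξ) := by
    rw [ex_neg, ex_neg, h1]
    field_simp
  rw [theta, h1, h2, theta, phi_func (ex ξ), phi_func (ex (-ξ))]
  have h3 : ex (-ξ) * ex ξ = 1 := by rw [ex_neg, inv_mul_cancel₀ hne]
  linear_combination -(phi (qr * ex ξ) * phi (qr * ex (-ξ))) * h3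

/-- The exponent of the quasi-period factor. -/
def Xe (n : ℤ) (ξ : ℂ) : ℂ :=
  Real.pi * I * n - 2 * Real.pi * I * n * ξ + Real.pi * n * (n - 1)

lemma exp_Xe_zero (ξ : ℂ) : exp (Xe 0 ξ) = 1 := by simp [Xe]

lemma exp_Xe_one (ξ : ℂ) : exp (Xe 1 ξ) = -ex (-ξ) := by
  rw [Xe, ex]
  have : (Real.pi * I * (1 : ℤ) - 2 * Real.pi * I * (1 : ℤ) * ξ + Real.pi * (1 : ℤ) * ((1 : ℤ) - 1)
      : ℂ) = Real.pi * I + 2 * Real.pi * I * (-ξ) := by push_cast; ring
  rw [this, exp_add, Complex.exp_pi_mul_I]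
  ring

lemma exp_Xe_add (n k : ℤ) (m : ℤ) (ξ : ℂ) :
    exp (Xe (n + k) ξ) = exp (Xe n (ξ + m + k * I)) * exp (Xe k ξ) := by
  rw [← exp_add, Complex.exp_eq_exp_iff_exists_int]
  refine ⟨n * m, ?_⟩
  simp only [Xe]
  push_cast
  linear_combination (2 * (Real.pi : ℂ) * n * k) * I_mul_I

lemma exp_Xe_shift (n m : ℤ) (ξ : ℂ) : exp (Xe n (ξ + m)) = exp (Xe n ξ) := by
  rw [Complex.exp_eq_exp_iff_exists_int]
  refine ⟨-(n * m), ?_⟩
  simp only [Xe]
  push_cast
  ring

/-- Quasi-periodicity of `theta`. -/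
lemma theta_add (ξ : ℂ) (m n : ℤ) : theta (ξ + (m + n * I)) = exp (Xe n ξ) * theta ξ := by
  have key : ∀ (n : ℤ) (ξ : ℂ), theta (ξ + n * I) = exp (Xe n ξ) * theta ξ := by
    intro n
    induction n using Int.induction_on with
    | zero => intro ξ; simp [exp_Xe_zero]
    | succ n ih =>
      intro ξ
      have h1 : ξ + ((n : ℤ) + 1 : ℤ) * I = (ξ + (n : ℤ) * I) + I := by push_cast; ring
      rw [h1, theta_add_I, ih, ← exp_Xe_one]
      rw [show ((n : ℤ) + 1) = 1 + (n : ℤ) by ring, exp_Xe_add 1 n 0]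
      simp only [Int.cast_zero, add_zero]
      ring
    | pred n ih =>
      intro ξ
      have h1 := theta_add_I (ξ + ((-(n : ℤ) - 1 : ℤ) : ℂ) * I)
      have h2 : ξ + ((-(n : ℤ) - 1 : ℤ) : ℂ) * I + I = ξ + ((-(n : ℤ) : ℤ) : ℂ) * I := by
        push_cast; ring
      rw [h2, ih, ← exp_Xe_one] at h1
      have h3 := exp_Xe_add 1 (-(n : ℤ) - 1) 0 ξ
      simp only [Int.cast_zero, add_zero] at h3
      rw [show (1 + (-(n : ℤ) - 1)) = -(n : ℤ) by ring] at h3
      rw [h3] at h1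
      have hne := exp_ne_zero (Xe 1 (ξ + ((-(n : ℤ) - 1 : ℤ) : ℂ) * I))
      apply mul_left_cancel₀ hne
      rw [← h1]
      ring
  have h1 : ξ + (m + n * I) = (ξ + m) + n * I := by ring
  rw [h1, key, exp_Xe_shift, theta_add_int]

lemma theta_zero_eq : theta 0 = 0 := by
  rw [theta_eq, ex_zero]; ring

lemma theta_eq_zero_iff (ξ : ℂ) : theta ξ = 0 ↔ ξ ∈ Lat.lattice := by
  constructor
  · intro h
    rw [theta, mul_eq_zero, phi_eq_zero_iff, phi_eq_zero_iff] at h
    rcases h with ⟨n, hn⟩ | ⟨n, hn⟩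
    · have h1 : ex (ξ + n * I) = 1 := by
        rw [ex_add, ex_nat_mul, ex_I, mul_comm]; exact hn
      obtain ⟨m, hm⟩ := (ex_eq_one_iff _).1 h1
      exact mem_Lat.2 ⟨m, -n, by push_cast; linear_combination hm⟩
    · have h1 : ex (-ξ + (n + 1 : ℕ) * I) = 1 := by
        rw [ex_add, ex_nat_mul, ex_I, mul_comm, pow_succ, mul_assoc]; exact hn
      obtain ⟨m, hm⟩ := (ex_eq_one_iff _).1 h1
      refine mem_Lat.2 ⟨-m, n + 1, ?_⟩
      push_cast at hm ⊢
      linear_combination -hm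
  · intro h
    obtain ⟨m, n, rfl⟩ := mem_Lat.1 h
    have := theta_add 0 m n
    rw [zero_add] at this
    rw [this, theta_zero_eq, mul_zero]

lemma deriv_theta_zero : deriv theta 0 ≠ 0 := by
  have h1 : HasDerivAt (fun ξ => (1 - ex ξ) * psi ξ)
      ((0 - 2 * Real.pi * I * ex 0) * psi 0 + (1 - ex 0) * deriv psi 0) 0 :=
    ((hasDerivAt_const (0 : ℂ) (1 : ℂ)).sub (hasDerivAt_ex 0)).mul
      (differentiable_psi 0).hasDerivAt
  have h2 : theta = fun ξ => (1 - ex ξ) * psi ξ := funext theta_eq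
  rw [h2, h1.deriv, ex_zero, sub_self, zero_mul, add_zero, zero_sub, mul_one]
  exact mul_ne_zero (neg_ne_zero.2 Complex.two_pi_I_ne_zero) psi_zero_ne

lemma differentiable_Xe (n : ℤ) : Differentiable ℂ (Xe n) := by
  unfold Xe
  fun_prop

lemma deriv_theta_ne {l : ℂ} (hl : l ∈ Lat.lattice) : deriv theta l ≠ 0 := by
  obtain ⟨m, n, rfl⟩ := mem_Lat.1 hl
  have h1 : deriv (fun ξ => theta (ξ + (m + n * I))) 0 = deriv theta (m + n * I) := by
    rw [deriv_comp_add_const, zero_add]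
  have h2 : (fun ξ => theta (ξ + (m + n * I))) = fun ξ => exp (Xe n ξ) * theta ξ :=
    funext fun ξ => theta_add ξ m n
  have h3 : HasDerivAt (fun ξ => exp (Xe n ξ) * theta ξ)
      (deriv (fun ξ => exp (Xe n ξ)) 0 * theta 0 + exp (Xe n 0) * deriv theta 0) 0 :=
    ((differentiable_Xe n).cexp 0).hasDerivAt.mul (differentiable_theta 0).hasDerivAt
  rw [← h1, h2, h3.deriv, theta_zero_eq, mul_zero, zero_add]
  exact mul_ne_zero (exp_ne_zero _) deriv_theta_zero

end Pool.Agent.Helper95_Entire
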